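import Pool.Agent.W2helper33.RL.Ode4

set_option autoImplicit false

/-!
# RL: the conclusion on the discriminant form (JobODE, given unitarity), end
-/

open MeasureTheory Complex Set Topology Filter Metric

namespace Pool.Agent.W2helper33.RL

open Pool.Agent.Y813.RL

noncomputable section

open scoped Real

variable {G : Matrix (Fin 20) (Fin 20) ℤ} {R : Finset (Fin 20 → ℤ)} {f : (Fin 20 → ℤ) → ℂ → ℂ}

/-- the trivial component does not vanish -/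
theorem f0_ne (hR : IsReps G R) (hV : VV10 G R f) (hdet : 0 < G.det)
    (hU : ∀ a : (Fin 20 → ℤ) → ℂ,
      ∑ μ ∈ R, ‖∑ ρ ∈ R, ee (-(bd G μ ρ : ℂ)) * a ρ‖ ^ 2 = (G.det : ℝ) * ∑ ρ ∈ R, ‖a ρ‖ ^ 2)
    (hg1 : ∀ μ, ∃ C : ℝ, ∀ τ : ℂ, 1 / 2 ≤ τ.im → ‖f μ τ‖ ≤ C * Real.exp (2 * Real.pi * τ.im))
    (hg2 : ∀ μ, (¬ ∃ v : Fin 20 → ℤ, μ = G.mulVec v) →
      ∃ C : ℝ, ∀ τ : ℂ, 1 / 2 ≤ τ.im → ‖f μ τ‖ ≤ C * Real.exp (Real.pi * τ.im))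
    (hne : ∃ μ, ∃ τ : ℂ, 0 < τ.im ∧ f μ τ ≠ 0) : ∃ τ : ℂ, 0 < τ.im ∧ f 0 τ ≠ 0 := by
  by_contra hcon
  push Not at hcon
  have key : ∀ μ ∈ R, ∀ τ : ℂ, 0 < τ.im → f μ τ = 0 := by
    refine vv_apply hdet hU 10 (-(1 / 2)) (by norm_num) f hV.holo ?_
      (fun μ _ τ hτ => S_flip hV μ hτ) ?_
    · intro μ _ τ hτ
      by_cases hμ : Tr G μ
      · obtain ⟨Ψ, hΨ⟩ := rep_tr hV hg1 hμ
        exact hΨ.norm_T hτ
      · obtain ⟨ν, Ψ, hΨ, _⟩ := rep_ntr hV hg2 hμ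
        exact hΨ.norm_T hτ
    · intro μ _
      by_cases hμ : Tr G μ
      · refine ⟨0, fun τ hτ => ?_⟩
        rw [f_tr hV hμ (by linarith), hcon τ (by linarith)]
        simp
      · obtain ⟨C, hC⟩ := hg2 μ hμ
        refine ⟨C, fun τ hτ => (hC τ hτ).trans (le_of_eq ?_)⟩
        ring_nf
  obtain ⟨μ, τ, hτ, hfμ⟩ := hne
  obtain ⟨ρ, ⟨hρ, v, rfl⟩, _⟩ := hR μ
  rw [hV.inv ρ v τ hτ] at hfμ
  exact hfμ (key ρ hρ τ hτ)

/-- lower bound for the trivial component -/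
theorem f0_lower (hR : IsReps G R) (hV : VV10 G R f) (hdet : 0 < G.det)
    (hU : ∀ a : (Fin 20 → ℤ) → ℂ,
      ∑ μ ∈ R, ‖∑ ρ ∈ R, ee (-(bd G μ ρ : ℂ)) * a ρ‖ ^ 2 = (G.det : ℝ) * ∑ ρ ∈ R, ‖a ρ‖ ^ 2)
    (hg1 : ∀ μ, ∃ C : ℝ, ∀ τ : ℂ, 1 / 2 ≤ τ.im → ‖f μ τ‖ ≤ C * Real.exp (2 * Real.pi * τ.im))
    (hg2 : ∀ μ, (¬ ∃ v : Fin 20 → ℤ, μ = G.mulVec v) →
      ∃ C : ℝ, ∀ τ : ℂ, 1 / 2 ≤ τ.im → ‖f μ τ‖ ≤ C * Real.exp (Real.pi * τ.im))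
    (hne : ∃ μ, ∃ τ : ℂ, 0 < τ.im ∧ f μ τ ≠ 0) {ρ0 : Fin 20 → ℤ} (hρ0 : ρ0 ∈ R) (ht : Tr G ρ0) :
    ∃ c V : ℝ, 0 < c ∧ ∀ τ : ℂ, V ≤ τ.im → 0 < τ.im → c * Real.exp (2 * π * τ.im) ≤ ‖f ρ0 τ‖ := by
  obtain ⟨τ0, hτ0, hf0⟩ := f0_ne hR hV hdet hU hg1 hg2 hne
  obtain ⟨Ψ, hΨ⟩ := rep_tr hV hg1 ht
  have hG := gop_zero hV hdet hU hg1 hg2 ρ0 hρ0
  have hne0 : ∃ τ : ℂ, 0 < τ.im ∧ f ρ0 τ ≠ 0 := ⟨τ0, hτ0, by rwa [f_tr hV ht hτ0]⟩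
  obtain ⟨m, r, Φ, hr0, hr1, hΦ, hΦ0, hm⟩ := hΨ.order hne0
  have hind := hΦ.indicial hr0 hr1 hG hΦ0
  have hm0 : m = 0 := by
    rcases hind with h | h
    · have : (m : ℝ) = 0 := by linarith
      exact_mod_cast this
    · exfalso
      have h1 : (2 * m : ℝ) = 1 := by linarith
      have h2 : 2 * m = 1 := by exact_mod_cast h1
      omega
  have hΨ0 : Ψ 0 ≠ 0 := hm hm0
  -- near 0 the expansion is bounded below
  have hc : ContinuousAt Ψ 0 :=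
    (hΨ.diff.differentiableAt (ball_mem_nhds 0 one_pos)).continuousAt
  have hev : ∀ᶠ q in 𝓝 (0 : ℂ), ‖Ψ 0‖ / 2 < ‖Ψ q‖ :=
    (hc.norm).eventually (lt_mem_nhds (by
      have := norm_pos_iff.mpr hΨ0
      linarith))
  obtain ⟨ε, hε, hb⟩ := Metric.eventually_nhds_iff_ball.mp hev
  have hlim : Tendsto (fun v : ℝ => Real.exp (-(2 * π * v))) atTop (𝓝 0) := by
    apply Real.tendsto_exp_atBot.comp
    have : (fun v : ℝ => -(2 * π * v)) = fun v => (-(2 * π)) * v := by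
      funext v; ring
    rw [this]
    exact tendsto_id.const_mul_atTop_of_neg (by linarith [Real.pi_pos])
  obtain ⟨V, hVe⟩ := eventually_atTop.mp (hlim.eventually (gt_mem_nhds hε))
  refine ⟨‖Ψ 0‖ / 2, V, by
    have := norm_pos_iff.mpr hΨ0
    linarith, fun τ hτV hτ => ?_⟩
  have hq : ee τ ∈ ball (0 : ℂ) ε := by
    rw [mem_ball_zero_iff, norm_ee]
    exact hVe τ.im hτV
  have h1 := hb _ hq
  rw [hΨ.eq τ hτ (norm_ee_lt hτ), norm_mul, norm_ee, mul_comm]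
  have e1 : -(2 * π * (((-1 : ℝ) : ℂ) * τ).im) = 2 * π * τ.im := by simp
  rw [e1]
  exact mul_le_mul_of_nonneg_left h1.le (Real.exp_pos _).le

/-- no component vanishes -/
theorem f_ne (hR : IsReps G R) (hV : VV10 G R f) (hdet : 0 < G.det)
    (hU : ∀ a : (Fin 20 → ℤ) → ℂ,
      ∑ μ ∈ R, ‖∑ ρ ∈ R, ee (-(bd G μ ρ : ℂ)) * a ρ‖ ^ 2 = (G.det : ℝ) * ∑ ρ ∈ R, ‖a ρ‖ ^ 2)
    (hg1 : ∀ μ, ∃ C : ℝ, ∀ τ : ℂ, 1 / 2 ≤ τ.im → ‖f μ τ‖ ≤ C * Real.exp (2 * Real.pi * τ.im))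
    (hg2 : ∀ μ, (¬ ∃ v : Fin 20 → ℤ, μ = G.mulVec v) →
      ∃ C : ℝ, ∀ τ : ℂ, 1 / 2 ≤ τ.im → ‖f μ τ‖ ≤ C * Real.exp (Real.pi * τ.im))
    (hne : ∃ μ, ∃ τ : ℂ, 0 < τ.im ∧ f μ τ ≠ 0) (μ : Fin 20 → ℤ) :
    ∃ τ : ℂ, 0 < τ.im ∧ f μ τ ≠ 0 := by
  by_contra hcon
  push Not at hcon
  obtain ⟨ρ0, ⟨hρ0, v0, hv0⟩, huniq⟩ := hR 0
  have ht : Tr G ρ0 := ⟨-v0, by rw [Matrix.mulVec_neg]; exact eq_neg_of_add_eq_zero_left hv0.symm⟩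
  obtain ⟨c, V, hc, hlow⟩ := f0_lower hR hV hdet hU hg1 hg2 hne hρ0 ht
  have hntr : ∀ ρ ∈ R.erase ρ0, ¬ Tr G ρ := by
    rintro ρ hρ ⟨v, hv⟩
    rw [Finset.mem_erase] at hρ
    apply hρ.1
    apply huniq
    refine ⟨hρ.2, -v, ?_⟩
    rw [Matrix.mulVec_neg, hv, add_neg_cancel]
  have hC : ∀ ρ ∈ R.erase ρ0, ∃ C : ℝ, ∀ τ : ℂ, 1 / 2 ≤ τ.im →
      ‖f ρ τ‖ ≤ C * Real.exp (Real.pi * τ.im) := fun ρ hρ => hg2 ρ (hntr ρ hρ)
  choose! C hC using hC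
  set D := ∑ ρ ∈ R.erase ρ0, C ρ with hD
  -- the relation
  have hrel : ∀ τ : ℂ, 0 < τ.im → ∑ ρ ∈ R, ee (-(bd G μ ρ : ℂ)) * f ρ τ = 0 := by
    intro τ hτ
    have h1 := S_flip hV μ hτ
    rw [hcon _ (im_neg_inv hτ), mul_zero] at h1
    have e1 : ∑ ρ ∈ R, MS G μ ρ * f ρ τ =
        -(1 / (Real.sqrt (G.det : ℝ) : ℂ)) * ∑ ρ ∈ R, ee (-(bd G μ ρ : ℂ)) * f ρ τ := by
      rw [Finset.mul_sum]
      refine Finset.sum_congr rfl fun ρ _ => ?_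
      unfold MS
      ring
    rw [e1] at h1
    rcases mul_eq_zero.mp h1.symm with h2 | h2
    · exfalso
      have h3 : Real.sqrt (G.det : ℝ) ≠ 0 := by
        have : (0 : ℝ) < (G.det : ℝ) := by exact_mod_cast hdet
        exact (Real.sqrt_pos.mpr this).ne'
      have h4 : (Real.sqrt (G.det : ℝ) : ℂ) ≠ 0 := by exact_mod_cast h3
      exact (neg_ne_zero.mpr (one_div_ne_zero h4)) h2
    · exact h2
  have hup : ∀ τ : ℂ, 1 / 2 ≤ τ.im → ‖f ρ0 τ‖ ≤ D * Real.exp (Real.pi * τ.im) := by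
    intro τ hτ
    have hτ0 : 0 < τ.im := by linarith
    have h1 := hrel τ hτ0
    rw [← Finset.add_sum_erase R _ hρ0] at h1
    have h2 : ee (-(bd G μ ρ0 : ℂ)) * f ρ0 τ =
        -∑ ρ ∈ R.erase ρ0, ee (-(bd G μ ρ : ℂ)) * f ρ τ := eq_neg_of_add_eq_zero_left h1
    have h3 : ∀ ρ : Fin 20 → ℤ, ‖ee (-(bd G μ ρ : ℂ))‖ = 1 := by
      intro ρ
      rw [norm_ee]
      simp
    have h4 : ‖f ρ0 τ‖ = ‖ee (-(bd G μ ρ0 : ℂ)) * f ρ0 τ‖ := by rw [norm_mul, h3, one_mul]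
    rw [h4, h2, norm_neg, hD, Finset.sum_mul]
    refine (norm_sum_le _ _).trans (Finset.sum_le_sum fun ρ hρ => ?_)
    rw [norm_mul, h3, one_mul]
    exact hC ρ hρ τ hτ
  -- contradiction
  have hlim : Tendsto (fun v : ℝ => c * Real.exp (π * v)) atTop atTop := by
    refine Tendsto.const_mul_atTop hc ?_
    exact Real.tendsto_exp_atTop.comp (tendsto_id.const_mul_atTop Real.pi_pos)
  obtain ⟨W, hW⟩ := eventually_atTop.mp (hlim.eventually (eventually_gt_atTop D))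
  set v := max (max V W) 1 with hv
  have hv1 : 1 ≤ v := le_max_right _ _
  have hvV : V ≤ v := (le_max_left _ _).trans (le_max_left _ _)
  have hvW : W ≤ v := (le_max_right _ _).trans (le_max_left _ _)
  have him : ((v : ℂ) * I).im = v := by simp
  have h1 := hlow ((v : ℂ) * I) (by rw [him]; exact hvV) (by rw [him]; linarith)
  have h2 := hup ((v : ℂ) * I) (by rw [him]; linarith)
  rw [him] at h1 h2
  have h3 := hW v hvW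
  have h4 : Real.exp (2 * π * v) = Real.exp (π * v) * Real.exp (π * v) := by
    rw [← Real.exp_add]
    congr 1
    ring
  rw [h4] at h1
  have h5 := Real.exp_pos (π * v)
  nlinarith

/-- ODE given unitarity -/
theorem ode (hP : PosSymm G) (he : ∀ i, Even (G i i)) (hR : IsReps G R) (hV : VV10 G R f)
    (hdet : 0 < G.det)
    (hU : ∀ a : (Fin 20 → ℤ) → ℂ,
      ∑ μ ∈ R, ‖∑ ρ ∈ R, ee (-(bd G μ ρ : ℂ)) * a ρ‖ ^ 2 = (G.det : ℝ) * ∑ ρ ∈ R, ‖a ρ‖ ^ 2)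
    (hg1 : ∀ μ, ∃ C : ℝ, ∀ τ : ℂ, 1 / 2 ≤ τ.im → ‖f μ τ‖ ≤ C * Real.exp (2 * Real.pi * τ.im))
    (hg2 : ∀ μ, (¬ ∃ v : Fin 20 → ℤ, μ = G.mulVec v) →
      ∃ C : ℝ, ∀ τ : ℂ, 1 / 2 ≤ τ.im → ‖f μ τ‖ ≤ C * Real.exp (Real.pi * τ.im))
    (hne : ∃ μ, ∃ τ : ℂ, 0 < τ.im ∧ f μ τ ≠ 0) :
    (∀ μ, (¬ ∃ v : Fin 20 → ℤ, μ = G.mulVec v) → ∃ k : ℤ, bd G μ μ = 2 * k + 1) ∧ G.det ≠ 1 := by
  have hfne := f_ne hR hV hdet hU hg1 hg2 hne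
  have hgz := gop_zero hV hdet hU hg1 hg2
  constructor
  · intro μ hμ
    obtain ⟨ρ, ⟨hρ, v, hv⟩, _⟩ := hR μ
    have hρt : ¬ Tr G ρ := by
      rintro ⟨u, hu⟩
      apply hμ
      exact ⟨u + v, by rw [Matrix.mulVec_add, hv, hu]⟩
    obtain ⟨ν, Ψ, hΨ, hν, n, hn⟩ := rep_ntr hV hg2 hρt
    obtain ⟨m, r, Φ, hr0, hr1, hΦ, hΦ0, hm⟩ := hΨ.order (hfne ρ)
    have hind := hΦ.indicial hr0 hr1 (hgz ρ hρ) hΦ0
    have hm' : (0 : ℝ) ≤ m := Nat.cast_nonneg m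
    have h1 : ν + m = -(1 / 2) := by
      rcases hind with h | h
      · linarith
      · exact h
    have hm0 : (m : ℝ) = 0 := by linarith
    have h2 : bd G ρ ρ = 2 * n + 1 := by linarith
    obtain ⟨N, hN⟩ := even_bf hP.symm he v
    refine ⟨n + dt ρ v + N, ?_⟩
    have h3 := bd_add_mulVec hP ρ v 1
    rw [one_smul, ← hv, h2, dt_intCast, hN] at h3
    rw [h3]
    push_cast
    ring
  · intro hd1
    -- the only class is trivial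
    have htr : ∀ μ, Tr G μ := by
      intro μ
      have hu : IsUnit G.det := by rw [hd1]; exact isUnit_one
      refine ⟨G⁻¹.mulVec μ, ?_⟩
      rw [Matrix.mulVec_mulVec, Matrix.mul_nonsing_inv _ hu, Matrix.one_mulVec]
    obtain ⟨ρ0, ⟨hρ0, v0, hv0⟩, huniq⟩ := hR 0
    have hR1 : R = {ρ0} := by
      ext ρ
      rw [Finset.mem_singleton]
      constructor
      · intro hρ
        obtain ⟨v, hv⟩ := htr ρ
        exact huniq ρ ⟨hρ, -v, by rw [Matrix.mulVec_neg, hv, add_neg_cancel]⟩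
      · rintro rfl
        exact hρ0
    have hS : ∀ τ : ℂ, 0 < τ.im → f 0 τ = -(τ ^ 10) * f 0 (-1 / τ) := by
      intro τ hτ
      have h1 := hV.S 0 τ hτ
      have e1 : bd G 0 ρ0 = 0 := by simp [bd]
      rw [hR1, Finset.sum_singleton, hd1, e1, f_tr hV (htr ρ0) (im_neg_inv hτ)] at h1
      simpa [ee_zero] using h1
    obtain ⟨τ, hτ, hf⟩ := hfne 0
    apply hf
    have h0 := tau_ne' hτ
    have hτ1 : 0 < (τ - 1).im := by simpa using hτ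
    have h01 := tau_ne' hτ1
    have hper : ∀ τ : ℂ, 0 < τ.im → f 0 (τ + 1) = f 0 τ := fun τ hτ => f0_per hV hτ
    have a1 := hS τ hτ
    have a2 := hper (-1 / τ) (im_neg_inv hτ)
    have e1 : -1 / τ + 1 = (τ - 1) / τ := by field_simp; ring
    rw [e1] at a2
    have hi1 : 0 < ((τ - 1) / τ).im := by
      rw [← e1]
      simpa using im_neg_inv hτ
    have a3 := hS _ hi1
    have e2 : -1 / ((τ - 1) / τ) = -1 / (τ - 1) - 1 := by field_simp; ring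
    rw [e2] at a3
    have hi2 : 0 < (-1 / (τ - 1)).im := im_neg_inv hτ1
    have a4 := hper (-1 / (τ - 1) - 1) (by simpa using hi2)
    rw [sub_add_cancel] at a4
    have a5 := hS _ hi2
    rw [neg_inv_inv] at a5
    have a6 := hper (τ - 1) hτ1
    rw [sub_add_cancel] at a6
    -- combine
    rw [← a6] at a5
    rw [← a4, a5] at a3
    rw [← a2, a3] at a1
    have e3 : -τ ^ 10 * (-((τ - 1) / τ) ^ 10 * (-(-1 / (τ - 1)) ^ 10 * f 0 τ)) =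
        -((τ * ((τ - 1) / τ) * (-1 / (τ - 1))) ^ 10 * f 0 τ) := by ring
    have e4 : τ * ((τ - 1) / τ) * (-1 / (τ - 1)) = -1 := by field_simp
    rw [e3, e4] at a1
    norm_num at a1
    have a7 : f 0 τ + f 0 τ = 0 := by
      nth_rewrite 1 [a1]
      ring
    have a8 : 2 * f 0 τ = 0 := by rw [two_mul]; exact a7
    exact (mul_eq_zero.mp a8).resolve_left two_ne_zero

end

end Pool.Agent.W2helper33.RL
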