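import Pool.Agent.W2helper33.RL.Ex
import Pool.Agent.W2helper33.RL.Tube6
import Pool.Agent.W2helper33.RL.Ode5

set_option autoImplicit false

/-!
# Assembly
-/

namespace Pool.Agent.W2helper33.RL

open Set Topology Pool.Agent.Y813.RL Filter
open Pool.Agent.Y683.RL (HP fco)

noncomputable section

variable {G : Matrix (Fin 20) (Fin 20) ℤ}

variable {k : ℤ} {F : TP → ℂ} {φ : ℕ → ℂ × (Fin 20 → ℂ) → ℂ} {C : ℕ}

theorem one_smulG : ((1 : ℕ) : ℤ) • G = G := by simp

/-- first bound -/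
theorem coef_one (hKD : JobKD) (hBC : JobBC) (hT : JobTheta1) (h : PosSymm G)
    (H : CM G k F φ C 1) {c : ℂ → (Fin 20 → ℂ) → ℂ} (hJ : JacobiZero G c)
    (hc : ∀ τ z, 0 < τ.im → φ (C + 1) (τ, z) = φ C (τ, z) * c τ z)
    (μ : Fin 20 → ℤ) (n : ℤ) (hn : (n : ℝ) < bd G μ μ / 2 - 1) : fco 0 (fc c μ) n = 0 := by
  have hJ' : JacobiZero (((1 : ℕ) : ℤ) • G) c := by rw [one_smulG]; exact hJ
  refine coef_of_slice hKD hBC hT h H hJ' hc one_pos μ n
    (ε := 2 * (bd G μ μ / 2 - 1 - n)) (by linarith) ?_ ?_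
  · rw [one_smulG]
    push_cast
    linarith
  · intro X N hN hx _ _ y
    refine ⟨1, fun τ hτ ω hω => ?_⟩
    have hτ0 : 0 < τ.im := by linarith
    refine nonvanish h H.tf (pt_mem hτ0) (pt_off hx hτ0) ?_
    unfold thr
    rw [xp_pt hτ0]
    have e1 : (pt (xr X N) y τ).1.im = τ.im := rfl
    rw [e1, max_lt_iff]
    refine ⟨by linarith, ?_⟩
    have : 1 / τ.im ≤ τ.im := by
      rw [div_le_iff₀ hτ0]
      nlinarith
    linarith

/-- second bound -/
theorem coef_half (hKD : JobKD) (hBC : JobBC) (hT : JobTheta1) (h : PosSymm G)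
    (he : ∀ i, Even (G i i))
    (H : CM G k F φ C 1) {c : ℂ → (Fin 20 → ℂ) → ℂ} (hJ : JacobiZero G c)
    (hc : ∀ τ z, 0 < τ.im → φ (C + 1) (τ, z) = φ C (τ, z) * c τ z)
    {μ : Fin 20 → ℤ} (hμ : ¬ ∃ v : Fin 20 → ℤ, μ = G.mulVec v)
    (n : ℤ) (hn : (n : ℝ) < bd G μ μ / 2 - 1 / 2) : fco 0 (fc c μ) n = 0 := by
  rcases lt_or_ge (n : ℝ) (bd G μ μ / 2 - 1) with h1 | h1
  · exact coef_one hKD hBC hT h H hJ hc μ n h1
  have hJ' : JacobiZero (((1 : ℕ) : ℤ) • G) c := by rw [one_smulG]; exact hJ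
  set M := bd G μ μ / 2 - n with hM
  have hM1 : M ≤ 1 := by linarith
  set g := (M - 1 / 2) / 2 with hg
  have hg0 : 0 < g := by rw [hg]; linarith
  have hg1 : g ≤ 1 / 4 := by rw [hg]; linarith
  have hMg : M = 1 / 2 + 2 * g := by rw [hg]; ring
  refine coef_of_slice hKD hBC hT h H hJ' hc (δ := 1 / 2 + g) (by linarith) μ n
    (ε := g ^ 2) (by positivity) ?_ ?_
  · rw [one_smulG]
    push_cast
    nlinarith
  · intro X N hN hx _ hxe y
    refine ⟨2, fun τ hτ ω hω hF0 => ?_⟩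
    have hτ0 : 0 < τ.im := by linarith
    set x := xr X N with hxdef
    have hht : 1 / 2 + g < ht G (ω, pt x y τ) := by
      rw [ht_pt hτ0, lt_sub_iff_add_lt, lt_div_iff₀ hτ0]
      exact hω
    have hW : (ω, pt x y τ) ∈ Hd G := by
      refine ⟨pt_mem hτ0, ?_⟩
      show bh G (pt x y τ) < ω.im
      rw [bh_pt hτ0]
      nlinarith
    obtain ⟨b, l, n', μ', hw, hwe⟩ := zero_wall h H.tf hW hF0 (by
      show 1 < τ.im ^ 2 * ht G (ω, pt x y τ)
      nlinarith)
    have hl := l_ne h hx hτ0 hw hwe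
    have h2 := height_pt h hτ0 hwe
    have h3 := nu_le_one hw
    have h4 := h.nonneg (lam G μ' + (l : ℝ) • x)
    have hl2 : l = 1 ∨ l = -1 := by
      by_contra hcon
      push Not at hcon
      have h5 : (4 : ℝ) ≤ (l : ℝ) ^ 2 := by
        have : (4 : ℤ) ≤ l ^ 2 := by
          rcases lt_or_gt_of_ne hl with h6 | h6
          · have : l ≤ -2 := by omega
            nlinarith
          · have : 2 ≤ l := by omega
            nlinarith
        exact_mod_cast this
      nlinarith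
    have hl3 : (l : ℝ) ^ 2 = 1 := by
      rcases hl2 with h5 | h5 <;> rw [h5] <;> norm_num
    rw [hl3, one_mul] at h2
    -- the wall is of the first type
    have hty : nu G 0 b l n' μ' = 1 ∧ ∃ v : Fin 20 → ℤ, μ' = G.mulVec v := by
      rcases hw with h5 | ⟨_, h5⟩
      · exact h5
      · exfalso
        unfold nu at h2
        linarith
    obtain ⟨hν, v, hv⟩ := hty
    rw [hν] at h2
    -- normalise the sign
    have hbf : bf G ((fun i => (((l • v) i : ℤ) : ℝ)) + x) ((fun i => (((l • v) i : ℤ) : ℝ)) + x) =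
        bf G (lam G μ' + (l : ℝ) • x) (lam G μ' + (l : ℝ) • x) := by
      rw [hv, lam_mulVec h]
      have e1 : (fun i => (((l • v) i : ℤ) : ℝ)) = (l : ℝ) • fun i => (v i : ℝ) := by
        funext i; simp
      rw [e1]
      simp only [bf_add_left, bf_add_right, bf_smul_left, bf_smul_right]
      have e2 : (l : ℝ) * l = 1 := by rw [← pow_two]; exact hl3
      linear_combination (bf G (fun i => (v i : ℝ)) (fun i => (v i : ℝ)) - bf G x x) * e2
    set w : Fin 20 → ℤ := l • v with hwdef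
    have h5 : bf G ((fun i => (w i : ℝ)) + x) ((fun i => (w i : ℝ)) + x) < 1 - 2 * g := by
      rw [hbf]
      linarith
    have h6 : bf G (lam G μ + x) (lam G μ + x) < g ^ 2 := by
      have e1 : ((1 : ℝ) / ((1 : ℕ) : ℝ)) • lam G μ = lam G μ := by simp
      rwa [e1] at hxe
    have h7 := bf_young h ((fun i => (w i : ℝ)) + x) (lam G μ + x) (θ := 2 * g) (by linarith)
    have h8 : (fun i => (w i : ℝ)) + x - (lam G μ + x) = lam G (G.mulVec w - μ) := by
      have e1 := lam_add (G := G) (G.mulVec w - μ) μ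
      rw [sub_add_cancel, lam_mulVec h] at e1
      rw [e1]
      funext i
      simp
    rw [h8, bf_lam_lam h] at h7
    -- the norm of the difference
    obtain ⟨N₂, hN₂⟩ := even_bf h.symm he w
    have h9 : bd G (G.mulVec w - μ) (G.mulVec w - μ) =
        2 * N₂ - 2 * ((dt μ w : ℤ) : ℝ) + bd G μ μ := by
      have e1 : lam G (G.mulVec w - μ) = (fun i => (w i : ℝ)) - lam G μ := by
        rw [← h8]
        funext i
        simp
      rw [← bf_lam_lam h, e1, bf_sub_left, bf_sub_right, bf_sub_right, bf_intCast, hN₂,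
        bf_comm h.symm (fun i => (w i : ℝ)) (lam G μ), bf_lam h μ (fun i => (w i : ℝ)),
        dt_intCast, bf_lam_lam h]
      push_cast
      ring
    have h10 : G.mulVec w - μ ≠ 0 := by
      intro h0
      exact hμ ⟨w, (sub_eq_zero.1 h0).symm⟩
    have h11 := bd_pos h h10
    have h12 : bd G (G.mulVec w - μ) (G.mulVec w - μ) / 2 = M + ((N₂ - dt μ w + n : ℤ) : ℝ) := by
      rw [h9, hM]
      push_cast
      ring
    have h13 : (-1 : ℝ) < ((N₂ - dt μ w + n : ℤ) : ℝ) := by linarith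
    have h14 : 0 ≤ N₂ - dt μ w + n := by
      have : -1 < N₂ - dt μ w + n := by exact_mod_cast h13
      omega
    have h15 : (0 : ℝ) ≤ ((N₂ - dt μ w + n : ℤ) : ℝ) := by exact_mod_cast h14
    have h16 : 1 + 4 * g ≤ bd G (G.mulVec w - μ) (G.mulVec w - μ) := by linarith
    have h17 : (1 + 1 / (2 * g)) * bf G (lam G μ + x) (lam G μ + x) ≤ (1 + 1 / (2 * g)) * g ^ 2 :=
      mul_le_mul_of_nonneg_left h6.le (by positivity)
    have h18 : (1 + 1 / (2 * g)) * g ^ 2 = g ^ 2 + g / 2 := by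
      field_simp
    have h19 : (1 + 2 * g) * bf G ((fun i => (w i : ℝ)) + x) ((fun i => (w i : ℝ)) + x) ≤
        (1 + 2 * g) * (1 - 2 * g) := mul_le_mul_of_nonneg_left h5.le (by linarith)
    nlinarith

/-- **the local structure of `L`** -/
theorem main_tube (hKD : JobKD) (hFJ : JobFJ) (hDIV : JobDIV) (hVD : JobVD) (hBC : JobBC)
    (hT1 : JobTheta1) (hT2 : JobTheta2) (hFF : JobFinFour) (hVV : JobVV)
    (hGen : JobGenus) (h : PosSymm G) (he : ∀ i, Even (G i i))
    (hF : TubeForm G k F) : SameGenus G gramEED := by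
  obtain ⟨φ, hφ⟩ := exists_FJD hFJ hKD h hF
  obtain ⟨C, m, hm, hC, hne, hmid, hne2⟩ := exists_second h hF hφ
  have H : CM G k F φ C m := ⟨hF, hφ, hm, hC, hne, hmid, hne2⟩
  obtain ⟨c, hJ, hc⟩ := H.exists_jacobi hBC hDIV h
  have hex := exists_act hKD hBC hT1 hT2 hFF hVV h H hJ hc
  have hm1 := m_eq_one hKD hVD h he H hex
  subst hm1
  rw [one_smulG] at hJ
  obtain ⟨hdet, R, hR, hcard, hun⟩ := hFF G h
  have hV : VV10 G R (vf G c) :=
    ⟨fun μ => vf_diff hT1 h hJ μ, fun μ v τ hτ => (hT1 G c h hJ).2.2.2.1 μ v τ hτ,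
      fun μ τ hτ => vf_T hT1 h hJ μ hτ, fun μ τ hτ => hT2 G c R h hJ hR μ τ hτ⟩
  have hODE' := ode h he hR hV hdet hun
    (fun μ => by
      obtain ⟨C', hC'⟩ := vf_growth hT1 h hJ μ (κ := 1) fun n hn =>
        coef_one hKD hBC hT1 h H hJ hc μ n hn
      refine ⟨C', fun τ hτ => ?_⟩
      have := hC' τ hτ
      rwa [mul_one] at this)
    (fun μ hμ => by
      obtain ⟨C', hC'⟩ := vf_growth hT1 h hJ μ (κ := 1 / 2) fun n hn =>
        coef_half hKD hBC hT1 h he H hJ hc hμ n hn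
      refine ⟨C', fun τ hτ => ?_⟩
      have := hC' τ hτ
      have e : 2 * Real.pi * (1 / 2) * τ.im = Real.pi * τ.im := by ring
      rwa [e] at this)
    (by
      by_contra hcon
      push Not at hcon
      obtain ⟨p, hp, hne2'⟩ := hne2
      apply hne2'
      have h0 := c_zero_of_vf hT1 h hJ hcon p.1 p.2 hp
      have h1 : φ (C + 1) (p.1, p.2) = φ C (p.1, p.2) * c p.1 p.2 := hc p.1 p.2 hp
      rw [h0, mul_zero] at h1
      exact h1)
  exact hGen G h he hODE'.1 hODE'.2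

end

end Pool.Agent.W2helper33.RL
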