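import Pool.Agent.W2helper33.RL.Grow

set_option autoImplicit false

/-!
# Vanishing of Fourier coefficients from the growth along slices
-/

namespace Pool.Agent.W2helper33.RL

open Set Topology Pool.Agent.Y813.RL Filter MeasureTheory
open Pool.Agent.Y683.RL (HP fco)

noncomputable section

theorem fco_scale {f : ℂ → ℂ} (hf : HP 0 f) {N : ℕ} (hN : 0 < N) (n : ℤ) :
    fco 0 (fun t => f (N * t)) (N * n) = fco 0 f n := by
  have hNR : (0 : ℝ) < N := by exact_mod_cast hN
  have hg := hf.mul_ee n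
  rw [hf.fco_eq n (w := (N : ℂ) * Complex.I) (by simpa using hNR)]
  have h1 : fco 0 (fun t => f (N * t)) (N * n) =
      ∫ x in (0 : ℝ)..1, (fun y : ℝ => f ((y : ℂ) + (N : ℂ) * Complex.I) *
        ee (-(n * ((y : ℂ) + (N : ℂ) * Complex.I)))) (N * x) := by
    unfold fco
    refine intervalIntegral.integral_congr fun x _ => ?_
    simp only
    congr 2
    · push_cast
      ring
    · push_cast
      ring
  rw [h1, intervalIntegral.integral_comp_mul_left (fun y : ℝ => f ((y : ℂ) + (N : ℂ) * Complex.I) *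
        ee (-(n * ((y : ℂ) + (N : ℂ) * Complex.I)))) hNR.ne']
  rw [mul_zero, mul_one]
  set g : ℝ → ℂ := fun y : ℝ => f ((y : ℂ) + (N : ℂ) * Complex.I) *
        ee (-(n * ((y : ℂ) + (N : ℂ) * Complex.I))) with hgdef
  have hper : Function.Periodic g 1 := by
    intro y
    have := hg.per ((y : ℂ) + (N : ℂ) * Complex.I) (by simpa using hNR)
    rw [hgdef]
    simp only
    rw [← this]
    have e : (((y + 1 : ℝ) : ℂ) + (N : ℂ) * Complex.I) = (y : ℂ) + (N : ℂ) * Complex.I + 1 := by
      push_cast; ring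
    rw [e]
  have h2 := hper.intervalIntegral_add_zsmul_eq N 0 (fun a b =>
    (hg.cont_line (w := (N : ℂ) * Complex.I) (by simpa using hNR)).intervalIntegrable a b)
  have h3 : (0 : ℝ) + ((N : ℕ) : ℤ) • (1 : ℝ) = N := by simp
  rw [h3, zero_add] at h2
  rw [h2]
  have hNC : (N : ℝ) ≠ 0 := hNR.ne'
  rw [← Int.cast_smul_eq_zsmul ℝ, smul_smul]
  simp [hNC]

theorem fco_zero' {f : ℂ → ℂ} (hf : HP 0 f) {A B a T : ℝ} (hB : 0 ≤ B)
    (hg : ∀ t : ℂ, T ≤ t.im → ‖f t‖ ≤ (A + B * t.im) * Real.exp (a * t.im)) {n : ℤ}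
    (hn : 2 * Real.pi * n + a < 0) : fco 0 f n = 0 := by
  rw [hf.fco_eq n (w := Complex.I) (by simp)]
  refine HP_line_zero (f := fun t => f t * ee (-(n * t))) (hf.mul_ee n) ?_ (by simp)
  intro ε hε
  set c := -(2 * Real.pi * n + a) with hc
  have hc0 : 0 < c := by linarith
  have ht : Filter.Tendsto (fun T : ℝ => (|A| + 2 * B / c) * Real.exp (-(c / 2) * T)) Filter.atTop
      (𝓝 ((|A| + 2 * B / c) * 0)) := by
    refine Filter.Tendsto.const_mul _ ?_
    refine Real.tendsto_exp_atBot.comp ?_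
    exact Filter.Tendsto.const_mul_atTop_of_neg (by linarith) Filter.tendsto_id
  rw [mul_zero] at ht
  obtain ⟨T', hT'⟩ := Filter.eventually_atTop.1 (ht.eventually (gt_mem_nhds hε))
  refine ⟨max (max T T') 0, fun t htm => ?_⟩
  have h1 : T ≤ t.im := ((le_max_left _ _).trans (le_max_left _ _)).trans htm
  have h1' : T' ≤ t.im := ((le_max_right _ _).trans (le_max_left _ _)).trans htm
  have h2 : 0 ≤ t.im := (le_max_right _ _).trans htm
  rw [norm_mul, norm_ee]
  have e1 : (-((n : ℂ) * t)).im = -(n * t.im) := by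
    rw [Complex.neg_im, Complex.mul_im]; simp
  rw [e1]
  have h3 : A + B * t.im ≤ (|A| + 2 * B / c) * Real.exp (c / 2 * t.im) := by
    have g1 : c / 2 * t.im ≤ Real.exp (c / 2 * t.im) :=
      (le_add_of_nonneg_right zero_le_one).trans (Real.add_one_le_exp _)
    have g2 : (1 : ℝ) ≤ Real.exp (c / 2 * t.im) := Real.one_le_exp (by positivity)
    have g3 : B * t.im ≤ 2 * B / c * Real.exp (c / 2 * t.im) := by
      have : B * t.im = 2 * B / c * (c / 2 * t.im) := by field_simp
      rw [this]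
      exact mul_le_mul_of_nonneg_left g1 (by positivity)
    have g4 : A ≤ |A| * Real.exp (c / 2 * t.im) := by
      calc A ≤ |A| * 1 := by rw [mul_one]; exact le_abs_self A
        _ ≤ _ := mul_le_mul_of_nonneg_left g2 (abs_nonneg _)
    linarith
  calc ‖f t‖ * Real.exp (-(2 * Real.pi * -(n * t.im))) ≤
      ((|A| + 2 * B / c) * Real.exp (c / 2 * t.im) * Real.exp (a * t.im)) *
        Real.exp (-(2 * Real.pi * -(n * t.im))) := by
        gcongr
        refine (hg t h1).trans ?_
        gcongr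
    _ = (|A| + 2 * B / c) * Real.exp (-(c / 2) * t.im) := by
        rw [mul_assoc, mul_assoc, ← Real.exp_add, ← Real.exp_add]
        congr 2
        rw [hc]
        ring
    _ ≤ ε := (hT' _ h1').le

theorem dt_cast (μ : Fin 20 → ℤ) (x : Fin 20 → ℝ) : dt μ (fun i => (x i : ℂ)) = ((dt μ x : ℝ) : ℂ) := by
  simp [dt]

theorem dt_xr (μ X : Fin 20 → ℤ) {N : ℕ} (hN : 0 < N) :
    (N : ℝ) * dt μ (xr X N) = ((dt μ X : ℤ) : ℝ) := by
  have hNR : (N : ℝ) ≠ 0 := by exact_mod_cast hN.ne'
  simp only [dt, xr, Finset.mul_sum, Int.cast_sum, Int.cast_mul]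
  refine Finset.sum_congr rfl fun i _ => ?_
  field_simp
  simp [mul_comm]

/-- **vanishing of the Fourier coefficients** -/
theorem coef_zero (hT : JobTheta1) {A : Matrix (Fin 20) (Fin 20) ℤ} {c : ℂ → (Fin 20 → ℂ) → ℂ}
    (hA : PosSymm A) (hJ : JacobiZero A c) {X : Fin 20 → ℤ} {N : ℕ} (hN : 0 < N) {κ : ℝ}
    (hg : ∀ y : Fin 20 → ℝ, ∃ a b T : ℝ, 0 < a ∧ 0 ≤ b ∧ 1 ≤ T ∧ ∀ τ : ℂ, T ≤ τ.im →
      ‖c τ (fun i => τ * (xr X N i : ℂ) + (y i : ℂ))‖ ≤ (a + b * τ.im) *
        Real.exp (2 * Real.pi * κ * τ.im))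
    (μ : Fin 20 → ℤ) (n : ℤ) (hn : n + dt μ (xr X N) + κ < 0) : fco 0 (fc c μ) n = 0 := by
  obtain ⟨t1, t2, t3, t4, t5⟩ := hT A c hA hJ
  have hNR : (0 : ℝ) < N := by exact_mod_cast hN
  have hNC : (N : ℂ) ≠ 0 := by exact_mod_cast hN.ne'
  have hpi := Real.pi_pos
  have him : ∀ t : ℂ, ((N : ℂ) * t).im = N * t.im := by
    intro t
    rw [Complex.mul_im]
    simp
  have hHPμ : HP 0 (fc c μ) := ⟨t1 μ, fun t ht => t2 μ t ht⟩
  set x := xr X N with hx
  -- the slice function
  have hcper : ∀ (M : ℕ) (τ : ℂ) (z : Fin 20 → ℂ), 0 < τ.im → c (τ + M) z = c τ z := by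
    intro M
    induction M with
    | zero => intro τ z _; simp
    | succ M ih =>
      intro τ z hτ
      have := hJ.perτ (τ + M) z (by simpa using hτ)
      rw [show τ + ((M + 1 : ℕ) : ℂ) = τ + M + 1 by push_cast; ring, this, ih τ z hτ]
  have hHP : ∀ y : Fin 20 → ℝ, HP 0 fun t : ℂ => c (N * t) (fun i => N * t * (x i : ℂ) + y i) := by
    intro y
    refine ⟨?_, ?_⟩
    · refine hJ.holo.comp (f := fun t : ℂ => ((N : ℂ) * t, fun i => N * t * (x i : ℂ) + (y i : ℂ)))
        (by fun_prop) ?_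
      intro t ht
      have ht' : 0 < t.im := ht
      show 0 < ((N : ℂ) * t).im
      rw [him]
      positivity
    · intro t ht
      have hNt : 0 < ((N : ℂ) * t).im := by
        rw [him]
        positivity
      have e1 : (fun i => (N : ℂ) * (t + 1) * (x i : ℂ) + (y i : ℂ)) =
          fun i => (fun i => (N : ℂ) * t * (x i : ℂ) + (y i : ℂ)) i + (X i : ℂ) := by
        funext i
        simp only [hx, xr]
        push_cast
        field_simp
        ring
      rw [e1, show (N : ℂ) * (t + 1) = N * t + N by ring,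
        hJ.perz _ _ X (by simpa using hNt), hcper N _ _ hNt]
  set j : ℤ := N * n + dt μ X with hj
  have hzero : ∀ y : Fin 20 → ℝ,
      fco 0 (fun t : ℂ => c (N * t) (fun i => N * t * (x i : ℂ) + y i)) j = 0 := by
    intro y
    obtain ⟨a, b, T, ha, hb, hT1, hbd⟩ := hg y
    refine fco_zero' (A := a) (B := b * N) (a := 2 * Real.pi * κ * N) (T := T / N) (hHP y)
      (by positivity) ?_ ?_
    · intro t ht
      have h1 := hbd (N * t) (by
        rw [him]
        rw [div_le_iff₀ hNR] at ht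
        linarith)
      rw [him] at h1
      have e2 : a + b * (N * t.im) = a + b * N * t.im := by ring
      have e3 : 2 * Real.pi * κ * (N * t.im) = 2 * Real.pi * κ * N * t.im := by ring
      rw [e2, e3] at h1
      exact h1
    · have h1 := dt_xr μ X hN
      have h2 : (j : ℝ) = N * (n + dt μ x) := by
        rw [hj]
        push_cast
        rw [← h1]
        ring
      rw [h2]
      have h3 : 2 * Real.pi * (N * (n + dt μ x)) + 2 * Real.pi * κ * N =
          2 * Real.pi * N * (n + dt μ x + κ) := by ring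
      rw [h3]
      exact mul_neg_of_pos_of_neg (by positivity) hn
  -- the double integral
  let sg : ℝ → ℂ := fun u => (u : ℂ) + ((0 + 1 : ℝ) : ℂ) * Complex.I
  have hsg : ∀ u, (sg u).im = 1 := by
    intro u
    show ((u : ℂ) + ((0 + 1 : ℝ) : ℂ) * Complex.I).im = 1
    simp
  let Φ : ℝ → (Fin 20 → ℝ) → ℂ := fun u y =>
    c (N * sg u) (fun i => N * sg u * (x i : ℂ) + y i) * ee (-(dt μ fun i => (y i : ℂ))) *
      ee (-(j * sg u))
  have hΦc : Continuous (Function.uncurry Φ) := by
    have hcc : ContinuousOn (fun p : ℂ × (Fin 20 → ℂ) => c p.1 p.2) {p | 0 < p.1.im} :=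
      hJ.holo.continuousOn
    have h1 : Continuous fun q : ℝ × (Fin 20 → ℝ) =>
        c (N * sg q.1) (fun i => N * sg q.1 * (x i : ℂ) + q.2 i) := by
      refine hcc.comp_continuous
        (f := fun q : ℝ × (Fin 20 → ℝ) => ((N : ℂ) * sg q.1, fun i => N * sg q.1 * (x i : ℂ) + (q.2 i : ℂ)))
        ?_ ?_
      · simp only [sg]
        fun_prop
      · intro q
        show 0 < ((N : ℂ) * sg q.1).im
        rw [him, hsg]
        linarith
    have hee : Continuous ee := by unfold ee; fun_prop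
    have h2 : Continuous fun q : ℝ × (Fin 20 → ℝ) => ee (-(dt μ fun i => (q.2 i : ℂ))) := by
      refine hee.comp ?_
      unfold dt
      fun_prop
    have h3 : Continuous fun q : ℝ × (Fin 20 → ℝ) => ee (-(j * sg q.1)) := by
      refine hee.comp ?_
      simp only [sg]
      fun_prop
    exact (h1.mul h2).mul h3
  have hint : Integrable (Function.uncurry Φ)
      ((volume.restrict (Set.uIoc (0 : ℝ) 1)).prod (volume.restrict (Set.Icc (0 : Fin 20 → ℝ) 1))) := by
    rw [Measure.prod_restrict]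
    have h1 : IntegrableOn (Function.uncurry Φ) (Set.Icc (0 : ℝ) 1 ×ˢ Set.Icc (0 : Fin 20 → ℝ) 1)
        (volume.prod volume) :=
      hΦc.continuousOn.integrableOn_compact (isCompact_Icc.prod isCompact_Icc)
    refine h1.mono_set (Set.prod_mono ?_ subset_rfl)
    rw [Set.uIoc_of_le zero_le_one]
    exact Set.Ioc_subset_Icc_self
  have hswap := intervalIntegral_integral_swap (a := (0 : ℝ)) (b := 1) (f := Φ)
    (μ := volume.restrict (Set.Icc (0 : Fin 20 → ℝ) 1)) hint
  have hR : ∫ y in Set.Icc (0 : Fin 20 → ℝ) 1, ∫ u in (0 : ℝ)..1, Φ u y = 0 := by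
    have : ∀ y : Fin 20 → ℝ, ∫ u in (0 : ℝ)..1, Φ u y = 0 := by
      intro y
      have h1 := hzero y
      unfold fco at h1
      have h2 : ∀ u : ℝ, Φ u y = ee (-(dt μ fun i => (y i : ℂ))) *
          (c (N * sg u) (fun i => N * sg u * (x i : ℂ) + y i) * ee (-(j * sg u))) := by
        intro u
        simp only [Φ]
        ring
      simp only [h2]
      rw [intervalIntegral.integral_const_mul]
      rw [h1, mul_zero]
    simp [this]
  have hL : ∀ u : ℝ, ∫ y in Set.Icc (0 : Fin 20 → ℝ) 1, Φ u y =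
      fc c μ (N * sg u) * ee (-(((N * n : ℤ) : ℂ) * sg u)) := by
    intro u
    set w : Fin 20 → ℂ := fun i => N * sg u * (x i : ℂ) with hw
    have h1 := t3 μ (N * sg u) w (by rw [him, hsg]; linarith)
    have h2 : dt μ w = sg u * ((dt μ X : ℤ) : ℂ) := by
      have e1 : w = ((N : ℂ) * sg u) • fun i => (x i : ℂ) := by
        funext i; simp [hw]
      have e2 := dt_xr μ X hN
      have e3 : (N : ℂ) * ((dt μ x : ℝ) : ℂ) = ((dt μ X : ℤ) : ℂ) := by
        have := congrArg (fun r : ℝ => (r : ℂ)) e2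
        push_cast at this
        exact this
      rw [e1, dt_smul, dt_cast, ← e3]
      ring
    have h3 : ∀ y : Fin 20 → ℝ, c (N * sg u) (fun i => w i + (y i : ℂ)) *
        ee (-(dt μ fun i => w i + (y i : ℂ))) = ee (-(dt μ w) + j * sg u) * Φ u y := by
      intro y
      simp only [Φ]
      have e1 : (fun i => w i + (y i : ℂ)) = w + fun i => (y i : ℂ) := rfl
      have e2 : dt μ (fun i => w i + (y i : ℂ)) = dt μ w + dt μ (fun i => (y i : ℂ)) := by
        rw [e1, dt_add]
      have e3 : ee (-(dt μ fun i => w i + (y i : ℂ))) =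
          ee (-(dt μ w) + j * sg u) * (ee (-(dt μ fun i => (y i : ℂ))) * ee (-(j * sg u))) := by
        rw [e2, ← ee_add, ← ee_add]
        congr 1
        ring
      rw [e3]
      ring
    simp only [h3] at h1
    rw [integral_const_mul] at h1
    have h4 : ee (-(((N * n : ℤ) : ℂ) * sg u)) * ee (-(dt μ w) + j * sg u) = 1 := by
      rw [← ee_add, h2]
      have : -(((N * n : ℤ) : ℂ) * sg u) + (-(sg u * ((dt μ X : ℤ) : ℂ)) + j * sg u) = 0 := by
        rw [hj]
        push_cast
        ring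
      rw [this, ee_zero]
    rw [h1]
    calc _ = 1 * ∫ y in Set.Icc (0 : Fin 20 → ℝ) 1, Φ u y := by rw [one_mul]
      _ = _ := by
        rw [← h4]
        ring
  rw [hR] at hswap
  simp only [hL] at hswap
  rw [← fco_scale hHPμ hN n]
  unfold fco
  exact hswap

end

end Pool.Agent.W2helper33.RL
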