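import Pool.Agent.H239R2.Flat.COEF
import Pool.Agent.H239R2.Flat.LIFT
import Pool.Agent.H239R2.Flat.POIS
import Pool.Agent.Y813.RL.HI

set_option autoImplicit false

/-!
# Periodic functions of several variables
-/

namespace Pool.Agent.W2helper33.RL

open Set Topology MeasureTheory Filter
open Pool.Agent.H239R2.Flat

noncomputable section

variable {n : ℕ}

/-- integrals over the closed cube and the half open cube agree -/
theorem cube_eq (f : (Fin n → ℝ) → ℂ) (a : Fin n → ℝ) :
    ∫ x in Set.Icc a (a + 1), f x = ∫ x in {x : Fin n → ℝ | ∀ i, x i ∈ Ioc (a i) (a i + 1)}, f x := by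
  have h1 : {x : Fin n → ℝ | ∀ i, x i ∈ Ioc (a i) (a i + 1)} =
      Set.univ.pi fun i => Ioc (a i) ((a + 1) i) := by
    ext x
    simp
  rw [h1]
  apply setIntegral_congr_set
  exact (Measure.univ_pi_Ioc_ae_eq_Icc (μ := fun _ : Fin n => (volume : Measure ℝ))
    (f := a) (g := a + 1)).symm

/-- the section of the torus -/
def sct (t : UnitAddTorus (Fin n)) : Fin n → ℝ :=
  fun i => ((AddCircle.equivIoc (1 : ℝ) 0 (t i)).1 : ℝ)

theorem sct_spec (t : UnitAddTorus (Fin n)) : (fun i => ((sct t i : ℝ) : UnitAddCircle)) = t := by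
  funext i
  exact AddCircle.coe_equivIoc (p := (1 : ℝ)) (a := 0) (y := t i)

/-- periodic functions descend to the torus -/
theorem per_sct {f : (Fin n → ℝ) → ℂ} (hp : ∀ (x : Fin n → ℝ) (v : Fin n → ℤ),
    f (fun i => x i + v i) = f x) (x : Fin n → ℝ) :
    f (sct fun i => (x i : UnitAddCircle)) = f x := by
  have h1 := sct_spec (fun i => (x i : UnitAddCircle))
  have h2 : ∀ i, ∃ m : ℤ, sct (fun i => (x i : UnitAddCircle)) i = x i + m := by
    intro i
    have h3 : ((sct (fun i => (x i : UnitAddCircle)) i : ℝ) : UnitAddCircle) =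
      (x i : UnitAddCircle) := congrFun h1 i
    have h4 : ((sct (fun i => (x i : UnitAddCircle)) i - x i : ℝ) : UnitAddCircle) = 0 := by
      rw [AddCircle.coe_sub, h3, sub_self]
    obtain ⟨m, hm⟩ := (AddCircle.coe_eq_zero_iff (1 : ℝ)).1 h4
    refine ⟨m, ?_⟩
    rw [zsmul_eq_mul, mul_one] at hm
    linarith
  choose m hm using h2
  rw [← hp x m]
  congr 1
  funext i
  exact hm i

/-- periodic continuous functions descend to the torus -/
theorem exists_lift {f : (Fin n → ℝ) → ℂ} (hc : Continuous f)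
    (hp : ∀ (x : Fin n → ℝ) (v : Fin n → ℤ), f (fun i => x i + v i) = f x) :
    ∃ Φ : C(UnitAddTorus (Fin n), ℂ), ∀ x : Fin n → ℝ, Φ (fun i => (x i : UnitAddCircle)) = f x := by
  refine ⟨⟨fun t => f (sct t), (LIFT_q_quot n).continuous_iff.2 ?_⟩, fun x => per_sct hp x⟩
  have : (fun t => f (sct t)) ∘ LIFT_q n = f := by
    funext x
    exact per_sct hp x
  rw [this]
  exact hc

/-- translation invariance -/
theorem cube_translate {f : (Fin n → ℝ) → ℂ}
    (hp : ∀ (x : Fin n → ℝ) (v : Fin n → ℤ), f (fun i => x i + v i) = f x) (a : Fin n → ℝ) :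
    ∫ x in Set.Icc (0 : Fin n → ℝ) 1, f (fun i => x i + a i) =
      ∫ x in Set.Icc (0 : Fin n → ℝ) 1, f x := by
  have h1 : ∀ b : Fin n → ℝ, ∫ x in Set.Icc b (b + 1), f x =
      ∫ x in Set.Icc (0 : Fin n → ℝ) (0 + 1), f x := by
    intro b
    rw [cube_eq, cube_eq]
    have h2 := UnitAddTorus.integral_preimage (fun t : UnitAddTorus (Fin n) => f (sct t)) b
    have h3 := UnitAddTorus.integral_preimage (fun t : UnitAddTorus (Fin n) => f (sct t)) 0
    rw [h3] at h2
    simp only [per_sct hp] at h2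
    exact h2.symm
  have h4 := (measurePreserving_add_right (volume : Measure (Fin n → ℝ)) a).setIntegral_preimage_emb
      (measurableEmbedding_addRight _) f (Set.Icc a (a + 1))
  have h5 : (fun x : Fin n → ℝ => x + a) ⁻¹' Set.Icc a (a + 1) = Set.Icc 0 1 := by
    ext x
    simp only [Set.mem_preimage, Set.mem_Icc]
    constructor
    · rintro ⟨h6, h7⟩
      refine ⟨fun i => ?_, fun i => ?_⟩
      · have := h6 i
        simp at this ⊢
        exact this
      · have := h7 i
        simp at this ⊢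
        linarith
    · rintro ⟨h6, h7⟩
      refine ⟨fun i => ?_, fun i => ?_⟩
      · have := h6 i
        simp at this ⊢
        exact this
      · have := h7 i
        simp at this ⊢
        linarith
  rw [h5, h1 a, zero_add] at h4
  exact h4

/-- Fourier series in several variables -/
theorem fourier_pi {f : (Fin n → ℝ) → ℂ} (hc : Continuous f)
    (hp : ∀ (x : Fin n → ℝ) (v : Fin n → ℤ), f (fun i => x i + v i) = f x)
    (hs : Summable fun y : Fin n → ℤ =>
      ∫ x in Set.Icc (0 : Fin n → ℝ) 1, f x * ch (-(∑ i, (y i : ℝ) * x i))) (x : Fin n → ℝ) :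
    HasSum (fun y : Fin n → ℤ =>
      (∫ u in Set.Icc (0 : Fin n → ℝ) 1, f u * ch (-(∑ i, (y i : ℝ) * u i))) *
        ch (∑ i, (y i : ℝ) * x i)) (f x) := by
  obtain ⟨Φ, hΦ⟩ := exists_lift hc hp
  have hco : ∀ y : Fin n → ℤ, UnitAddTorus.mFourierCoeff Φ y =
      ∫ u in Set.Icc (0 : Fin n → ℝ) 1, f u * ch (-(∑ i, (y i : ℝ) * u i)) := by
    intro y
    rw [UnitAddTorus.mFourierCoeff_eq_integral _ _ (fun _ => 0)]
    have h1 := cube_eq (fun u => f u * ch (-(∑ i, (y i : ℝ) * u i))) (0 : Fin n → ℝ)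
    rw [zero_add] at h1
    rw [h1]
    apply setIntegral_congr_fun (COEF_cube_meas n)
    intro u _
    show UnitAddTorus.mFourier (-y) (fun i => (u i : UnitAddCircle)) •
      Φ (fun i => (u i : UnitAddCircle)) = _
    rw [COEF_mFourier, hΦ, smul_eq_mul, mul_comm]
  have hsum : Summable (UnitAddTorus.mFourierCoeff Φ) := by
    have h3 : UnitAddTorus.mFourierCoeff Φ = fun y : Fin n → ℤ =>
        ∫ u in Set.Icc (0 : Fin n → ℝ) 1, f u * ch (-(∑ i, (y i : ℝ) * u i)) := funext hco
    rw [h3]
    exact hs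
  have h3 := UnitAddTorus.hasSum_mFourier_series_apply_of_summable hsum
    (fun i => (x i : UnitAddCircle))
  rw [hΦ] at h3
  refine h3.congr_fun ?_ |> id
  intro y
  rw [hco, POIS_mFourier, smul_eq_mul]

/-- entire functions invariant under real translations are constant -/
theorem const_of_real {I : (Fin n → ℂ) → ℂ} (hd : Differentiable ℂ I)
    (hr : ∀ (w : Fin n → ℂ) (r : Fin n → ℝ), I (fun i => w i + (r i : ℂ)) = I w)
    (w w' : Fin n → ℂ) : I w = I w' := by
  refine is_const_of_fderiv_eq_zero (𝕜 := ℂ) hd (fun w => ?_) w w'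
  have hreal : ∀ r : Fin n → ℝ, fderiv ℂ I w (fun i => (r i : ℂ)) = 0 := by
    intro r
    have h1 : HasFDerivAt I (fderiv ℂ I w) w := (hd w).hasFDerivAt
    let γ : ℂ → Fin n → ℂ := fun t => w + t • fun i => (r i : ℂ)
    have hγ : HasDerivAt γ (fun i => (r i : ℂ)) 0 := by
      have := ((hasDerivAt_id (0 : ℂ)).smul_const (fun i => (r i : ℂ))).const_add w
      simpa [γ] using this
    have h0 : γ 0 = w := by simp [γ]
    have h2 : HasDerivAt (fun t => I (γ t)) (fderiv ℂ I w (fun i => (r i : ℂ))) 0 := by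
      have h1' : HasFDerivAt I (fderiv ℂ I w) (γ 0) := by rw [h0]; exact h1
      exact h1'.comp_hasDerivAt (0 : ℂ) hγ
    have h3 := h2.comp_ofReal (z := 0)
    have h4 : (fun t : ℝ => I (γ (t : ℂ))) = fun _ => I w := by
      funext t
      have := hr w (t • r)
      rw [← this]
      congr 1
      funext i
      simp [γ]
    have h3' : HasDerivAt (fun t : ℝ => I (γ (t : ℂ))) (fderiv ℂ I w (fun i => (r i : ℂ))) 0 := by
      simpa using h3
    rw [h4] at h3'
    exact h3'.unique (hasDerivAt_const _ _)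
  refine ContinuousLinearMap.ext fun z => ?_
  have hz : z = (fun i => ((z i).re : ℂ)) + Complex.I • fun i => ((z i).im : ℂ) := by
    funext i
    simp only [Pi.add_apply, Pi.smul_apply, smul_eq_mul]
    rw [mul_comm]
    exact (Complex.re_add_im (z i)).symm
  rw [hz, map_add, map_smul, hreal, hreal]
  simp

/-- products of summable functions -/
theorem pi_summable_int {g : ℤ → ℝ} (hg : ∀ n, 0 ≤ g n) (hs : Summable g) :
    Summable (fun v : Fin n → ℤ => ∏ i, g (v i)) := by
  classical
  refine summable_of_sum_le (c := (∑' n, g n) ^ n)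
    (fun v => Finset.prod_nonneg fun i _ => hg _) fun s => ?_
  let N : ℕ := s.sup (fun v => Finset.univ.sup fun i => (v i).natAbs)
  calc ∑ v ∈ s, ∏ i, g (v i) ≤
      ∑ v ∈ Fintype.piFinset (fun _ : Fin n => Finset.Icc (-(N : ℤ)) N), ∏ i, g (v i) := by
        refine Finset.sum_le_sum_of_subset_of_nonneg ?_
          (fun v _ _ => Finset.prod_nonneg fun i _ => hg _)
        intro v hv
        rw [Fintype.mem_piFinset]
        intro i
        rw [Finset.mem_Icc]
        have h1 : (v i).natAbs ≤ Finset.univ.sup fun i => (v i).natAbs :=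
          Finset.le_sup (f := fun i => (v i).natAbs) (Finset.mem_univ i)
        have h2 : (Finset.univ.sup fun i => (v i).natAbs) ≤ N :=
          Finset.le_sup (f := fun v : Fin n → ℤ => Finset.univ.sup fun i => (v i).natAbs) hv
        omega
    _ = ∏ _i : Fin n, ∑ j ∈ Finset.Icc (-(N : ℤ)) N, g j := by
        rw [Finset.prod_univ_sum]
    _ ≤ ∏ _i : Fin n, ∑' n, g n := by
        refine Finset.prod_le_prod (fun i _ => Finset.sum_nonneg fun j _ => hg j) (fun i _ => ?_)
        exact hs.sum_le_tsum _ (fun j _ => hg j)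
    _ = (∑' n, g n) ^ n := by simp

end

end Pool.Agent.W2helper33.RL
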