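import Pool.Agent.Y813.RL.Mir
import Pool.Agent.Y813.RL.Comp

set_option autoImplicit false

/-!
# Walls on which a form vanishes: the action of the group
-/

namespace Pool.Agent.W2helper33.RL

open Set Topology Pool.Agent.Y813.RL
open Pool.Agent.Y813.Refl (form quadric act gramM coneM)

noncomputable section

variable {G : Matrix (Fin 20) (Fin 20) ℤ}

/-- multiplication by a scalar preserves the quadric -/
theorem smul_quadric {ι : Type} [Fintype ι] {B : Matrix ι ι ℤ} {Z : ι → ℂ} (hZ : Z ∈ quadric B)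
    {a : ℂ} (ha : a ≠ 0) : (fun i => a * Z i) ∈ quadric B := by
  have hZ' : bf B Z Z = 0 ∧ 0 < (bf B Z (fun i => (starRingEnd ℂ) (Z i))).re := hZ
  show bf B (fun i => a * Z i) (fun i => a * Z i) = 0 ∧
    0 < (bf B (fun i => a * Z i) (fun i => (starRingEnd ℂ) (a * Z i))).re
  have f1 : (fun i => a * Z i) = a • Z := by funext i; simp
  have f2 : (fun i => (starRingEnd ℂ) (a * Z i)) =
      (starRingEnd ℂ a) • fun i => (starRingEnd ℂ) (Z i) := by
    funext i; simp
  rw [f2, f1, bf_smul_left, bf_smul_right, bf_smul_left, bf_smul_right, hZ'.1]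
  refine ⟨by simp, ?_⟩
  rw [← mul_assoc, Complex.mul_conj, Complex.re_ofReal_mul]
  exact mul_pos (Complex.normSq_pos.2 ha) hZ'.2

theorem tau_ne {W : TP} (hW : W ∈ Hd G) : W.2.1 ≠ 0 := by
  intro h0
  have h1 : 0 < W.2.1.im := hW.1
  rw [h0] at h1
  simp at h1

theorem im_neg_inv {τ : ℂ} (hτ : 0 < τ.im) : 0 < (-1 / τ).im := by
  rw [neg_div, Complex.neg_im, one_div, Complex.inv_im]
  have : 0 < Complex.normSq τ := Complex.normSq_pos.2 (by
    intro h0
    rw [h0] at hτ
    simp at hτ)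
  have := div_pos hτ this
  linarith [neg_div (Complex.normSq τ) τ.im]

/-- the action of `S` preserves the tube domain -/
theorem S_mem {W : TP} (hW : W ∈ Hd G) :
    ((W.1 - bf G W.2.2 W.2.2 / (2 * W.2.1), (-1 / W.2.1, fun i => W.2.2 i / W.2.1)) : TP) ∈ Hd G := by
  have hτ := tau_ne hW
  set W' : TP := (W.1 - bf G W.2.2 W.2.2 / (2 * W.2.1), (-1 / W.2.1, fun i => W.2.2 i / W.2.1))
    with hW'
  have him : 0 < W'.2.1.im := im_neg_inv hW.1
  refine ⟨him, ?_⟩
  rw [← ZW_mem G him]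
  have hform : ∀ x y : Fin 4 ⊕ Fin 20 → ℤ, form (gramM G) (act (blk PS) x) (act (blk PS) y) =
      form (gramM G) x y := by
    intro x y
    show bf _ (act (blk PS) x) (act (blk PS) y) = bf _ x y
    rw [mk_eta x, mk_eta y, act_PS, act_PS, bf_mk, bf_mk]
    ring
  have h1 : act (blk PS) (ZW G W) ∈ quadric (gramM G) :=
    (act_quadric hform _).2 ((ZW_mem G hW.1).2 hW.2)
  have h2 := smul_quadric h1 (inv_ne_zero hτ)
  have h3 : (fun i => (W.2.1)⁻¹ * act (blk PS) (ZW G W) i) = ZW G W' := by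
    rw [ZW, act_PS, smul_mk, ZW, hW']
    have e1 : bf G (fun i => W.2.2 i / W.2.1) (fun i => W.2.2 i / W.2.1) =
        bf G W.2.2 W.2.2 / W.2.1 ^ 2 := by
      have : (fun i => W.2.2 i / W.2.1) = (W.2.1)⁻¹ • W.2.2 := by
        funext i; simp [div_eq_inv_mul]
      rw [this, bf_smul_left, bf_smul_right]
      ring
    simp only
    rw [e1]
    congr 1
    · field_simp
    · field_simp
      ring
    · field_simp
      ring
    · field_simp
    · funext i
      field_simp
  rwa [h3] at h2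

theorem swap_mem (h : PosSymm G) {W : TP} (hW : W ∈ Hd G) : ((W.2.1, (W.1, W.2.2)) : TP) ∈ Hd G := by
  rw [mem_Hd] at hW ⊢
  have h1 := h.nonneg (imv W.2.2)
  have h2 : 0 < 2 * W.1.im * W.2.1.im := lt_of_le_of_lt h1 hW.2
  refine ⟨?_, ?_⟩
  · by_contra hc
    push Not at hc
    have : 2 * W.1.im * W.2.1.im ≤ 0 :=
      mul_nonpos_of_nonpos_of_nonneg (by linarith [show W.1.im ≤ 0 from hc]) hW.1.le
    linarith
  · have h3 := hW.2
    simp only
    linarith

theorem T_mem {W : TP} (hW : W ∈ Hd G) (k : ℤ) :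
    ((W.1, (W.2.1 + k, W.2.2)) : TP) ∈ Hd G := by
  rw [mem_Hd] at hW ⊢
  simpa using hW

theorem Q_mem {W : TP} (hs : G.IsSymm) (hW : W ∈ Hd G) (v : Fin 20 → ℤ) {N : ℤ}
    (hN : bf G v v = 2 * N) :
    ((W.1 + bf G (fun i => (v i : ℂ)) W.2.2 + N * W.2.1,
      (W.2.1, fun i => W.2.2 i + W.2.1 * v i)) : TP) ∈ Hd G := by
  rw [mem_Hd] at hW ⊢
  refine ⟨hW.1, ?_⟩
  have e1 : imv (fun i => W.2.2 i + W.2.1 * (v i : ℂ)) =
      imv W.2.2 + W.2.1.im • fun i => (v i : ℝ) := by
    funext i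
    simp [imv, Complex.mul_im]
  have e2 : (W.1 + bf G (fun i => (v i : ℂ)) W.2.2 + N * W.2.1).im =
      W.1.im + bf G (fun i => (v i : ℝ)) (imv W.2.2) + N * W.2.1.im := by
    have h1 : rev (fun i => ((v i : ℤ) : ℂ)) = fun i => (v i : ℝ) := by
      funext i; simp [rev]
    have h2 : imv (fun i => ((v i : ℤ) : ℂ)) = 0 := by
      funext i; simp [imv]
    rw [Complex.add_im, Complex.add_im, bf_im, h1, h2, bf_zero_left]
    simp [Complex.mul_im]
  simp only
  rw [e1, e2, bf_add_left, bf_add_right, bf_add_right, bf_smul_left, bf_smul_right, bf_smul_left,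
    bf_smul_right, bf_comm hs (imv W.2.2) (fun i => (v i : ℝ)), bf_intCast (R := ℝ) G v v, hN]
  have := hW.2
  push_cast
  nlinarith

/-- the form vanishes on the wall -/
def Van (G : Matrix (Fin 20) (Fin 20) ℤ) (F : TP → ℂ) (a b l n : ℤ) (μ : Fin 20 → ℤ) : Prop :=
  ∀ W ∈ Hd G, WEq G a b l n μ W → F W = 0

/-- primitive vectors of the dual lattice -/
def Prim (a b l n : ℤ) (μ : Fin 20 → ℤ) : Prop :=
  ∀ d : ℤ, d ∣ a → d ∣ b → d ∣ l → d ∣ n → (∀ i, d ∣ μ i) → IsUnit d

/-- a primitive wall of invariant `ν` on which the form vanishes -/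
structure Act (G : Matrix (Fin 20) (Fin 20) ℤ) (F : TP → ℂ) (ν : ℝ) (a b l n : ℤ)
    (μ : Fin 20 → ℤ) : Prop where
  prim : Prim a b l n μ
  van : Van G F a b l n μ
  nu : nu G a b l n μ = ν

variable {k : ℤ} {F : TP → ℂ} {ν : ℝ} {a b l n : ℤ} {μ : Fin 20 → ℤ}

theorem bd_neg (μ : Fin 20 → ℤ) : bd G (-μ) (-μ) = bd G μ μ := by
  unfold bd
  have : (fun j => (((-μ) j : ℤ) : ℝ)) = -fun j => (μ j : ℝ) := by
    funext j; simp
  rw [this, Matrix.mulVec_neg]
  simp

theorem Act.neg (H : Act G F ν a b l n μ) : Act G F ν (-a) (-b) (-l) (-n) (-μ) where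
  prim := by
    intro d h1 h2 h3 h4 h5
    exact H.prim d ((dvd_neg).1 h1) ((dvd_neg).1 h2) ((dvd_neg).1 h3) ((dvd_neg).1 h4)
      fun i => by simpa using h5 i
  van := by
    intro W hW he
    apply H.van W hW
    unfold WEq at *
    have : dt (-μ) W.2.2 = -dt μ W.2.2 := by simp [dt]
    rw [this] at he
    push_cast at *
    linear_combination -he
  nu := by
    rw [← H.nu]
    unfold Y813.RL.nu
    rw [bd_neg]
    push_cast
    ring

theorem Act.S (hF : TubeForm G k F) (H : Act G F ν a b l n μ) : Act G F ν (-l) (-n) a b μ where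
  prim := by
    intro d h1 h2 h3 h4 h5
    exact H.prim d h3 h4 ((dvd_neg).1 h1) ((dvd_neg).1 h2) h5
  van := by
    intro W hW he
    have hτ := tau_ne hW
    have h1 := H.van _ (S_mem hW) (by
      unfold WEq at *
      have e1 : bf G (fun i => W.2.2 i / W.2.1) (fun i => W.2.2 i / W.2.1) =
          bf G W.2.2 W.2.2 / W.2.1 ^ 2 := by
        have : (fun i => W.2.2 i / W.2.1) = (W.2.1)⁻¹ • W.2.2 := by
          funext i; simp [div_eq_inv_mul]
        rw [this, bf_smul_left, bf_smul_right]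
        ring
      have e2 : dt μ (fun i => W.2.2 i / W.2.1) = dt μ W.2.2 / W.2.1 := by
        have : (fun i => W.2.2 i / W.2.1) = (W.2.1)⁻¹ • W.2.2 := by
          funext i; simp [div_eq_inv_mul]
        rw [this, dt_smul]
        ring
      simp only
      rw [e1, e2]
      push_cast at he
      field_simp
      linear_combination (2 * W.2.1) * he)
    rw [hF.S W hW] at h1
    exact (mul_eq_zero.1 h1).resolve_left (zpow_ne_zero _ hτ)
  nu := by
    rw [← H.nu]
    unfold Y813.RL.nu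
    push_cast
    ring

theorem Act.swap (h : PosSymm G) (hF : TubeForm G k F) (H : Act G F ν a b l n μ) :
    Act G F ν a b n l μ where
  prim := by
    intro d h1 h2 h3 h4 h5
    exact H.prim d h1 h2 h4 h3 h5
  van := by
    intro W hW he
    have h1 := H.van _ (swap_mem h hW) (by
      unfold WEq at *
      simp only
      linear_combination he)
    rwa [hF.swap W hW] at h1
  nu := by
    rw [← H.nu]
    unfold Y813.RL.nu
    ring

theorem Act.T (hF : TubeForm G k F) (H : Act G F ν a b l n μ) (j : ℤ) :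
    Act G F ν a (b + j * n) (l - j * a) n μ where
  prim := by
    intro d h1 h2 h3 h4 h5
    refine H.prim d h1 ?_ ?_ h4 h5
    · exact (dvd_add_left (h4.mul_left j)).1 h2
    · exact (dvd_sub_left (h1.mul_left j)).1 h3
  van := by
    intro W hW he
    have h1 := H.van _ (T_mem hW j) (by
      unfold WEq at *
      simp only
      push_cast at he
      linear_combination he)
    have h2 := hF.tr W hW 0 j 0
    simp only [Int.cast_zero, add_zero, Pi.zero_apply] at h2
    rwa [← h2]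
  nu := by
    rw [← H.nu]
    unfold Y813.RL.nu
    push_cast
    ring

theorem lam_add (μ ρ : Fin 20 → ℤ) : lam G (μ + ρ) = lam G μ + lam G ρ := by
  unfold lam
  rw [← Matrix.mulVec_add]
  congr 1
  funext i
  simp

theorem lam_smul (c : ℤ) (μ : Fin 20 → ℤ) : lam G (c • μ) = (c : ℝ) • lam G μ := by
  unfold lam
  rw [← Matrix.mulVec_smul]
  congr 1
  funext i
  simp

theorem bd_add_mulVec (h : PosSymm G) (μ v : Fin 20 → ℤ) (l : ℤ) :
    bd G (μ + l • G.mulVec v) (μ + l • G.mulVec v) =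
      bd G μ μ + 2 * l * dt μ (fun i => (v i : ℝ)) + l ^ 2 * ((bf G v v : ℤ) : ℝ) := by
  rw [← bf_lam_lam h, ← bf_lam_lam h, lam_add, lam_smul, lam_mulVec h, bf_add_left, bf_add_right,
    bf_add_right, bf_smul_left, bf_smul_right, bf_smul_left, bf_smul_right, bf_intCast,
    bf_comm h.symm (fun i => (v i : ℝ)) (lam G μ), bf_lam h μ (fun i => (v i : ℝ))]
  ring

theorem dt_intCast {R : Type*} [CommRing R] (μ v : Fin 20 → ℤ) :
    dt μ (fun i => (v i : R)) = ((dt μ v : ℤ) : R) := by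
  simp [dt]

theorem dt_mulVec (hs : G.IsSymm) (v : Fin 20 → ℤ) (z : Fin 20 → ℂ) :
    dt (G.mulVec v) z = bf G (fun i => (v i : ℂ)) z := by
  simp only [dt, bf, Matrix.mulVec, dotProduct, Int.cast_sum, Int.cast_mul, Finset.sum_mul]
  rw [Finset.sum_comm]
  refine Finset.sum_congr rfl fun i _ => Finset.sum_congr rfl fun j _ => ?_
  rw [hs.apply]
  ring

theorem Act.Q (h : PosSymm G) (hF : TubeForm G k F) (H : Act G F ν a b l n μ) (v : Fin 20 → ℤ)
    {N : ℤ} (hN : bf G v v = 2 * N) :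
    Act G F ν a b l (n + dt μ v + l * N) (μ + l • G.mulVec v) where
  prim := by
    intro d h1 h2 h3 h4 h5
    have h6 : ∀ i, d ∣ μ i := by
      intro i
      have := h5 i
      simp only [Pi.add_apply, Pi.smul_apply, smul_eq_mul] at this
      exact (dvd_add_left (h3.mul_right _)).1 this
    refine H.prim d h1 h2 h3 ?_ h6
    have h7 : d ∣ dt μ v := Finset.dvd_sum fun i _ => by
      simp only [Int.cast_id]
      exact (h6 i).mul_right _
    have h8 := (dvd_add_left (h3.mul_right N)).1 h4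
    exact (dvd_add_left h7).1 h8
  van := by
    intro W hW he
    have h1 := H.van _ (Q_mem h.symm hW v hN) (by
      unfold WEq at *
      have e1 : (fun i => W.2.2 i + W.2.1 * (v i : ℂ)) = W.2.2 + W.2.1 • fun i => (v i : ℂ) := by
        funext i; simp
      simp only
      rw [e1, bf_add_left, bf_add_right, bf_add_right, bf_smul_left, bf_smul_right, bf_smul_left,
        bf_smul_right, bf_intCast, hN, dt_add, dt_smul, dt_intCast,
        bf_comm h.symm W.2.2 (fun i => (v i : ℂ))]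
      rw [dt_add_left, dt_smul_left, dt_mulVec h.symm] at he
      push_cast at he ⊢
      linear_combination he)
    have h2 := hF.ei W hW e1K (0, (0, v)) e1_e1 (by
      have hb : bf G (0 : Fin 20 → ℤ) v = 0 := bf_zero_left _ _
      simp [kf, e1K, hb])
    have h3 : W + kf G (cK e1K) W • cK (0, (0, v)) -
        (kf G (cK (0, (0, v))) W + ((kf G (0, (0, v)) (0, (0, v)) : ℤ) : ℂ) / 2 *
          kf G (cK e1K) W) • cK e1K =
        (W.1 + bf G (fun i => (v i : ℂ)) W.2.2 + N * W.2.1,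
          (W.2.1, fun i => W.2.2 i + W.2.1 * v i)) := by
      have hb0 : ∀ w : Fin 20 → ℂ, bf G (fun _ => 0) w = 0 := bf_zero_left G
      refine Prod.ext ?_ (Prod.ext ?_ ?_)
      · simp [kf, cK, e1K, hb0, hN]
        ring
      · simp [kf, cK, e1K, hb0]
      · funext i
        simp [kf, cK, e1K, hb0]
    rw [h3] at h2
    rwa [← h2]
  nu := by
    rw [← H.nu]
    unfold Y813.RL.nu
    rw [bd_add_mulVec h, hN, dt_intCast]
    push_cast
    ring

/-- **Eichler criterion.** -/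
theorem Act.norm (h : PosSymm G) (he : ∀ i, Even (G i i)) (hF : TubeForm G k F)
    (H : Act G F ν a b l n μ) (hl : l ≠ 0) : ∃ (n' : ℤ) (μ' : Fin 20 → ℤ),
      Act G F ν 0 0 1 n' μ' := by
  classical
  have hex : ∃ L : ℕ, 0 < L ∧ ∃ (a b n : ℤ) (μ : Fin 20 → ℤ), Act G F ν a b L n μ := by
    refine ⟨l.natAbs, Int.natAbs_pos.2 hl, ?_⟩
    rcases Int.natAbs_eq l with h1 | h1
    · exact ⟨a, b, n, μ, by rw [← h1]; exact H⟩
    · refine ⟨-a, -b, -n, -μ, ?_⟩
      have : ((l.natAbs : ℕ) : ℤ) = -l := by omega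
      rw [this]
      exact H.neg
  set L := Nat.find hex with hL
  obtain ⟨hL0, a₀, b₀, n₀, μ₀, H₀⟩ := Nat.find_spec hex
  rw [← hL] at hL0 H₀
  have hL0' : (0 : ℤ) < L := by exact_mod_cast hL0
  have hmin : ∀ (a b l n : ℤ) (μ : Fin 20 → ℤ), Act G F ν a b l n μ → 0 < l → (L : ℤ) ≤ l := by
    intro a b l n μ H hl
    have h1 := Nat.find_min' hex (m := l.toNat) ⟨by omega, a, b, n, μ, by
      rw [Int.toNat_of_nonneg hl.le]; exact H⟩
    omega
  have hA : ∀ (a b n : ℤ) (μ : Fin 20 → ℤ), Act G F ν a b L n μ →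
      ∃ (n' : ℤ) (μ' : Fin 20 → ℤ), Act G F ν 0 b L n' μ' := by
    intro a b n μ H
    have h1 := (H.S hF).T hF (-(a / L))
    have e1 : a - -(a / L) * -(L : ℤ) = a % L := by
      have := Int.emod_add_mul_ediv a L
      linarith
    rw [e1] at h1
    have h0 := Int.emod_nonneg a hL0'.ne'
    have h2 := Int.emod_lt_of_pos a hL0'
    rcases h0.eq_or_lt with h3 | h3
    · rw [← h3] at h1
      have h4 := (h1.S hF).neg
      simp only [neg_zero, neg_neg] at h4
      exact ⟨_, _, h4⟩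
    · have := hmin _ _ _ _ _ h1 h3
      omega
  have hB : ∀ (b n : ℤ) (μ : Fin 20 → ℤ), Act G F ν 0 b L n μ →
      (L : ℤ) ∣ b ∧ Act G F ν 0 0 L n μ := by
    intro b n μ H
    have h1 := (H.swap h hF).T hF (-(b / L))
    have e1 : b + -(b / L) * (L : ℤ) = b % L := by
      have := Int.emod_add_mul_ediv b L
      linarith
    rw [e1, mul_zero, sub_zero] at h1
    have h0 := Int.emod_nonneg b hL0'.ne'
    have h2 := Int.emod_lt_of_pos b hL0'
    rcases h0.eq_or_lt with h3 | h3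
    · rw [← h3] at h1
      exact ⟨Int.dvd_of_emod_eq_zero h3.symm, h1.swap h hF⟩
    · have := hmin _ _ _ _ _ ((h1.S hF).swap h hF) h3
      omega
  obtain ⟨n₁, μ₁, H₁⟩ := hA _ _ _ _ H₀
  have H₂ := (hB _ _ _ H₁).2
  have hdiv : ∀ v : Fin 20 → ℤ, (L : ℤ) ∣ n₁ + dt μ₁ v := by
    intro v
    obtain ⟨N, hN⟩ := even_bf h.symm he v
    have h1 := (H₂.Q h hF v hN).T hF 1
    rw [mul_zero, sub_zero] at h1
    have h2 := (hB _ _ _ h1).1
    rw [zero_add, one_mul] at h2
    exact (dvd_add_left (dvd_mul_right _ _)).1 h2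
  have hn₁ : (L : ℤ) ∣ n₁ := by
    have := hdiv 0
    have e : dt μ₁ (0 : Fin 20 → ℤ) = 0 := by simp [dt]
    rwa [e, add_zero] at this
  have hμ₁ : ∀ i, (L : ℤ) ∣ μ₁ i := by
    intro i
    have := hdiv (Pi.single i 1)
    rw [dt_single, mul_one, Int.cast_id] at this
    exact (dvd_add_right hn₁).1 this
  have hu := H₂.prim L (dvd_zero _) (dvd_zero _) dvd_rfl hn₁ hμ₁
  have hL1 : (L : ℤ) = 1 := by
    rcases Int.isUnit_iff.1 hu with h1 | h1
    · exact h1
    · omega
  rw [hL1] at H₂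
  exact ⟨n₁, μ₁, H₂⟩

end

end Pool.Agent.W2helper33.RL
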