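import Pool.Agent.W2helper33.RL.Top

set_option autoImplicit false

/-!
# Existence of walls in the divisor, and growth in the case of index one
-/

namespace Pool.Agent.W2helper33.RL

open Set Topology Pool.Agent.Y813.RL Filter
open Pool.Agent.Y683.RL (HP fco)

noncomputable section

variable {G : Matrix (Fin 20) (Fin 20) ℤ}

theorem lam_smulG (h : PosSymm G) {m : ℕ} (hm : 0 < m) (μ : Fin 20 → ℤ) :
    lam ((m : ℤ) • G) μ = (1 / (m : ℝ)) • lam G μ := by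
  have hA := posSymm_smul h hm
  have hmR : (m : ℝ) ≠ 0 := by exact_mod_cast hm.ne'
  have h1 : ∀ y : Fin 20 → ℝ, bf ((m : ℤ) • G) (lam ((m : ℤ) • G) μ - (1 / (m : ℝ)) • lam G μ) y = 0 := by
    intro y
    rw [bf_sub_left, bf_lam hA, bf_smul_left, bf_smulR, bf_lam h]
    field_simp
    ring
  exact sub_eq_zero.1 (hA.eq_zero (h1 _))

theorem bd_smulG (h : PosSymm G) {m : ℕ} (hm : 0 < m) (μ : Fin 20 → ℤ) :
    bd ((m : ℤ) • G) μ μ = bd G μ μ / m := by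
  have hmR : (m : ℝ) ≠ 0 := by exact_mod_cast hm.ne'
  rw [← bf_lam_lam (posSymm_smul h hm), lam_smulG h hm, bf_smul_left, bf_smul_right, bf_smulR,
    bf_lam_lam h]
  field_simp

/-- growth of the theta components from the vanishing of coefficients -/
theorem vf_growth (hT : JobTheta1) {A : Matrix (Fin 20) (Fin 20) ℤ} {c : ℂ → (Fin 20 → ℂ) → ℂ}
    (hA : PosSymm A) (hJ : JacobiZero A c) (μ : Fin 20 → ℤ) {κ : ℝ}
    (h0 : ∀ n : ℤ, (n : ℝ) < bd A μ μ / 2 - κ → fco 0 (fc c μ) n = 0) :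
    ∃ C : ℝ, ∀ τ : ℂ, 1 / 2 ≤ τ.im → ‖vf A c μ τ‖ ≤ C * Real.exp (2 * Real.pi * κ * τ.im) := by
  obtain ⟨t1, t2, t3, t4, t5⟩ := hT A c hA hJ
  obtain ⟨C, hC, hb⟩ := per_growth (f := fc c μ) ⟨t1 μ, fun t ht => t2 μ t ht⟩ h0
  refine ⟨C, fun τ hτ => ?_⟩
  unfold vf
  rw [norm_mul, norm_ee]
  have e1 : (-(τ * (bd A μ μ : ℂ) / 2)).im = -(τ.im * bd A μ μ / 2) := by
    have : τ * (bd A μ μ : ℂ) / 2 = (((bd A μ μ / 2 : ℝ)) : ℂ) * τ := by push_cast; ring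
    rw [Complex.neg_im, this, Complex.im_ofReal_mul]
    ring
  rw [e1]
  calc Real.exp (-(2 * Real.pi * -(τ.im * bd A μ μ / 2))) * ‖fc c μ τ‖ ≤
      Real.exp (-(2 * Real.pi * -(τ.im * bd A μ μ / 2))) *
        (C * Real.exp (-(2 * Real.pi * (bd A μ μ / 2 - κ) * τ.im))) :=
        mul_le_mul_of_nonneg_left (hb τ hτ) (Real.exp_pos _).le
    _ = C * Real.exp (2 * Real.pi * κ * τ.im) := by
        rw [mul_left_comm, ← Real.exp_add]
        congr 2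
        ring

theorem norm_ee_real (r : ℝ) : ‖ee (r : ℂ)‖ = 1 := by
  rw [norm_ee]
  simp

theorem vf_T (hT : JobTheta1) {A : Matrix (Fin 20) (Fin 20) ℤ} {c : ℂ → (Fin 20 → ℂ) → ℂ}
    (hA : PosSymm A) (hJ : JacobiZero A c) (μ : Fin 20 → ℤ) {τ : ℂ} (hτ : 0 < τ.im) :
    vf A c μ (τ + 1) = ee (-((bd A μ μ : ℂ) / 2)) * vf A c μ τ := by
  obtain ⟨t1, t2, t3, t4, t5⟩ := hT A c hA hJ
  unfold vf
  rw [t2 μ τ hτ, ← mul_assoc, ← ee_add]
  congr 2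
  ring

theorem vf_diff (hT : JobTheta1) {A : Matrix (Fin 20) (Fin 20) ℤ} {c : ℂ → (Fin 20 → ℂ) → ℂ}
    (hA : PosSymm A) (hJ : JacobiZero A c) (μ : Fin 20 → ℤ) :
    DifferentiableOn ℂ (vf A c μ) {τ | 0 < τ.im} := by
  obtain ⟨t1, t2, t3, t4, t5⟩ := hT A c hA hJ
  have h1 : Differentiable ℂ ee := by unfold ee; fun_prop
  have h2 : DifferentiableOn ℂ (fun τ : ℂ => ee (-(τ * (bd A μ μ : ℂ) / 2))) {τ | 0 < τ.im} := by
    refine (h1.comp (f := fun τ : ℂ => -(τ * (bd A μ μ : ℂ) / 2)) ?_).differentiableOn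
    fun_prop
  exact h2.mul (t1 μ)

theorem c_zero_of_vf (hT : JobTheta1) {A : Matrix (Fin 20) (Fin 20) ℤ}
    {c : ℂ → (Fin 20 → ℂ) → ℂ} (hA : PosSymm A) (hJ : JacobiZero A c)
    (h0 : ∀ μ (τ : ℂ), 0 < τ.im → vf A c μ τ = 0) (τ : ℂ) (z : Fin 20 → ℂ) (hτ : 0 < τ.im) :
    c τ z = 0 := by
  obtain ⟨t1, t2, t3, t4, t5⟩ := hT A c hA hJ
  have h1 := t5 τ z hτ
  have h2 : ∀ μ, fc c μ τ = 0 := by
    intro μ
    have := h0 μ τ hτ
    unfold vf at this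
    exact (mul_eq_zero.1 this).resolve_left (ee_ne_zero _)
  simp only [h2, zero_mul] at h1
  exact h1.unique hasSum_zero

/-- **vanishing of Jacobi forms with small exponents** -/
theorem vanish_of_growth (hT1 : JobTheta1) (hT2 : JobTheta2) (hFF : JobFinFour) (hVV : JobVV)
    {A : Matrix (Fin 20) (Fin 20) ℤ} {c : ℂ → (Fin 20 → ℂ) → ℂ}
    (hA : PosSymm A) (hJ : JacobiZero A c) {κ : ℝ} (hκ : κ < 10 / 12)
    (hg : ∀ μ, ∃ C : ℝ, ∀ τ : ℂ, 1 / 2 ≤ τ.im →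
      ‖vf A c μ τ‖ ≤ C * Real.exp (2 * Real.pi * κ * τ.im))
    (τ : ℂ) (z : Fin 20 → ℂ) (hτ : 0 < τ.im) : c τ z = 0 := by
  classical
  obtain ⟨hdet, R, hR, hcard, hun⟩ := hFF A hA
  have hdetR : (0 : ℝ) < ((A.det : ℤ) : ℝ) := by exact_mod_cast hdet
  choose Cf hCf using hg
  have key := hVV {ρ // ρ ∈ R} 10 (-κ) (fun τ ρ => vf A c ρ.1 τ) (by push_cast; linarith)
    (by
      rw [differentiableOn_pi]
      intro ρ
      exact vf_diff hT1 hA hJ ρ.1)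
    (by
      intro τ hτ
      refine Finset.sum_congr rfl fun ρ _ => ?_
      rw [vf_T hT1 hA hJ _ hτ, norm_mul]
      have : -((bd A ρ.1 ρ.1 : ℂ) / 2) = ((-(bd A ρ.1 ρ.1 / 2) : ℝ) : ℂ) := by push_cast; ring
      rw [this, norm_ee_real, one_mul])
    (by
      intro τ hτ
      have h1 := hun fun ρ => vf A c ρ (-1 / τ)
      have h2 : ∀ μ, ‖vf A c μ τ‖ ^ 2 = ‖τ‖ ^ 20 / (A.det : ℝ) *
          ‖∑ ρ ∈ R, ee (-(bd A μ ρ : ℂ)) * vf A c ρ (-1 / τ)‖ ^ 2 := by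
        intro μ
        rw [hT2 A c R hA hJ hR μ τ hτ, norm_mul, norm_div, norm_neg, norm_pow, Complex.norm_real,
          Real.norm_eq_abs, abs_of_nonneg (Real.sqrt_nonneg _), mul_pow, div_pow, ← pow_mul,
          Real.sq_sqrt hdetR.le]
      have h3 : ∑ ρ : {ρ // ρ ∈ R}, ‖vf A c ρ.1 τ‖ ^ 2 = ∑ μ ∈ R, ‖vf A c μ τ‖ ^ 2 :=
        Finset.sum_coe_sort R fun μ => ‖vf A c μ τ‖ ^ 2
      have h4 : ∑ ρ : {ρ // ρ ∈ R}, ‖vf A c ρ.1 (-1 / τ)‖ ^ 2 =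
          ∑ μ ∈ R, ‖vf A c μ (-1 / τ)‖ ^ 2 :=
        Finset.sum_coe_sort R fun μ => ‖vf A c μ (-1 / τ)‖ ^ 2
      rw [h3, h4]
      have h5 : ∑ μ ∈ R, ‖vf A c μ τ‖ ^ 2 = ‖τ‖ ^ 20 / (A.det : ℝ) *
          ∑ μ ∈ R, ‖∑ ρ ∈ R, ee (-(bd A μ ρ : ℂ)) * vf A c ρ (-1 / τ)‖ ^ 2 := by
        rw [Finset.mul_sum]
        exact Finset.sum_congr rfl fun μ _ => h2 μ
      rw [h5, h1]
      have hne : ((A.det : ℤ) : ℝ) ≠ 0 := hdetR.ne'
      generalize ((A.det : ℤ) : ℝ) = D at *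
      generalize ∑ ρ ∈ R, ‖vf A c ρ (-1 / τ)‖ ^ 2 = S
      have e20 : 2 * 10 = 20 := rfl
      rw [e20]
      field_simp)
    (by
      refine ⟨∑ ρ : {ρ // ρ ∈ R}, |Cf ρ.1|, fun τ hτ ρ => ?_⟩
      refine (hCf ρ.1 τ hτ).trans ?_
      have e1 : -(2 * Real.pi * -κ * τ.im) = 2 * Real.pi * κ * τ.im := by ring
      rw [e1]
      refine mul_le_mul_of_nonneg_right ?_ (Real.exp_pos _).le
      exact (le_abs_self _).trans (Finset.single_le_sum (f := fun ρ : {ρ // ρ ∈ R} => |Cf ρ.1|)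
        (fun _ _ => abs_nonneg _) (Finset.mem_univ ρ)))
  refine c_zero_of_vf hT1 hA hJ ?_ τ z hτ
  intro μ τ hτ
  obtain ⟨ρ, ⟨hρ, v, hv⟩, _⟩ := hR μ
  obtain ⟨t1, t2, t3, t4, t5⟩ := hT1 A c hA hJ
  rw [hv, t4 ρ v τ hτ]
  exact key τ hτ ⟨ρ, hρ⟩

variable {k : ℤ} {F : TP → ℂ} {φ : ℕ → ℂ × (Fin 20 → ℂ) → ℂ} {C m : ℕ}

/-- coefficients vanish when there are no high zeros on a slice near the centre -/
theorem coef_of_slice (hKD : JobKD) (hBC : JobBC) (hT : JobTheta1) (h : PosSymm G)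
    (H : CM G k F φ C m) {c : ℂ → (Fin 20 → ℂ) → ℂ} (hJ : JacobiZero ((m : ℤ) • G) c)
    (hc : ∀ τ z, 0 < τ.im → φ (C + m) (τ, z) = φ C (τ, z) * c τ z) {δ : ℝ} (hδ : 0 < δ)
    (μ : Fin 20 → ℤ) (n : ℤ) {ε : ℝ} (hε : 0 < ε)
    (hn : (n : ℝ) + m * δ + m / 2 * ε ≤ bd ((m : ℤ) • G) μ μ / 2)
    (hz : ∀ (X : Fin 20 → ℤ) (N : ℕ), 0 < N → Off G (xr X N) → Gp G δ (xr X N) →
      bf G ((1 / (m : ℝ)) • lam G μ + xr X N) ((1 / (m : ℝ)) • lam G μ + xr X N) < ε →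
      ∀ y : Fin 20 → ℝ, ∃ T₀ : ℝ, ∀ τ : ℂ, T₀ ≤ τ.im → ∀ ω : ℂ,
        (δ + bf G (xr X N) (xr X N) / 2) * τ.im < ω.im → F (ω, pt (xr X N) y τ) ≠ 0) :
    fco 0 (fc c μ) n = 0 := by
  have hm := H.hm
  have hmR : (0 : ℝ) < m := by exact_mod_cast hm
  have hO : IsOpen {x : Fin 20 → ℝ |
      bf G ((1 / (m : ℝ)) • lam G μ + x) ((1 / (m : ℝ)) • lam G μ + x) < ε} := by
    have : Continuous fun x : Fin 20 → ℝ =>
        bf G ((1 / (m : ℝ)) • lam G μ + x) ((1 / (m : ℝ)) • lam G μ + x) :=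
      bf_contR G (by fun_prop) (by fun_prop)
    exact isOpen_lt this continuous_const
  obtain ⟨X, N, hN, hxe, hx, hg⟩ := exists_good h hδ hO ⟨-((1 / (m : ℝ)) • lam G μ), by
    show bf G (_ + -_) (_ + -_) < ε
    rw [add_neg_cancel, bf_zero_left]
    exact hε⟩
  set x := xr X N with hxdef
  have hxe' : bf G ((1 / (m : ℝ)) • lam G μ + x) ((1 / (m : ℝ)) • lam G μ + x) < ε := hxe
  refine coef_zero hT (posSymm_smul h hm) hJ (X := X) hN (κ := m * (δ + bf G x x / 2)) ?_ μ n ?_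
  · intro y
    obtain ⟨T₀, hT₀⟩ := hz X N hN hx hg hxe y
    exact c_slice hKD hBC h H hc X hN hx y hδ hT₀
  · rw [bd_smulG h hm] at hn
    have e1 : bf G ((1 / (m : ℝ)) • lam G μ + x) ((1 / (m : ℝ)) • lam G μ + x) =
        bd G μ μ / m ^ 2 + 2 / m * dt μ x + bf G x x := by
      rw [bf_add_left, bf_add_right, bf_add_right, bf_smul_left, bf_smul_right, bf_smul_left,
        bf_smul_right, bf_comm h.symm x (lam G μ), bf_lam_lam h, bf_lam h]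
      field_simp
      ring
    rw [e1] at hxe'
    have e2 : (m : ℝ) / 2 * (bd G μ μ / m ^ 2 + 2 / m * dt μ x + bf G x x) < m / 2 * ε :=
      mul_lt_mul_of_pos_left hxe' (by positivity)
    have e3 : (m : ℝ) / 2 * (bd G μ μ / m ^ 2 + 2 / m * dt μ x + bf G x x) =
        bd G μ μ / m / 2 + dt μ x + m * (bf G x x / 2) := by
      field_simp
    rw [e3] at e2
    show (n : ℝ) + dt μ x + m * (δ + bf G x x / 2) < 0
    have e4 : (m : ℝ) * (δ + bf G x x / 2) = m * δ + m * (bf G x x / 2) := by ring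
    rw [e4]
    linarith

/-- **existence of a wall in the divisor** -/
theorem exists_act (hKD : JobKD) (hBC : JobBC) (hT1 : JobTheta1) (hT2 : JobTheta2)
    (hFF : JobFinFour) (hVV : JobVV) (h : PosSymm G)
    (H : CM G k F φ C m) {c : ℂ → (Fin 20 → ℂ) → ℂ} (hJ : JacobiZero ((m : ℤ) • G) c)
    (hc : ∀ τ z, 0 < τ.im → φ (C + m) (τ, z) = φ C (τ, z) * c τ z) :
    ∃ (ν : ℝ) (a b l n : ℤ) (μ : Fin 20 → ℤ), l ≠ 0 ∧ 0 < ν ∧ ν ≤ 1 ∧ Act G F ν a b l n μ := by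
  by_contra hcon
  have hm := H.hm
  have hmR : (0 : ℝ) < m := by exact_mod_cast hm
  set δ : ℝ := 1 / (4 * m) with hδdef
  have hδ : 0 < δ := by positivity
  have hmδ : (m : ℝ) * δ = 1 / 4 := by
    rw [hδdef]
    field_simp
  have hcoef : ∀ (μ : Fin 20 → ℤ) (n : ℤ), (n : ℝ) < bd ((m : ℤ) • G) μ μ / 2 - 1 / 4 →
      fco 0 (fc c μ) n = 0 := by
    intro μ n hn
    have hε : 0 < 2 / (m : ℝ) * (bd ((m : ℤ) • G) μ μ / 2 - 1 / 4 - n) :=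
      mul_pos (by positivity) (by linarith)
    refine coef_of_slice hKD hBC hT1 h H hJ hc hδ μ n hε ?_ ?_
    · rw [hmδ]
      have : (m : ℝ) / 2 * (2 / m * (bd ((m : ℤ) • G) μ μ / 2 - 1 / 4 - n)) =
          bd ((m : ℤ) • G) μ μ / 2 - 1 / 4 - n := by
        field_simp
      rw [this]
      linarith
    · intro X N hN hx hg _ y
      have hsq : Filter.Tendsto (fun T' : ℝ => T' ^ 2 * δ) Filter.atTop Filter.atTop :=
        (Filter.tendsto_pow_atTop (by norm_num)).atTop_mul_const hδ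
      obtain ⟨T₀, hT₀⟩ := Filter.eventually_atTop.1 ((hsq.eventually
        (Filter.eventually_gt_atTop 1)).and (Filter.eventually_gt_atTop 0))
      refine ⟨T₀, fun τ hτ ω hω hF0 => ?_⟩
      obtain ⟨h1, h2⟩ := hT₀ τ.im hτ
      obtain ⟨ν, b, l, n', μ', g1, g2, g3, g4, _⟩ := zero_act h H.tf hδ hx hg h2 h1 (by
        rw [ht_pt h2, le_sub_iff_add_le, le_div_iff₀ h2]
        exact hω.le) hF0
      exact hcon ⟨ν, 0, b, l, n', μ', g1, g2, g3, g4⟩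
  obtain ⟨p, hp, hne⟩ := H.hne2
  apply hne
  have h0 := vanish_of_growth hT1 hT2 hFF hVV (posSymm_smul h hm) hJ (κ := 1 / 4) (by norm_num)
    (fun μ => vf_growth hT1 (posSymm_smul h hm) hJ μ fun n hn => hcoef μ n hn) p.1 p.2 hp
  have h1 : φ (C + m) (p.1, p.2) = φ C (p.1, p.2) * c p.1 p.2 := hc p.1 p.2 hp
  rw [h0, mul_zero] at h1
  exact h1

end

end Pool.Agent.W2helper33.RL
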