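import Pool.Agent.W2helper33.RL.Gauss

set_option autoImplicit false

/-!
# RL: the inversion formula for the theta components (JobTheta2)
-/

namespace Pool.Agent.W2helper33.RL

open Set Topology Pool.Agent.Y813.RL Filter MeasureTheory Pool.Agent.H239R2.Flat

noncomputable section

variable {A : Matrix (Fin 20) (Fin 20) ℤ} {c : ℂ → (Fin 20 → ℂ) → ℂ}

/-- the basic Gaussian -/
def gs (A : Matrix (Fin 20) (Fin 20) ℤ) (σ : ℂ) (μ : Fin 20 → ℤ) (y : Fin 20 → ℝ) : ℂ :=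
  ee (σ / 2 * ((bf A y y : ℝ) : ℂ) - ((dt μ y : ℝ) : ℂ))

/-- the shifted Gaussian -/
def gr (A : Matrix (Fin 20) (Fin 20) ℤ) (σ : ℂ) (μ ρ : Fin 20 → ℤ) (y : Fin 20 → ℝ) : ℂ :=
  ee (-(bd A μ ρ : ℂ)) * gs A σ μ (y - lam A ρ)

theorem gr_integral (h : PosSymm A) {σ : ℂ} (hσ : 0 < σ.im) (μ ρ : Fin 20 → ℤ) :
    Integrable (gr A σ μ ρ) ∧ ∫ y, gr A σ μ ρ y = ee (-(bd A μ ρ : ℂ)) *
      (-((-1 / σ) ^ 10) / (Real.sqrt (A.det : ℝ) : ℂ) * ee (-((bd A μ μ : ℂ) / (2 * σ)))) := by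
  obtain ⟨h1, h2⟩ := gauss h hσ μ
  constructor
  · exact (h1.comp_sub_right (lam A ρ)).const_mul _
  · unfold gr
    rw [integral_const_mul]
    congr 1
    rw [← h2]
    exact integral_sub_right_eq_self (gs A σ μ) (lam A ρ)

theorem bij_reps (h : PosSymm A) {R : Finset (Fin 20 → ℤ)} (hR : IsReps A R) :
    Function.Bijective (fun q : R × (Fin 20 → ℤ) => (q.1 : Fin 20 → ℤ) + A.mulVec q.2) := by
  constructor
  · rintro ⟨ρ, v⟩ ⟨ρ', v'⟩ he
    simp only at he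
    obtain ⟨ρ0, _, huniq⟩ := hR ((ρ : Fin 20 → ℤ) + A.mulVec v)
    have e1 : (ρ : Fin 20 → ℤ) = ρ0 := huniq _ ⟨ρ.2, v, rfl⟩
    have e2 : (ρ' : Fin 20 → ℤ) = ρ0 := huniq _ ⟨ρ'.2, v', he⟩
    have e3 : ρ = ρ' := Subtype.ext (e1.trans e2.symm)
    subst e3
    have e4 : A.mulVec v = A.mulVec v' := add_left_cancel he
    have e5 : lam A (A.mulVec v) = lam A (A.mulVec v') := by rw [e4]
    rw [lam_mulVec h, lam_mulVec h] at e5
    have e6 : v = v' := by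
      funext i
      exact_mod_cast congrFun e5 i
    rw [e6]
  · intro μ
    obtain ⟨ρ, ⟨hρ, v, hv⟩, _⟩ := hR μ
    exact ⟨(⟨ρ, hρ⟩, v), hv.symm⟩

/-- the pointwise identity of the terms -/
theorem term_eq (h : PosSymm A) (hJ : JacobiZero A c) (μ ρ v : Fin 20 → ℤ) {σ : ℂ}
    (hσ : 0 < σ.im) (y : Fin 20 → ℝ) :
    fc c (ρ + A.mulVec v) σ * ee (dt (ρ + A.mulVec v) (fun i => -σ * (y i : ℂ))) *
      ee (σ / 2 * bf A (fun i => (y i : ℂ)) (fun i => (y i : ℂ))) *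
      ee (-(dt μ (fun i => (y i : ℂ)))) =
    vf A c ρ σ * gr A σ μ ρ (fun i => y i - v i) := by
  have h1 : vf A c (ρ + A.mulVec v) σ = vf A c ρ σ := fc_translate h hJ ρ v hσ
  rw [← h1]
  set ν := ρ + A.mulVec v with hν
  have hlam : lam A ν = lam A ρ + fun i => (v i : ℝ) := by
    rw [hν, lam_add, lam_mulVec h]
  unfold vf gr gs
  have e1 : dt ν (fun i => -σ * (y i : ℂ)) = -σ * ((dt ν y : ℝ) : ℂ) := by
    have : (fun i => -σ * (y i : ℂ)) = (-σ) • fun i => (y i : ℂ) := by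
      funext i; simp
    rw [this, dt_smul, dt_cast]
  have e2 : bf A (fun i => (y i : ℂ)) (fun i => (y i : ℂ)) = ((bf A y y : ℝ) : ℂ) :=
    bf_ofReal A y y
  have e3 : dt μ (fun i => (y i : ℂ)) = ((dt μ y : ℝ) : ℂ) := dt_cast μ y
  have e4 : (fun i => y i - (v i : ℝ)) - lam A ρ = y - lam A ν := by
    rw [hlam]
    funext i
    simp
    ring
  have e5 : bf A (y - lam A ν) (y - lam A ν) = bf A y y - 2 * dt ν y + bd A ν ν := by
    rw [bf_sub_left, bf_sub_right, bf_sub_right, bf_lam_lam h, bf_lam h, bf_comm h.symm y (lam A ν),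
      bf_lam h]
    ring
  have e6 : dt μ (y - lam A ν) = dt μ y - bd A μ ρ - ((dt μ v : ℤ) : ℝ) := by
    have : y - lam A ν = y + (-1 : ℝ) • lam A ρ + (-1 : ℝ) • fun i => (v i : ℝ) := by
      rw [hlam]
      funext i
      simp
      ring
    rw [this, dt_add, dt_add, dt_smul, dt_smul, dt_intCast]
    have : dt μ (lam A ρ) = bd A μ ρ := rfl
    rw [this]
    ring
  rw [e1, e2, e3, e4, e5, e6]
  have e7 : ee ((dt μ v : ℤ) : ℂ) = 1 := ee_int _
  calc fc c ν σ * ee (-σ * ((dt ν y : ℝ) : ℂ)) * ee (σ / 2 * ((bf A y y : ℝ) : ℂ)) *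
      ee (-((dt μ y : ℝ) : ℂ)) =
      fc c ν σ * ee (-σ * ((dt ν y : ℝ) : ℂ) + σ / 2 * ((bf A y y : ℝ) : ℂ) +
        -((dt μ y : ℝ) : ℂ)) * ee ((dt μ v : ℤ) : ℂ) := by
        rw [ee_add, ee_add, e7]
        ring
    _ = fc c ν σ * (ee (-(σ * (bd A ν ν : ℂ) / 2)) * ee (-(bd A μ ρ : ℂ)) *
        ee (σ / 2 * ((bf A y y - 2 * dt ν y + bd A ν ν : ℝ) : ℂ) -
          ((dt μ y - bd A μ ρ - ((dt μ v : ℤ) : ℝ) : ℝ) : ℂ))) := by
        rw [mul_assoc, ← ee_add, ← ee_add, ← ee_add]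
        congr 2
        push_cast
        ring
    _ = _ := by ring

theorem theta2 : JobTheta2 := by
  intro A c R h hJ hR μ τ hτ
  set σ : ℂ := -1 / τ with hσd
  have hτ0 : τ ≠ 0 := by
    rintro rfl
    simp at hτ
  have hσ : 0 < σ.im := im_neg_inv hτ
  have hσ0 : σ ≠ 0 := by
    rintro h0
    rw [h0] at hσ
    simp at hσ
  have hτσ : τ = -1 / σ := by
    rw [hσd]
    field_simp
  -- the expansion
  have hexp : ∀ y : Fin 20 → ℝ, HasSum
      (fun q : R × (Fin 20 → ℤ) => vf A c q.1 σ * gr A σ μ q.1 (fun i => y i - q.2 i))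
      (c τ (fun i => (y i : ℂ)) * ee (-(dt μ (fun i => (y i : ℂ))))) := by
    intro y
    have e1 := (fc_hasSum hJ hσ (fun i => -σ * (y i : ℂ))).2
    have e2 := hJ.S τ (fun i => (y i : ℂ)) hτ
    have e3 : (fun i => (y i : ℂ) / τ) = fun i => -σ * (y i : ℂ) := by
      funext i
      rw [hσd]
      field_simp
    rw [e3] at e2
    have e4 : c τ (fun i => (y i : ℂ)) = c σ (fun i => -σ * (y i : ℂ)) *
        ee (σ / 2 * bf A (fun i => (y i : ℂ)) (fun i => (y i : ℂ))) := by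
      rw [e2]
      have : ee (σ / 2 * bf A (fun i => (y i : ℂ)) (fun i => (y i : ℂ))) =
          (ee (bf A (fun i => (y i : ℂ)) (fun i => (y i : ℂ)) / (2 * τ)))⁻¹ := by
        rw [← ee_neg]
        congr 1
        rw [hσd]
        field_simp
      rw [this]
      field_simp [ee_ne_zero]
    rw [e4]
    have e5 := (e1.mul_right (ee (σ / 2 * bf A (fun i => (y i : ℂ)) (fun i => (y i : ℂ))))).mul_right
      (ee (-(dt μ (fun i => (y i : ℂ)))))
    have e6 := (Equiv.ofBijective _ (bij_reps h hR)).hasSum_iff.mpr e5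
    refine e6.congr_fun ?_ |> id
    rintro ⟨ρ, v⟩
    simp only [Function.comp_apply, Equiv.ofBijective_apply]
    exact (term_eq h hJ μ ρ v hσ y).symm
  -- integrate over the cube
  set F : R × (Fin 20 → ℤ) → (Fin 20 → ℝ) → ℂ := fun q y =>
    vf A c q.1 σ * gr A σ μ q.1 (fun i => y i - q.2 i) with hF
  have hGi : ∀ ρ : R, Integrable (fun y => vf A c ρ σ * gr A σ μ ρ y) := fun ρ =>
    (gr_integral h hσ μ ρ).1.const_mul _
  have hFi : ∀ q, Integrable (F q) (volume.restrict (COEF_cube 20)) := by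
    intro q
    exact ((hGi q.1).comp_sub_right (fun i => (q.2 i : ℝ))).restrict
  have hU : ∀ ρ : R, HasSum (fun z : Fin 20 → ℤ => ∫ x in COEF_cube 20, F (ρ, z) x)
      (∫ y, vf A c ρ σ * gr A σ μ ρ y) := fun ρ =>
    COEF_unfold 20 (fun y => vf A c ρ σ * gr A σ μ ρ y) (hGi ρ)
  have hUn : ∀ ρ : R, Summable (fun z : Fin 20 → ℤ => ∫ x in COEF_cube 20, ‖F (ρ, z) x‖) := by
    intro ρ
    have h1 := COEF_unfold 20 (fun y => ((‖vf A c ρ σ * gr A σ μ ρ y‖ : ℝ) : ℂ))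
      ((hGi ρ).norm.ofReal)
    have h2 := h1.summable
    have h3 : ∀ z : Fin 20 → ℤ, ∫ x in COEF_cube 20,
        (fun y => ((‖vf A c ρ σ * gr A σ μ ρ y‖ : ℝ) : ℂ)) (fun i => x i - z i) =
        ((∫ x in COEF_cube 20, ‖F (ρ, z) x‖ : ℝ) : ℂ) := by
      intro z
      exact integral_ofReal
    simp only [h3] at h2
    exact_mod_cast h2
  have hS : Summable (fun q : R × (Fin 20 → ℤ) => ∫ x in COEF_cube 20, ‖F q x‖) := by
    rw [summable_prod_of_nonneg (fun q => integral_nonneg fun x => norm_nonneg _)]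
    exact ⟨hUn, Summable.of_finite⟩
  have hI := hasSum_integral_of_summable_integral_norm hFi hS
  have hI2 : ∫ x in COEF_cube 20, ∑' q, F q x = fc c μ τ := by
    unfold fc
    have h1 := cube_eq (fun y : Fin 20 → ℝ => c τ (fun i => (y i : ℂ)) *
      ee (-(dt μ (fun i => (y i : ℂ))))) (0 : Fin 20 → ℝ)
    rw [zero_add] at h1
    rw [h1]
    apply setIntegral_congr_fun (COEF_cube_meas 20)
    intro y _
    exact (hexp y).tsum_eq
  rw [hI2] at hI
  have hI3 := hI.prod_fiberwise hU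
  have hI4 : fc c μ τ = ∑ ρ : R, ∫ y, vf A c ρ σ * gr A σ μ ρ y := hI3.unique (hasSum_fintype _)
  unfold vf at hI4 ⊢
  rw [hI4]
  simp only [integral_const_mul, (gr_integral h hσ μ _).2]
  rw [Finset.mul_sum, Finset.mul_sum, ← Finset.sum_coe_sort R]
  refine Finset.sum_congr rfl fun ρ _ => ?_
  have e1 : ee (-(τ * (bd A μ μ : ℂ) / 2)) * ee (-((bd A μ μ : ℂ) / (2 * σ))) = 1 := by
    rw [← ee_add, ← ee_zero]
    congr 1
    rw [hσd]
    field_simp
    ring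
  have e2 : (-1 / σ) = τ := hτσ.symm
  rw [e2]
  calc _ = (ee (-(τ * (bd A μ μ : ℂ) / 2)) * ee (-((bd A μ μ : ℂ) / (2 * σ)))) *
      (-(τ ^ 10) / (Real.sqrt (A.det : ℝ) : ℂ) * (ee (-(bd A μ ρ : ℂ)) *
        (ee (-(σ * (bd A ρ ρ : ℂ) / 2)) * fc c ρ σ))) := by ring
    _ = _ := by rw [e1, one_mul]

end

end Pool.Agent.W2helper33.RL
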