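import Pool.Agent.W2helper33.RL.Asm
import Pool.Agent.W2helper33.RL.Theta2
import Pool.Agent.W2helper2.RLFinFour
import Pool.Agent.Y155.RL.VD
import Pool.Agent.Y155.RL.DIV
import Pool.Agent.Y683.RL.Kd
import Pool.Agent.Y683.RL.Fj

set_option autoImplicit false

/-!
# Reflective lattices of signature (2,22): the final theorem
-/

namespace Pool.Agent.W2helper33.RL

open Pool.Agent.Y813.RL

theorem final {G : Matrix (Fin 20) (Fin 20) ℤ} (h : PosSymm G) (he : ∀ i, Even (G i i))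
    {Z₀ : Fin 4 ⊕ Fin 20 → ℂ} (hZ₀ : Z₀ ∈ Pool.Agent.Y813.Refl.quadric (Pool.Agent.Y813.Refl.gramM G))
    (hR : Pool.Agent.Y813.Refl.IsReflectiveLattice (Pool.Agent.Y813.Refl.gramM G)
      (connectedComponentIn (Pool.Agent.Y813.Refl.quadric (Pool.Agent.Y813.Refl.gramM G)) Z₀)) :
    SameGenus G gramEED := by
  obtain ⟨k, F, hF⟩ := tube h he (reflective_component h hZ₀ hR)
  exact main_tube Pool.Agent.Y683.RL.jobKD Pool.Agent.Y683.RL.jobFJ Pool.Agent.Y155.RL.div
    Pool.Agent.Y155.RL.vd Pool.Agent.Y155.RL.bc theta1 theta2 Pool.Agent.W2helper2.RLFinFour.job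
    vv Pool.Agent.W2helper2.RLGenus.job h he hF

end Pool.Agent.W2helper33.RL
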