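import Pool.Agent.W2helper33.RL.Good

set_option autoImplicit false

/-!
# The walls of maximal invariant
-/

namespace Pool.Agent.W2helper33.RL

open Set Topology Pool.Agent.Y813.RL Filter

noncomputable section

variable {G : Matrix (Fin 20) (Fin 20) ℤ}

theorem det_cast : (G.map (Int.cast : ℤ → ℝ)).det = ((G.det : ℤ) : ℝ) := by
  have := (Int.castRingHom ℝ).map_det G
  rw [show ((G.det : ℤ) : ℝ) = (Int.castRingHom ℝ) G.det from rfl, this]
  rfl

theorem det_ne (h : PosSymm G) : G.det ≠ 0 := by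
  intro h0
  have := isUnit_det h
  rw [det_cast, h0] at this
  simp at this

/-- the values of `bd` have bounded denominator -/
theorem bd_int (h : PosSymm G) (μ ρ : Fin 20 → ℤ) : ∃ k : ℤ, (G.det : ℝ) * bd G μ ρ = k := by
  refine ⟨∑ i, μ i * (G.adjugate.mulVec ρ) i, ?_⟩
  unfold bd
  have hu := isUnit_det h
  have h1 : (G.map (Int.cast : ℤ → ℝ))⁻¹ =
      ((G.det : ℝ))⁻¹ • (G.adjugate.map (Int.cast : ℤ → ℝ)) := by
    rw [Matrix.inv_def, det_cast, Ring.inverse_eq_inv']
    congr 1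
    have := (Int.castRingHom ℝ).map_adjugate G
    exact this.symm
  have h2 : (G.det : ℝ) ≠ 0 := by exact_mod_cast det_ne h
  rw [h1, Matrix.smul_mulVec]
  have h3 : (G.adjugate.map (Int.cast : ℤ → ℝ)).mulVec (fun j => (ρ j : ℝ)) =
      fun i => ((G.adjugate.mulVec ρ i : ℤ) : ℝ) := by
    funext i
    simp [Matrix.mulVec, dotProduct]
  rw [h3, Finset.mul_sum, Int.cast_sum]
  refine Finset.sum_congr rfl fun i _ => ?_
  simp only [Pi.smul_apply, smul_eq_mul, Int.cast_mul]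
  generalize ((G.det : ℤ) : ℝ) = D at *
  field_simp

theorem bd_pos (h : PosSymm G) {μ : Fin 20 → ℤ} (hμ : μ ≠ 0) : 0 < bd G μ μ := by
  rw [← bf_lam_lam h]
  apply h.pos
  intro h0
  apply hμ
  funext i
  have := mulVec_lam h μ i
  rw [h0, bf_zero_right] at this
  exact_mod_cast this

/-- lower bound for the norms of dual vectors -/
theorem bd_lower (h : PosSymm G) : ∃ ρ : ℝ, 0 < ρ ∧ ∀ μ : Fin 20 → ℤ, μ ≠ 0 → ρ ≤ bd G μ μ := by
  have hd : (0 : ℝ) < |(G.det : ℝ)| := by
    rw [abs_pos]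
    exact_mod_cast det_ne h
  refine ⟨1 / |(G.det : ℝ)|, by positivity, fun μ hμ => ?_⟩
  obtain ⟨k, hk⟩ := bd_int h μ μ
  have h1 := bd_pos h hμ
  have h2 : |(G.det : ℝ)| * bd G μ μ = ((|k| : ℤ) : ℝ) := by
    rw [Int.cast_abs, ← hk, abs_mul, abs_of_pos h1]
  have h3 : (0 : ℝ) < ((|k| : ℤ) : ℝ) := by rw [← h2]; positivity
  have h4 : (1 : ℝ) ≤ ((|k| : ℤ) : ℝ) := by
    have : (0 : ℤ) < |k| := by exact_mod_cast h3
    exact_mod_cast this
  rw [div_le_iff₀ hd, mul_comm]
  rw [h2]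
  exact h4

/-- the walls of maximal invariant -/
theorem exists_max (h : PosSymm G) (he : ∀ i, Even (G i i)) {k : ℤ} {F : TP → ℂ}
    (hF : TubeForm G k F)
    (hex : ∃ (ν : ℝ) (a b l n : ℤ) (μ : Fin 20 → ℤ), l ≠ 0 ∧ 0 < ν ∧ ν ≤ 1 ∧
      Act G F ν a b l n μ) :
    ∃ (ν₀ : ℝ) (n₀ : ℤ) (μ₀ : Fin 20 → ℤ), 0 < ν₀ ∧ ν₀ ≤ 1 ∧ Act G F ν₀ 0 0 1 n₀ μ₀ ∧
      ∀ (ν : ℝ) (a b l n : ℤ) (μ : Fin 20 → ℤ), l ≠ 0 → 0 < ν → ν ≤ 1 → Act G F ν a b l n μ →
        ν ≤ ν₀ := by
  classical
  set D : ℤ := 2 * |G.det| with hD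
  have hD0 : 0 < D := by
    have := abs_pos.2 (det_ne h)
    omega
  have hDR : (0 : ℝ) < D := by exact_mod_cast hD0
  have hint : ∀ (a b l n : ℤ) (μ : Fin 20 → ℤ), ∃ j : ℤ, (D : ℝ) * nu G a b l n μ = j := by
    intro a b l n μ
    obtain ⟨j, hj⟩ := bd_int h μ μ
    unfold nu
    generalize G.det = d at *
    rcases le_or_gt 0 d with h1 | h1
    · refine ⟨j - D * (a * b) - D * (l * n), ?_⟩
      rw [hD, abs_of_nonneg h1]
      push_cast
      rw [← hj]
      ring
    · refine ⟨-j - D * (a * b) - D * (l * n), ?_⟩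
      rw [hD, abs_of_neg h1]
      push_cast
      rw [← hj]
      ring
  let P : ℤ → Prop := fun j => ∃ (ν : ℝ) (a b l n : ℤ) (μ : Fin 20 → ℤ), l ≠ 0 ∧ 0 < ν ∧ ν ≤ 1 ∧
      Act G F ν a b l n μ ∧ (D : ℝ) * ν = j
  have hP1 : ∃ j, P j := by
    obtain ⟨ν, a, b, l, n, μ, h1, h2, h3, h4⟩ := hex
    obtain ⟨j, hj⟩ := hint a b l n μ
    exact ⟨j, ν, a, b, l, n, μ, h1, h2, h3, h4, by rw [← h4.nu]; exact hj⟩
  have hP2 : ∀ j, P j → j ≤ D := by
    rintro j ⟨ν, a, b, l, n, μ, h1, h2, h3, h4, h5⟩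
    have : (j : ℝ) ≤ D := by
      rw [← h5]
      nlinarith
    exact_mod_cast this
  obtain ⟨j₀, ⟨ν₀, a, b, l, n, μ, h1, h2, h3, h4, h5⟩, hmax⟩ :=
    Int.exists_greatest_of_bdd ⟨D, hP2⟩ hP1
  obtain ⟨n₀, μ₀, h6⟩ := h4.norm h he hF h1
  refine ⟨ν₀, n₀, μ₀, h2, h3, h6, ?_⟩
  intro ν a b l n μ g1 g2 g3 g4
  obtain ⟨j, hj⟩ := hint a b l n μ
  rw [g4.nu] at hj
  have := hmax j ⟨ν, a, b, l, n, μ, g1, g2, g3, g4, hj⟩
  have h7 : (D : ℝ) * ν ≤ D * ν₀ := by
    rw [hj, h5]
    exact_mod_cast this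
  exact le_of_mul_le_mul_left h7 hDR

/-- **the top wall** -/
theorem top_wall (h : PosSymm G) {k : ℤ} {F : TP → ℂ} (hF : TubeForm G k F)
    {ν₀ : ℝ} {n₀ : ℤ} {μ₀ : Fin 20 → ℤ} (hν0 : 0 < ν₀) (hν1 : ν₀ ≤ 1) (H₀ : Act G F ν₀ 0 0 1 n₀ μ₀)
    (hmax : ∀ (ν : ℝ) (a b l n : ℤ) (μ : Fin 20 → ℤ), l ≠ 0 → 0 < ν → ν ≤ 1 →
      Act G F ν a b l n μ → ν ≤ ν₀) {ρ e : ℝ} (hρ : ∀ μ : Fin 20 → ℤ, μ ≠ 0 → ρ ≤ bd G μ μ)
    (he0 : 0 < e) (he1 : 8 * e ≤ ν₀) (he2 : 8 * e ≤ ρ)
    {x y : Fin 20 → ℝ} {τ ω : ℂ} (hx : Off G x) (hg : Gp G (ν₀ - e) x) (hτ : 0 < τ.im)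
    (hT : 1 < τ.im ^ 2 * (ν₀ - e)) (hxe : bf G (lam G μ₀ + x) (lam G μ₀ + x) < e)
    (hht : ν₀ - e ≤ ht G (ω, pt x y τ)) (hz : F (ω, pt x y τ) = 0) :
    ∃ b : ℤ, WEq G 0 b 1 n₀ μ₀ (ω, pt x y τ) := by
  obtain ⟨ν, b, l, n, μ, h1, h2, h3, h4, h5⟩ :=
    zero_act h hF (by linarith) hx hg hτ hT hht hz
  -- choose the sign of l
  have key : ∀ (b l n : ℤ) (μ : Fin 20 → ℤ), 0 < l → Act G F ν 0 b l n μ →
      WEq G 0 b l n μ (ω, pt x y τ) → ∃ b : ℤ, WEq G 0 b 1 n₀ μ₀ (ω, pt x y τ) := by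
    intro b l n μ hl H he
    have g1 := height_pt h hτ he
    rw [H.nu] at g1
    have g2 := hmax ν 0 b l n μ hl.ne' h2 h3 H
    have g3 := h.nonneg (lam G μ + (l : ℝ) • x)
    have hl1 : l = 1 := by
      by_contra hne
      have h6 : (4 : ℝ) ≤ (l : ℝ) ^ 2 := by
        have : (2 : ℤ) ≤ l := by omega
        have h7 : (2 : ℝ) ≤ l := by exact_mod_cast this
        nlinarith
      have h7 : 4 * (ν₀ - e) ≤ (l : ℝ) ^ 2 * ht G (ω, pt x y τ) :=
        mul_le_mul h6 hht (by linarith) (by positivity)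
      linarith
    subst hl1
    norm_num at g1
    have hμ : μ = μ₀ := by
      by_contra hne
      have h6 := hρ (μ - μ₀) (sub_ne_zero.2 hne)
      rw [← bf_lam_lam h] at h6
      have h7 : lam G (μ - μ₀) = (lam G μ + x) - (lam G μ₀ + x) := by
        have h8 := lam_add (G := G) (μ - μ₀) μ₀
        rw [sub_add_cancel] at h8
        rw [h8]
        funext i
        simp
      rw [h7] at h6
      have h8 := bf_young h (lam G μ + x) (lam G μ₀ + x) one_pos
      have h9 : (1 + 1 / (1 : ℝ)) = 2 := by norm_num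
      rw [h9] at h8
      linarith
    subst hμ
    have hn : n = n₀ := by
      have h6 := H₀.nu
      have h7 := H.nu
      unfold nu at h6 h7
      push_cast at h6 h7
      have h8 : ((n - n₀ : ℤ) : ℝ) = ν₀ - ν := by
        push_cast
        linarith
      have h9 : ((n - n₀ : ℤ) : ℝ) < 1 := by rw [h8]; linarith
      have h10 : (-1 : ℝ) < ((n - n₀ : ℤ) : ℝ) := by rw [h8]; linarith
      have h11 : n - n₀ < 1 := by exact_mod_cast h9
      have h12 : -1 < n - n₀ := by exact_mod_cast h10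
      omega
    subst hn
    exact ⟨b, he⟩
  rcases lt_or_gt_of_ne h1 with h6 | h6
  · have H' := h4.neg
    rw [neg_zero] at H'
    exact key _ _ _ _ (by omega) H' (WEq_neg h5)
  · exact key _ _ _ _ h6 h4 h5

/-- **the two leading coefficients are adjacent** -/
theorem m_eq_one (hKD : JobKD) (hVD : JobVD) (h : PosSymm G) (he : ∀ i, Even (G i i))
    {k : ℤ} {F : TP → ℂ} {φ : ℕ → ℂ × (Fin 20 → ℂ) → ℂ} {C m : ℕ} (H : CM G k F φ C m)
    (hex : ∃ (ν : ℝ) (a b l n : ℤ) (μ : Fin 20 → ℤ), l ≠ 0 ∧ 0 < ν ∧ ν ≤ 1 ∧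
      Act G F ν a b l n μ) : m = 1 := by
  by_contra hm1
  have hm : 1 < m := by have := H.hm; omega
  obtain ⟨ν₀, n₀, μ₀, hν0, hν1, H₀, hmax⟩ := exists_max h he H.tf hex
  obtain ⟨ρ, hρ0, hρ⟩ := bd_lower h
  set e := min ρ ν₀ / 8 with hedef
  have he0 : 0 < e := by
    have := lt_min hρ0 hν0
    positivity
  have he1 : 8 * e ≤ ν₀ := by
    have := min_le_right ρ ν₀
    rw [hedef]; linarith
  have he2 : 8 * e ≤ ρ := by
    have := min_le_left ρ ν₀
    rw [hedef]; linarith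
  have hδ : 0 < ν₀ - e := by linarith
  -- a good slice near the centre of the wall
  have hO : IsOpen {x : Fin 20 → ℝ | bf G (lam G μ₀ + x) (lam G μ₀ + x) < e} := by
    have : Continuous fun x : Fin 20 → ℝ => bf G (lam G μ₀ + x) (lam G μ₀ + x) :=
      bf_contR G (by fun_prop) (by fun_prop)
    exact isOpen_lt this continuous_const
  obtain ⟨X, N, hN, hxe, hx, hg⟩ := exists_good h hδ hO ⟨-lam G μ₀, by
    show bf G (lam G μ₀ + -lam G μ₀) (lam G μ₀ + -lam G μ₀) < e
    rw [add_neg_cancel, bf_zero_left]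
    exact he0⟩
  set x := xr X N with hxdef
  have hxe' : bf G (lam G μ₀ + x) (lam G μ₀ + x) < e := hxe
  set q := bf G x x with hq
  have hq0 : 0 ≤ q := h.nonneg _
  set ε₁ := bf G (lam G μ₀ + x) (lam G μ₀ + x) with hε₁
  have hε₁0 : 0 ≤ ε₁ := h.nonneg _
  obtain ⟨K, hK0, hVD'⟩ := hVD m {1} (by simpa using hm) (by simp)
  obtain ⟨A, B, T, hA, hB, hT1, hgb⟩ := gp_slice hKD h H X hN hx 0 hδ
  have hpi := Real.pi_pos
  -- the position of the top wall
  have hslope : -(n₀ : ℝ) - dt μ₀ x = ν₀ - ε₁ / 2 + q / 2 := by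
    have h1 := H₀.nu
    unfold nu at h1
    push_cast at h1
    have h2 : ε₁ = bd G μ₀ μ₀ + 2 * dt μ₀ x + q := by
      rw [hε₁, bf_add_left, bf_add_right, bf_add_right, bf_comm h.symm x (lam G μ₀),
        bf_lam_lam h, bf_lam h]
      ring
    linarith
  -- the contradiction for large T'
  have main : ∀ T' : ℝ, T ≤ T' → 1 < T' ^ 2 * (ν₀ - e) → 1 ≤ Real.pi * e * T' →
      1 ≤ K * (A + B * T') * Real.exp (-(Real.pi * e * T')) := by
    intro T' hT' hT2 hT3
    have hT'0 : 0 < T' := by linarith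
    set τ : ℂ := (T' : ℂ) * Complex.I with hτdef
    have hτim : τ.im = T' := by simp [hτdef]
    have hτ0 : 0 < τ.im := by rw [hτim]; exact hT'0
    set p := pt x 0 τ with hp
    have hpU : p ∈ UP := pt_mem hτ0
    have h0 : φ C p ≠ 0 := leading_ne_zero h H.tf H.fd H.hC H.hne hpU (pt_off hx hτ0)
    set v := (ν₀ - e + q / 2) * T' with hv
    have hb : bh G p < v := by
      rw [hp, bh_pt hτ0, ← hq, hv, hτim]
      nlinarith
    set R := Real.exp (-(2 * Real.pi * v)) with hR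
    have hR0 : 0 < R := Real.exp_pos _
    set R₀ := Real.exp (-(2 * Real.pi * bh G p)) with hR₀
    have hRR : R < R₀ := by
      rw [hR, hR₀, Real.exp_lt_exp]
      nlinarith
    -- the zero
    set ω₀ : ℂ := -(n₀ * τ + dt μ₀ p.2) with hω₀
    have hω₀im : ω₀.im = (ν₀ - ε₁ / 2 + q / 2) * T' := by
      rw [hω₀, Complex.neg_im, Complex.add_im, dt_im, hp, imv_pt, dt_smul, hτim, ← hslope,
        Complex.mul_im]
      simp [hτim]
      ring
    have hvω₀ : v < ω₀.im := by
      rw [hω₀im, hv]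
      have : ε₁ / 2 < e := by linarith
      nlinarith
    have hW₀ : (ω₀, p) ∈ Hd G := ⟨hpU, hb.trans hvω₀⟩
    have hF₀ : F (ω₀, p) = 0 := by
      apply H₀.van _ hW₀
      unfold WEq
      simp only
      have : p.1 = τ := rfl
      rw [hω₀, this]
      push_cast
      ring
    set s₀ := ee ω₀ with hs₀
    have hs₀n : ‖s₀‖ = Real.exp (-(2 * Real.pi * ω₀.im)) := norm_ee _
    have hs₀0 : 0 < ‖s₀‖ := by rw [hs₀n]; exact Real.exp_pos _
    have hs₀ne : s₀ ≠ 0 := ee_ne_zero _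
    set u : ℂ := s₀ / ‖s₀‖ with hu
    have hs₀C : ((‖s₀‖ : ℝ) : ℂ) ≠ 0 := by exact_mod_cast hs₀0.ne'
    have hRC : ((R : ℝ) : ℂ) ≠ 0 := by exact_mod_cast hR0.ne'
    have hune : u ≠ 0 := div_ne_zero hs₀ne hs₀C
    have hun : ‖u‖ = 1 := by
      rw [hu, norm_div, Complex.norm_real, norm_norm, div_self hs₀0.ne']
    set a : ℂ := ((‖s₀‖ / R : ℝ) : ℂ) with ha
    have han : ‖a‖ = ‖s₀‖ / R := by
      rw [ha, Complex.norm_real, Real.norm_eq_abs, abs_of_pos (by positivity)]
    have haexp : ‖a‖ ≤ Real.exp (-(Real.pi * e * T')) := by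
      rw [han, hs₀n, hR, div_eq_mul_inv, ← Real.exp_neg, ← Real.exp_add, Real.exp_le_exp, hω₀im,
        hv]
      have : ε₁ / 2 ≤ e / 2 := by linarith
      have h1 : 0 ≤ (e / 2 - ε₁ / 2) * T' := mul_nonneg (by linarith) hT'0.le
      nlinarith
    have ha0 : 0 < ‖a‖ := by rw [han]; positivity
    have ha2 : ‖a‖ ≤ 1 / 2 := by
      refine haexp.trans ?_
      calc Real.exp (-(Real.pi * e * T')) ≤ Real.exp (-1) := Real.exp_le_exp.2 (by linarith)
        _ ≤ 1 / 2 := by
          rw [Real.exp_neg, one_div]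
          apply inv_anti₀ (by norm_num)
          have := Real.add_one_le_exp (1 : ℝ)
          linarith
    -- the rescaled functions
    let sc : ℂ → ℂ := fun s => (R : ℂ) * u * s
    have hscn : ∀ s, ‖sc s‖ = R * ‖s‖ := by
      intro s
      simp only [sc]
      rw [norm_mul, norm_mul, hun, Complex.norm_real, Real.norm_eq_abs, abs_of_pos hR0]
      ring
    have hbig : ∀ s ∈ Metric.ball (0 : ℂ) (R₀ / R), sc s ∈ Metric.ball (0 : ℂ) R₀ := by
      intro s hs
      rw [Metric.mem_ball, dist_zero_right] at hs ⊢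
      rw [hscn]
      rw [lt_div_iff₀ hR0] at hs
      linarith
    have hsub : Metric.closedBall (0 : ℂ) 1 ⊆ Metric.ball (0 : ℂ) (R₀ / R) :=
      Metric.closedBall_subset_ball ((one_lt_div hR0).2 hRR)
    have hscd : Differentiable ℂ sc := by
      simp only [sc]
      fun_prop
    have hgd : DifferentiableOn ℂ (fun s => gp φ C m p (sc s)) (Metric.ball (0 : ℂ) (R₀ / R)) :=
      (H.gp_diff hpU).comp hscd.differentiableOn hbig
    have hhd : DifferentiableOn ℂ (fun s => ((R : ℂ) * u) ^ m * (Hs φ C m p (sc s) / φ C p))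
        (Metric.ball (0 : ℂ) (R₀ / R)) := by
      have h1 : DifferentiableOn ℂ (fun s => Hs φ C m p (sc s)) (Metric.ball (0 : ℂ) (R₀ / R)) :=
        (H.Hs_diff hpU).comp hscd.differentiableOn hbig
      exact (h1.div_const _).const_mul _
    have key := hVD' (fun s => gp φ C m p (sc s))
      (fun s => ((R : ℂ) * u) ^ m * (Hs φ C m p (sc s) / φ C p)) a (A + B * T') ha0 ha2
      ((hgd.analyticOnNhd Metric.isOpen_ball).mono hsub)
      ((hhd.analyticOnNhd Metric.isOpen_ball).mono hsub) (by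
        intro s _
        simp only [gp, sc]
        rw [mul_pow]
        ring) (by
        intro s hs
        rw [mem_closedBall_zero_iff] at hs
        have := hgb τ (by rw [hτim]; exact hT') (sc s) (by
          rw [hscn, hτim, ← hv]
          calc R * ‖s‖ ≤ R * 1 := mul_le_mul_of_nonneg_left hs hR0.le
            _ = R := mul_one R)
        rwa [hτim] at this) (by
        intro s hs hgs
        refine ⟨1, by simp, ?_⟩
        rw [mul_one]
        rw [mem_closedBall_zero_iff] at hs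
        have hs0 : s ≠ 0 := by
          rintro rfl
          have hm0 : m ≠ 0 := by omega
          simp [gp, sc, hm0] at hgs
        have hsc0 : sc s ≠ 0 := mul_ne_zero (mul_ne_zero hRC hune) hs0
        obtain ⟨ω, hω, him⟩ := exists_ee hsc0
        have hvω : v ≤ ω.im := by
          rw [him, le_div_iff₀ (by positivity)]
          have h1 : ‖sc s‖ ≤ R := by
            rw [hscn]
            calc R * ‖s‖ ≤ R * 1 := mul_le_mul_of_nonneg_left hs hR0.le
              _ = R := mul_one R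
          have := Real.log_le_log (norm_pos_iff.2 hsc0) h1
          rw [hR, Real.log_exp] at this
          linarith
        rw [← hω, H.gp_eq hpU h0 (hb.trans_le hvω)] at hgs
        have hFz : F (ω, p) = 0 := by
          rcases div_eq_zero_iff.1 hgs with h1 | h1
          · rcases mul_eq_zero.1 h1 with h2 | h2
            · exact h2
            · exact absurd h2 (ee_ne_zero _)
          · exact absurd h1 h0
        have hht : ν₀ - e ≤ ht G (ω, p) := by
          rw [hp, ht_pt hτ0, ← hq, hτim, le_sub_iff_add_le, le_div_iff₀ hT'0]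
          exact hvω
        obtain ⟨b, hbw⟩ := top_wall h H.tf hν0 hν1 H₀ hmax hρ he0 he1 he2 hx hg hτ0
          (by rw [hτim]; exact hT2) hxe' hht hFz
        have hωeq : ω = ω₀ + ((-b : ℤ) : ℂ) := by
          unfold WEq at hbw
          simp only at hbw
          have : p.1 = τ := rfl
          have e1 : (pt x 0 τ).1 = τ := rfl
          rw [e1] at hbw
          rw [hω₀]
          push_cast at hbw ⊢
          linear_combination hbw
        have hsc : sc s = s₀ := by
          rw [← hω, hωeq, ee_add, ee_int, mul_one]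
        have h2 : (R : ℂ) * u * s = s₀ := hsc
        have h3 : s₀ = ((‖s₀‖ : ℝ) : ℂ) * u := by
          rw [hu]
          field_simp
        rw [h3] at h2
        rw [ha]
        push_cast
        rw [eq_div_iff hRC]
        apply mul_right_cancel₀ hune
        linear_combination h2) (by
        refine ⟨a, ?_, ?_⟩
        · rw [mem_closedBall_zero_iff]
          linarith
        · have hsc : sc a = s₀ := by
            simp only [sc]
            rw [ha, hu]
            push_cast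
            field_simp
          rw [hsc, hs₀, H.gp_eq hpU h0 (hb.trans hvω₀), hF₀]
          simp)
    refine key.trans ?_
    have h1 : 0 ≤ K * (A + B * T') := by positivity
    exact mul_le_mul_of_nonneg_left haexp h1
  -- conclusion
  set c := Real.pi * e with hc
  have hc0 : 0 < c := by positivity
  have hlim : Filter.Tendsto (fun T' : ℝ => K * (A + 2 * B / c) * Real.exp (-(c / 2) * T'))
      Filter.atTop (𝓝 (K * (A + 2 * B / c) * 0)) := by
    refine Filter.Tendsto.const_mul _ ?_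
    refine Real.tendsto_exp_atBot.comp ?_
    exact Filter.Tendsto.const_mul_atTop_of_neg (by linarith) Filter.tendsto_id
  rw [mul_zero] at hlim
  have hsq : Filter.Tendsto (fun T' : ℝ => T' ^ 2 * (ν₀ - e)) Filter.atTop Filter.atTop :=
    (Filter.tendsto_pow_atTop (by norm_num)).atTop_mul_const hδ
  have hlin : Filter.Tendsto (fun T' : ℝ => c * T') Filter.atTop Filter.atTop :=
    Filter.Tendsto.const_mul_atTop hc0 Filter.tendsto_id
  obtain ⟨T', h1, h2, h3, h4⟩ := ((hlim.eventually (gt_mem_nhds one_pos)).and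
    ((hsq.eventually (Filter.eventually_gt_atTop 1)).and
    ((hlin.eventually (Filter.eventually_ge_atTop 1)).and
    (Filter.eventually_ge_atTop T)))).exists
  have h5 := main T' h4 h2 h3
  have hT'0 : 0 ≤ T' := by linarith
  have h6 : A + B * T' ≤ (A + 2 * B / c) * Real.exp (c / 2 * T') := by
    have g1 : c / 2 * T' ≤ Real.exp (c / 2 * T') :=
      (le_add_of_nonneg_right zero_le_one).trans (Real.add_one_le_exp _)
    have g2 : (1 : ℝ) ≤ Real.exp (c / 2 * T') := Real.one_le_exp (by positivity)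
    have g3 : B * T' ≤ 2 * B / c * Real.exp (c / 2 * T') := by
      have : B * T' = 2 * B / c * (c / 2 * T') := by field_simp
      rw [this]
      exact mul_le_mul_of_nonneg_left g1 (by positivity)
    have g4 : A ≤ A * Real.exp (c / 2 * T') := by
      calc A = A * 1 := (mul_one A).symm
        _ ≤ _ := mul_le_mul_of_nonneg_left g2 hA.le
    linarith
  have h7 : K * (A + B * T') * Real.exp (-(c * T')) ≤
      K * (A + 2 * B / c) * Real.exp (-(c / 2) * T') := by
    calc K * (A + B * T') * Real.exp (-(c * T')) ≤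
        K * ((A + 2 * B / c) * Real.exp (c / 2 * T')) * Real.exp (-(c * T')) := by gcongr
      _ = K * (A + 2 * B / c) * Real.exp (-(c / 2) * T') := by
        rw [mul_assoc K, mul_assoc (A + 2 * B / c), ← Real.exp_add, mul_assoc K]
        congr 3
        ring
  linarith

end

end Pool.Agent.W2helper33.RL
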