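import Pool.Agent.W2helper33.RL.Theta1
import Pool.Agent.W2helper33.RL.Top

set_option autoImplicit false

/-!
# The Gaussian integral for a positive definite form
-/

namespace Pool.Agent.W2helper33.RL

open Set Topology Pool.Agent.Y813.RL Filter MeasureTheory

noncomputable section

variable {A : Matrix (Fin 20) (Fin 20) ℤ}

open scoped MatrixOrder Matrix.Norms.L2Operator in
/-- square root of the form -/
theorem exists_sqrt (h : PosSymm A) : ∃ B : Matrix (Fin 20) (Fin 20) ℝ,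
    A.map (Int.cast : ℤ → ℝ) = B.transpose * B ∧ B.det ≠ 0 := by
  have hp : (A.map (Int.cast : ℤ → ℝ)).PosSemidef := by
    refine Matrix.PosSemidef.of_dotProduct_mulVec_nonneg ?_ ?_
    · ext i j
      simp only [Matrix.conjTranspose_apply, Matrix.map_apply, star_trivial]
      have := congrFun (congrFun h.symm i) j
      simp only [Matrix.transpose_apply] at this
      rw [this]
    · intro x
      have := h.nonneg x
      rw [bf_eq_sum] at this
      simpa [dotProduct] using this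
  obtain ⟨B, hB⟩ := CStarAlgebra.nonneg_iff_eq_star_mul_self.mp hp.nonneg
  refine ⟨B, ?_, ?_⟩
  · rw [hB, Matrix.star_eq_conjTranspose, Matrix.conjTranspose_eq_transpose_of_trivial]
  · intro h0
    have h1 := isUnit_det h
    rw [hB, Matrix.det_mul, h0, mul_zero] at h1
    simp at h1

theorem gauss (h : PosSymm A) {σ : ℂ} (hσ : 0 < σ.im) (μ : Fin 20 → ℤ) :
    Integrable (fun y : Fin 20 → ℝ => ee (σ / 2 * ((bf A y y : ℝ) : ℂ) - ((dt μ y : ℝ) : ℂ))) ∧
    ∫ y : Fin 20 → ℝ, ee (σ / 2 * ((bf A y y : ℝ) : ℂ) - ((dt μ y : ℝ) : ℂ)) =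
      -((-1 / σ) ^ 10) / (Real.sqrt (A.det : ℝ) : ℂ) * ee (-((bd A μ μ : ℂ) / (2 * σ))) := by
  have hpi := Real.pi_pos
  have hσ0 : σ ≠ 0 := by
    rintro rfl
    simp at hσ
  obtain ⟨B, hB, hdet⟩ := exists_sqrt h
  set C : Matrix (Fin 20) (Fin 20) ℝ := B⁻¹.transpose with hC
  set m : Fin 20 → ℝ := C.mulVec (fun j => (μ j : ℝ)) with hm
  have hBu : IsUnit B.det := isUnit_iff_ne_zero.mpr hdet
  have hbf : ∀ y : Fin 20 → ℝ, bf A y y = ∑ i, (B.mulVec y i) ^ 2 := by
    intro y
    rw [bf_eq_sum, hB]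
    have : (∑ i, y i * ((B.transpose * B).mulVec y) i) = y ⬝ᵥ ((B.transpose * B).mulVec y) := rfl
    rw [this, ← Matrix.mulVec_mulVec, Matrix.dotProduct_mulVec, Matrix.vecMul_transpose]
    simp [dotProduct, pow_two]
  have hdt : ∀ y : Fin 20 → ℝ, dt μ y = ∑ i, m i * B.mulVec y i := by
    intro y
    have : (∑ i, m i * B.mulVec y i) = m ⬝ᵥ (B.mulVec y) := rfl
    rw [this, hm, hC, Matrix.mulVec_transpose, ← Matrix.dotProduct_mulVec, Matrix.mulVec_mulVec,
      Matrix.nonsing_inv_mul _ hBu, Matrix.one_mulVec]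
    rfl
  have hmm : ∑ i, m i ^ 2 = bd A μ μ := by
    have e1 : bd A μ μ = (fun j => (μ j : ℝ)) ⬝ᵥ
        ((A.map (Int.cast : ℤ → ℝ))⁻¹.mulVec (fun j => (μ j : ℝ))) := rfl
    rw [e1, hB, Matrix.mul_inv_rev, ← Matrix.transpose_nonsing_inv, ← Matrix.mulVec_mulVec,
      Matrix.dotProduct_mulVec]
    have e2 : Matrix.vecMul (fun j => (μ j : ℝ)) B⁻¹ = m := by
      rw [hm, hC, Matrix.mulVec_transpose]
    rw [e2]
    have e3 : B⁻¹.transpose.mulVec (fun j => (μ j : ℝ)) = m := rfl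
    rw [e3]
    simp [dotProduct, pow_two]
  have hdetA : Real.sqrt (A.det : ℝ) = |B.det| := by
    rw [← det_cast, hB, Matrix.det_mul, Matrix.det_transpose, ← pow_two, Real.sqrt_sq_eq_abs]
  -- the spherical integral
  set b : ℂ := -(Real.pi * Complex.I * σ) with hb
  have hbre : 0 < b.re := by
    have : b.re = Real.pi * σ.im := by
      rw [hb]
      simp
    rw [this]
    positivity
  set cc : Fin 20 → ℂ := fun i => -(2 * Real.pi * Complex.I * m i) with hcc
  set f : (Fin 20 → ℝ) → ℂ := fun v => Complex.exp (-b * ∑ i, (v i : ℂ) ^ 2 + ∑ i, cc i * v i)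
    with hf
  have hfi : Integrable f := GaussianFourier.integrable_cexp_neg_mul_sum_add hbre cc
  have hfv : ∫ v, f v = (Real.pi / b) ^ ((Fintype.card (Fin 20) : ℂ) / 2) *
      Complex.exp ((∑ i, cc i ^ 2) / (4 * b)) := GaussianFourier.integral_cexp_neg_mul_sum_add hbre cc
  have hcomp : ∀ y : Fin 20 → ℝ,
      ee (σ / 2 * ((bf A y y : ℝ) : ℂ) - ((dt μ y : ℝ) : ℂ)) = f (Matrix.toLin' B y) := by
    intro y
    rw [hf]
    simp only [Matrix.toLin'_apply]
    unfold ee
    congr 1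
    rw [hbf, hdt, hb, hcc]
    push_cast
    have e : ∑ i, -(2 * (Real.pi : ℂ) * Complex.I * (m i : ℂ)) * (B.mulVec y i : ℂ) =
        -(2 * (Real.pi : ℂ) * Complex.I) * ∑ i, (m i : ℂ) * (B.mulVec y i : ℂ) := by
      rw [Finset.mul_sum]
      exact Finset.sum_congr rfl fun i _ => by ring
    rw [e]
    ring
  have hmap := Real.map_matrix_volume_pi_eq_smul_volume_pi (M := B) hdet
  have hmeas : Measurable (Matrix.toLin' B : (Fin 20 → ℝ) → (Fin 20 → ℝ)) :=
    (LinearMap.continuous_of_finiteDimensional _).measurable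
  have hint : Integrable (fun y : Fin 20 → ℝ => f (Matrix.toLin' B y)) := by
    have h1 : Integrable f (Measure.map (Matrix.toLin' B) volume) := by
      rw [hmap]
      exact hfi.smul_measure ENNReal.ofReal_ne_top
    exact h1.comp_measurable hmeas
  refine ⟨by simpa only [hcomp] using hint, ?_⟩
  simp only [hcomp]
  have h2 : ∫ y : Fin 20 → ℝ, f (Matrix.toLin' B y) = ∫ v, f v ∂(Measure.map (Matrix.toLin' B) volume) := by
    rw [integral_map hmeas.aemeasurable]
    rw [hmap]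
    exact (hfi.smul_measure ENNReal.ofReal_ne_top).aestronglyMeasurable
  rw [h2, hmap, integral_smul_measure, ENNReal.toReal_ofReal (abs_nonneg _), hfv, hdetA]
  have h3 : ((Fintype.card (Fin 20) : ℂ) / 2) = ((10 : ℕ) : ℂ) := by
    simp
    norm_num
  have h4 : (Real.pi / b : ℂ) = Complex.I / σ := by
    rw [hb]
    have : (Real.pi : ℂ) ≠ 0 := by exact_mod_cast hpi.ne'
    field_simp
    ring_nf
    rw [Complex.I_sq]
  have h5 : (∑ i, cc i ^ 2) / (4 * b) = 2 * Real.pi * Complex.I * (-((bd A μ μ : ℂ) / (2 * σ))) := by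
    have e : ∑ i, cc i ^ 2 = -(4 * (Real.pi : ℂ) ^ 2) * (bd A μ μ : ℂ) := by
      rw [← hmm]
      push_cast
      rw [Finset.mul_sum]
      refine Finset.sum_congr rfl fun i _ => ?_
      rw [hcc]
      ring_nf
      rw [Complex.I_sq]
      ring
    rw [e, hb]
    have : (Real.pi : ℂ) ≠ 0 := by exact_mod_cast hpi.ne'
    have hI := Complex.I_ne_zero
    field_simp
    ring_nf
    rw [Complex.I_sq]
    ring
  rw [h3, Complex.cpow_natCast, h4, h5, abs_inv]
  have h6 : (Complex.I / σ) ^ 10 = -((-1 / σ) ^ 10) := by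
    rw [div_pow, div_pow, show (10 : ℕ) = 2 * 5 from rfl, pow_mul, Complex.I_sq]
    norm_num
    rw [neg_div, one_div]
  rw [h6]
  unfold ee
  rw [Complex.real_smul]
  push_cast
  rw [div_eq_mul_inv]
  ring

end

end Pool.Agent.W2helper33.RL
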