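import Pool.Agent.W2helper33.RL.Coef

set_option autoImplicit false

/-!
# Generic slices and the walls through zeros
-/

namespace Pool.Agent.W2helper33.RL

open Set Topology Pool.Agent.Y813.RL Filter

noncomputable section

variable {G : Matrix (Fin 20) (Fin 20) ℤ}

/-- different walls have different heights at `x` -/
def Gp (G : Matrix (Fin 20) (Fin 20) ℤ) (δ : ℝ) (x : Fin 20 → ℝ) : Prop :=
  ∀ (l l' : ℤ) (μ μ' : Fin 20 → ℤ), (l : ℝ) ^ 2 * δ ≤ 1 → (l' : ℝ) ^ 2 * δ ≤ 1 →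
    bf G (lam G μ + (l : ℝ) • x) (lam G μ + (l : ℝ) • x) ≤ 2 →
    bf G (lam G μ' + (l' : ℝ) • x) (lam G μ' + (l' : ℝ) • x) ≤ 2 →
    l • μ' - l' • μ ≠ 0 → ∀ k : ℤ, dt (l • μ' - l' • μ) x ≠ k

/-- the elementary inequality -/
theorem bf_young (h : PosSymm G) (u v : Fin 20 → ℝ) {θ : ℝ} (hθ : 0 < θ) :
    bf G (u - v) (u - v) ≤ (1 + θ) * bf G u u + (1 + 1 / θ) * bf G v v := by
  have h1 := h.nonneg (θ • u + v)
  have h2 : bf G (θ • u + v) (θ • u + v) = θ ^ 2 * bf G u u + 2 * θ * bf G u v + bf G v v := by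
    rw [bf_add_left, bf_add_right, bf_add_right, bf_smul_left, bf_smul_right, bf_smul_left,
      bf_smul_right, bf_comm h.symm v u]
    ring
  have h3 : bf G (u - v) (u - v) = bf G u u - 2 * bf G u v + bf G v v := by
    rw [bf_sub_left, bf_sub_right, bf_sub_right, bf_comm h.symm v u]
    ring
  rw [h2] at h1
  rw [h3]
  have h4 : 0 ≤ θ * bf G u u + 2 * bf G u v + 1 / θ * bf G v v := by
    have : θ * bf G u u + 2 * bf G u v + 1 / θ * bf G v v =
        (θ ^ 2 * bf G u u + 2 * θ * bf G u v + bf G v v) / θ := by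
      field_simp
    rw [this]
    positivity
  linarith

theorem bf_young' (h : PosSymm G) (u v : Fin 20 → ℝ) {θ : ℝ} (hθ : 0 < θ) :
    bf G (u + v) (u + v) ≤ (1 + θ) * bf G u u + (1 + 1 / θ) * bf G v v := by
  have := bf_young h u (-v) hθ
  rwa [sub_neg_eq_add, bf_neg_left, bf_neg_right, neg_neg] at this

/-- **good rational points** -/
theorem exists_good (h : PosSymm G) {δ : ℝ} (hδ : 0 < δ) {O : Set (Fin 20 → ℝ)} (hO : IsOpen O)
    (hne : O.Nonempty) : ∃ (X : Fin 20 → ℤ) (N : ℕ), 0 < N ∧ xr X N ∈ O ∧ Off G (xr X N) ∧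
      Gp G δ (xr X N) := by
  obtain ⟨x₀, hx₀⟩ := hne
  set q₀ := bf G x₀ x₀ with hq₀
  have hq₀0 : 0 ≤ q₀ := h.nonneg _
  have hc : Continuous fun x : Fin 20 → ℝ => bf G x x := bf_contR G continuous_id continuous_id
  have hO' : IsOpen (O ∩ {x | bf G x x < q₀ + 1}) :=
    hO.inter (isOpen_lt hc continuous_const)
  obtain ⟨Q₁, hQ₁⟩ := short_bound h 2
  obtain ⟨Q₀, hQ₀⟩ := short_bound h (4 + 2 * (1 / δ * (q₀ + 1)))
  obtain ⟨L, hL⟩ := exists_nat_ge (1 / δ + 1)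
  obtain ⟨X, N, hN, hX, hgen⟩ := gen (Q₁ + 2 * (L * Q₀)) hO' ⟨x₀, hx₀, by
    show bf G x₀ x₀ < q₀ + 1
    linarith⟩
  refine ⟨X, N, hN, hX.1, ?_, ?_⟩
  · intro μ h1 h2 k
    refine hgen μ ?_ ?_ k
    · rintro rfl
      rw [bd_zero] at h1
      exact lt_irrefl _ h1
    · intro i
      have := hQ₁ μ h2 i
      have : (0 : ℤ) ≤ 2 * (L * Q₀) := by positivity
      push_cast
      linarith
  · intro l l' μ μ' h1 h2 h3 h4 h5 k
    have hlb : ∀ l : ℤ, (l : ℝ) ^ 2 * δ ≤ 1 → |l| ≤ L := by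
      intro l hl
      have g1 : (l : ℝ) ^ 2 ≤ 1 / δ := by
        rw [le_div_iff₀ hδ]; exact hl
      have g2 : |(l : ℝ)| ≤ (l : ℝ) ^ 2 + 1 := by
        nlinarith [sq_abs (l : ℝ), sq_nonneg (|(l : ℝ)| - 1), abs_nonneg (l : ℝ)]
      have g3 : ((|l| : ℤ) : ℝ) ≤ ((L : ℤ) : ℝ) := by
        push_cast
        linarith
      exact_mod_cast g3
    have hμb : ∀ (l : ℤ) (μ : Fin 20 → ℤ), (l : ℝ) ^ 2 * δ ≤ 1 →
        bf G (lam G μ + (l : ℝ) • xr X N) (lam G μ + (l : ℝ) • xr X N) ≤ 2 →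
        ∀ i, |μ i| ≤ Q₀ := by
      intro l μ hl hb
      apply hQ₀
      have g1 : (l : ℝ) ^ 2 ≤ 1 / δ := by
        rw [le_div_iff₀ hδ]; exact hl
      have g2 := bf_young h (lam G μ + (l : ℝ) • xr X N) ((l : ℝ) • xr X N) one_pos
      rw [add_sub_cancel_right, bf_smul_left, bf_smul_right, bf_lam_lam h] at g2
      have g3 : bf G (xr X N) (xr X N) < q₀ + 1 := hX.2
      have g4 : 0 ≤ bf G (xr X N) (xr X N) := h.nonneg _
      have g5 : (l : ℝ) * (l * bf G (xr X N) (xr X N)) ≤ 1 / δ * (q₀ + 1) := by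
        calc (l : ℝ) * (l * bf G (xr X N) (xr X N)) = (l : ℝ) ^ 2 * bf G (xr X N) (xr X N) := by ring
          _ ≤ 1 / δ * (q₀ + 1) := mul_le_mul g1 g3.le g4 (by positivity)
      norm_num at g2
      linarith
    refine hgen _ h5 (fun i => ?_) k
    have e1 := hlb l h1
    have e2 := hlb l' h2
    have e3 := hμb l μ h1 h3 i
    have e4 := hμb l' μ' h2 h4 i
    simp only [Pi.sub_apply, Pi.smul_apply, smul_eq_mul]
    have e5 : |l * μ' i| ≤ L * Q₀ := by
      rw [abs_mul]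
      exact mul_le_mul e1 e4 (abs_nonneg _) (by positivity)
    have e6 : |l' * μ i| ≤ L * Q₀ := by
      rw [abs_mul]
      exact mul_le_mul e2 e3 (abs_nonneg _) (by positivity)
    have e7 := abs_sub (l * μ' i) (l' * μ i)
    have : (0 : ℤ) ≤ Q₁ := by positivity
    push_cast
    linarith

/-- the slope form of the wall equation on a slice -/
theorem slope (h : PosSymm G) {b l n : ℤ} {μ : Fin 20 → ℤ} {x y : Fin 20 → ℝ} {τ ω : ℂ}
    (hτ : 0 < τ.im) (he : WEq G 0 b l n μ (ω, pt x y τ)) :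
    (n : ℝ) + dt μ x = -(l * (ω.im / τ.im)) := by
  have g1 := WEq_im h he
  rw [kf_Pw h] at g1
  simp only [Int.cast_zero, zero_mul, imW] at g1
  rw [imv_pt, dt_smul] at g1
  have g2 : (pt x y τ).1.im = τ.im := rfl
  rw [g2] at g1
  field_simp
  linarith

theorem l_ne (h : PosSymm G) {b l n : ℤ} {μ : Fin 20 → ℤ} {x y : Fin 20 → ℝ} {τ ω : ℂ}
    (hx : Off G x) (hτ : 0 < τ.im) (hw : WallData G 0 b l n μ)
    (he : WEq G 0 b l n μ (ω, pt x y τ)) : l ≠ 0 := by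
  rintro rfl
  have h4 := nu_le_one hw
  unfold nu at h4
  push_cast at h4
  have h1 := slope h hτ he
  refine hx μ (by linarith [h4.1]) (by linarith [h4.2]) (-n) ?_
  push_cast at h1 ⊢
  linarith

/-- the height on a slice is determined by the wall -/
theorem height_pt (h : PosSymm G) {b l n : ℤ} {μ : Fin 20 → ℤ} {x y : Fin 20 → ℝ} {τ ω : ℂ}
    (hτ : 0 < τ.im) (he : WEq G 0 b l n μ (ω, pt x y τ)) :
    nu G 0 b l n μ = (l : ℝ) ^ 2 * ht G (ω, pt x y τ) +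
      bf G (lam G μ + (l : ℝ) • x) (lam G μ + (l : ℝ) • x) / 2 := by
  have := height_id h (W := (ω, pt x y τ)) hτ he
  rwa [xp_pt hτ] at this

/-- **uniqueness of the wall** -/
theorem uniq (h : PosSymm G) {δ : ℝ} {x y : Fin 20 → ℝ} {τ ω : ℂ} (hx : Off G x)
    (hg : Gp G δ x) (hτ : 0 < τ.im) (hht : δ ≤ ht G (ω, pt x y τ)) (hht0 : 0 ≤ ht G (ω, pt x y τ))
    {b l n : ℤ} {μ : Fin 20 → ℤ} (hw : WallData G 0 b l n μ)
    (he : WEq G 0 b l n μ (ω, pt x y τ)) (b' l' n' : ℤ) (μ' : Fin 20 → ℤ)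
    (hw' : WallData G 0 b' l' n' μ') (he' : WEq G 0 b' l' n' μ' (ω, pt x y τ)) :
    l' ≠ 0 ∧ l * b' = l' * b ∧ l * n' = l' * n ∧ l • μ' = l' • μ := by
  have key : ∀ (b l n : ℤ) (μ : Fin 20 → ℤ), WallData G 0 b l n μ →
      WEq G 0 b l n μ (ω, pt x y τ) → (l : ℝ) ^ 2 * δ ≤ 1 ∧
        bf G (lam G μ + (l : ℝ) • x) (lam G μ + (l : ℝ) • x) ≤ 2 := by
    intro b l n μ hw he
    have g1 := height_pt h hτ he
    have g2 := (nu_le_one hw).2
    have g3 := h.nonneg (lam G μ + (l : ℝ) • x)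
    have g4 : (l : ℝ) ^ 2 * δ ≤ (l : ℝ) ^ 2 * ht G (ω, pt x y τ) :=
      mul_le_mul_of_nonneg_left hht (sq_nonneg _)
    have g5 : 0 ≤ (l : ℝ) ^ 2 * ht G (ω, pt x y τ) := mul_nonneg (sq_nonneg _) hht0
    exact ⟨by linarith, by linarith⟩
  obtain ⟨k1, k2⟩ := key b l n μ hw he
  obtain ⟨k3, k4⟩ := key b' l' n' μ' hw' he'
  have s1 := slope h hτ he
  have s2 := slope h hτ he'
  have hμ : l • μ' - l' • μ = 0 := by
    by_contra hne
    refine hg l l' μ μ' k1 k3 k2 k4 hne (l' * n - l * n') ?_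
    have e1 : dt (l • μ' - l' • μ) x = l * dt μ' x - l' * dt μ x := by
      rw [sub_eq_add_neg, ← neg_smul, dt_add_left, dt_smul_left, dt_smul_left]
      push_cast
      ring
    rw [e1]
    push_cast
    have e2 : dt μ x = -(l * (ω.im / τ.im)) - n := by linarith
    have e3 : dt μ' x = -(l' * (ω.im / τ.im)) - n' := by linarith
    rw [e2, e3]
    ring
  have hμ' : l • μ' = l' • μ := sub_eq_zero.1 hμ
  have hn : l * n' = l' * n := by
    have e1 : (l : ℝ) * dt μ' x = l' * dt μ x := by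
      rw [← dt_smul_left, ← dt_smul_left, hμ']
    have e2 : dt μ x = -(l * (ω.im / τ.im)) - n := by linarith
    have e3 : dt μ' x = -(l' * (ω.im / τ.im)) - n' := by linarith
    rw [e2, e3] at e1
    have e4 : (l : ℝ) * n' = l' * n := by linarith
    exact_mod_cast e4
  refine ⟨l_ne h hx hτ hw' he', ?_, hn, hμ'⟩
  unfold WEq at he he'
  simp only at he he'
  have e1 : (l : ℂ) * dt μ' (pt x y τ).2 = l' * dt μ (pt x y τ).2 := by
    rw [← dt_smul_left, ← dt_smul_left, hμ']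
  have e2 : (l : ℂ) * n' = l' * n := by exact_mod_cast hn
  have e3 : (l : ℂ) * b' = l' * b := by
    push_cast at he he'
    linear_combination (l : ℂ) * he' - (l' : ℂ) * he - (pt x y τ).1 * e2 - e1
  exact_mod_cast e3

/-- passing to the primitive vector of a wall -/
theorem primitive_wall {F : TP → ℂ} : ∀ (L : ℕ) (b l n : ℤ) (μ : Fin 20 → ℤ), l.natAbs = L →
    l ≠ 0 → 0 < nu G 0 b l n μ → nu G 0 b l n μ ≤ 1 → Van G F 0 b l n μ →
    ∃ (ν : ℝ) (b' l' n' : ℤ) (μ' : Fin 20 → ℤ), l' ≠ 0 ∧ 0 < ν ∧ ν ≤ 1 ∧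
      Act G F ν 0 b' l' n' μ' ∧ ∀ W, WEq G 0 b l n μ W → WEq G 0 b' l' n' μ' W := by
  intro L
  induction L using Nat.strong_induction_on with
  | _ L ih =>
    intro b l n μ hL hl h0 h1 hv
    by_cases hp : Prim 0 b l n μ
    · exact ⟨_, b, l, n, μ, hl, h0, h1, ⟨hp, hv, rfl⟩, fun W hW => hW⟩
    · unfold Prim at hp
      push Not at hp
      obtain ⟨d, _, hb, hdl, hn, hμ, hu⟩ := hp
      obtain ⟨b₁, rfl⟩ := hb
      obtain ⟨l₁, rfl⟩ := hdl
      obtain ⟨n₁, rfl⟩ := hn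
      choose μ₁ hμ₁ using hμ
      have hμe : μ = d • μ₁ := by
        funext i
        rw [hμ₁ i]
        rfl
      subst hμe
      have hd0 : d ≠ 0 := fun h => hl (by rw [h, zero_mul])
      have hl₁ : l₁ ≠ 0 := fun h => hl (by rw [h, mul_zero])
      have hd2 : 2 ≤ d.natAbs := by
        rw [Int.isUnit_iff_natAbs_eq] at hu
        have := Int.natAbs_pos.2 hd0
        omega
      have hlt : l₁.natAbs < L := by
        rw [← hL, Int.natAbs_mul]
        have := Int.natAbs_pos.2 hl₁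
        nlinarith
      have hdR : (1 : ℝ) ≤ (d : ℝ) ^ 2 := by
        have : (1 : ℤ) ≤ d ^ 2 := by
          have := Int.one_le_abs hd0
          nlinarith [sq_abs d]
        exact_mod_cast this
      have hnu : nu G 0 (d * b₁) (d * l₁) (d * n₁) (d • μ₁) = (d : ℝ) ^ 2 * nu G 0 b₁ l₁ n₁ μ₁ := by
        unfold nu
        have : bd G (d • μ₁) (d • μ₁) = (d : ℝ) ^ 2 * bd G μ₁ μ₁ := by
          unfold bd
          have h2 : (fun j => (((d • μ₁) j : ℤ) : ℝ)) = (d : ℝ) • fun j => (μ₁ j : ℝ) := by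
            funext j; simp
          rw [h2, Matrix.mulVec_smul, Finset.mul_sum]
          refine Finset.sum_congr rfl fun i _ => ?_
          simp only [Pi.smul_apply, smul_eq_mul]
          push_cast
          ring
        rw [this]
        push_cast
        ring
      have hW : ∀ W : TP, WEq G 0 (d * b₁) (d * l₁) (d * n₁) (d • μ₁) W ↔ WEq G 0 b₁ l₁ n₁ μ₁ W := by
        intro W
        unfold WEq
        have hdC : (d : ℂ) ≠ 0 := by exact_mod_cast hd0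
        rw [dt_smul_left]
        push_cast
        constructor
        · intro hh
          apply mul_left_cancel₀ hdC
          linear_combination hh
        · intro hh
          linear_combination (d : ℂ) * hh
      have hnu0 : 0 < nu G 0 b₁ l₁ n₁ μ₁ := by
        rw [hnu] at h0
        exact pos_of_mul_pos_right h0 (by positivity) |> fun h => h
      have hnu1 : nu G 0 b₁ l₁ n₁ μ₁ ≤ 1 := by
        rw [hnu] at h1
        nlinarith
      obtain ⟨ν, b', l', n', μ', g1, g2, g3, g4, g5⟩ := ih _ hlt b₁ l₁ n₁ μ₁ rfl hl₁ hnu0 hnu1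
        (fun W hWm he => hv W hWm ((hW W).2 he))
      exact ⟨ν, b', l', n', μ', g1, g2, g3, g4, fun W hh => g5 W ((hW W).1 hh)⟩

/-- **a zero on a good slice lies on a wall of the divisor** -/
theorem zero_act (h : PosSymm G) {k : ℤ} {F : TP → ℂ} (hF : TubeForm G k F) {δ : ℝ} (hδ : 0 < δ)
    {x y : Fin 20 → ℝ} {τ ω : ℂ} (hx : Off G x) (hg : Gp G δ x) (hτ : 0 < τ.im)
    (hT : 1 < τ.im ^ 2 * δ) (hht : δ ≤ ht G (ω, pt x y τ)) (hz : F (ω, pt x y τ) = 0) :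
    ∃ (ν : ℝ) (b l n : ℤ) (μ : Fin 20 → ℤ), l ≠ 0 ∧ 0 < ν ∧ ν ≤ 1 ∧ Act G F ν 0 b l n μ ∧
      WEq G 0 b l n μ (ω, pt x y τ) := by
  have hht0 : 0 < ht G (ω, pt x y τ) := lt_of_lt_of_le hδ hht
  have hW : (ω, pt x y τ) ∈ Hd G := by
    refine ⟨pt_mem hτ, ?_⟩
    show bh G (pt x y τ) < ω.im
    rw [bh_pt hτ]
    rw [ht_pt hτ] at hht0
    have := sub_pos.1 hht0
    rwa [lt_div_iff₀ hτ] at this
  have hY : 1 < τ.im ^ 2 * ht G (ω, pt x y τ) :=
    lt_of_lt_of_le hT (mul_le_mul_of_nonneg_left hht (sq_nonneg _))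
  have hkf : 2 < kf G (imW (ω, pt x y τ)) (imW (ω, pt x y τ)) := by
    rw [kf_im_eq hW.1]
    show 2 < 2 * τ.im ^ 2 * ht G (ω, pt x y τ)
    linarith
  obtain ⟨b, l, n, μ, hw, he⟩ := zero_wall h hF hW hz hY
  have hl := l_ne h hx hτ hw he
  have hv := van_of_zero h hF hW hkf hz he hl
    (fun b' l' n' μ' hw' he' => uniq h hx hg hτ hht hht0.le hw he b' l' n' μ' hw' he')
  obtain ⟨hn0, hn1⟩ := nu_le_one hw
  obtain ⟨ν, b', l', n', μ', g1, g2, g3, g4, g5⟩ := primitive_wall _ b l n μ rfl hl hn0 hn1 hv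
  exact ⟨ν, b', l', n', μ', g1, g2, g3, g4, g5 _ he⟩

end

end Pool.Agent.W2helper33.RL
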