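import Pool.Agent.W2helper33.RL.Loc
import Pool.Agent.Y813.RL.Per

set_option autoImplicit false

/-!
# Growth along rational slices
-/

namespace Pool.Agent.W2helper33.RL

open Set Topology Pool.Agent.Y813.RL Filter
open Pool.Agent.Y683.RL (HP fco)

noncomputable section

variable {G : Matrix (Fin 20) (Fin 20) ℤ}

/-- the point of the slice -/
def pt (x y : Fin 20 → ℝ) (τ : ℂ) : ℂ × (Fin 20 → ℂ) := (τ, fun i => τ * (x i : ℂ) + (y i : ℂ))

/-- no short vector is integral at `x` -/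
def Off (G : Matrix (Fin 20) (Fin 20) ℤ) (x : Fin 20 → ℝ) : Prop :=
  ∀ μ : Fin 20 → ℤ, 0 < bd G μ μ → bd G μ μ ≤ 2 → ∀ k : ℤ, dt μ x ≠ k

variable {x y : Fin 20 → ℝ} {τ : ℂ}

theorem imv_pt : imv (pt x y τ).2 = τ.im • x := by
  funext i
  simp [imv, pt, Complex.mul_im]

theorem xp_pt (hτ : 0 < τ.im) : xp (pt x y τ) = x := by
  unfold xp
  rw [imv_pt]
  show (τ.im)⁻¹ • (τ.im • x) = x
  rw [smul_smul, inv_mul_cancel₀ hτ.ne', one_smul]

theorem pt_mem (hτ : 0 < τ.im) : pt x y τ ∈ UP := hτ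

theorem pt_off (hx : Off G x) (hτ : 0 < τ.im) : pt x y τ ∉ Mir G := by
  rw [not_mir (pt_mem hτ)]
  intro μ h1 h2
  left
  rw [xp_pt hτ]
  exact hx μ h1 h2

theorem bh_pt (hτ : 0 < τ.im) : bh G (pt x y τ) = bf G x x / 2 * τ.im := by
  rw [bh_eq (pt_mem hτ), xp_pt hτ]
  show τ.im * (bf G x x / 2) = _
  ring

theorem ht_pt (hτ : 0 < τ.im) (ω : ℂ) :
    ht G (ω, pt x y τ) = ω.im / τ.im - bf G x x / 2 := by
  unfold ht
  simp only
  rw [xp_pt hτ]
  rfl

section

variable {k : ℤ} {F : TP → ℂ} {φ : ℕ → ℂ × (Fin 20 → ℂ) → ℂ} {C m : ℕ}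

/-- bound for `F` on the slice -/
theorem F_slice (hKD : JobKD) (h : PosSymm G) (hF : TubeForm G k F) (X : Fin 20 → ℤ) {N : ℕ}
    (hN : 0 < N) {δ : ℝ} (hδ : 0 < δ) : ∃ M : ℝ, 0 < M ∧ ∀ (y : Fin 20 → ℝ) (τ ω : ℂ), 1 ≤ τ.im →
      (δ + bf G (xr X N) (xr X N) / 2) * τ.im ≤ ω.im → ‖F (ω, pt (xr X N) y τ)‖ ≤ M := by
  obtain ⟨M, hM⟩ := bound_slice hKD h hF X hN hδ
  refine ⟨max M 1, lt_of_lt_of_le one_pos (le_max_right _ _), fun y τ ω hτ hω =>
    (hM _ hτ imv_pt hω).trans (le_max_left _ _)⟩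

/-- bound for the coefficients on the slice -/
theorem phi_slice (hKD : JobKD) (h : PosSymm G) (hF : TubeForm G k F) (hφ : FJD G F φ)
    (X : Fin 20 → ℤ) {N : ℕ} (hN : 0 < N) (j : ℕ) : ∃ M a : ℝ, ∀ (y : Fin 20 → ℝ) (τ : ℂ),
      1 ≤ τ.im → ‖φ j (pt (xr X N) y τ)‖ ≤ M * Real.exp (a * τ.im) := by
  obtain ⟨M, hM0, hM⟩ := F_slice hKD h hF X hN one_pos
  set q := bf G (xr X N) (xr X N) with hq
  refine ⟨M, 2 * Real.pi * (j * (1 + q / 2)), fun y τ hτ => ?_⟩
  have hτ0 : 0 < τ.im := by linarith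
  have hv : bh G (pt (xr X N) y τ) < (1 + q / 2) * τ.im := by
    rw [bh_pt hτ0, ← hq]
    nlinarith
  rw [hφ.coeff j _ _ (pt_mem hτ0) hv]
  have h1 : ∀ u ∈ Set.uIoc (0 : ℝ) 1,
      ‖F ((u : ℂ) + (((1 + q / 2) * τ.im : ℝ) : ℂ) * Complex.I, pt (xr X N) y τ) *
      ee (-(j * ((u : ℂ) + (((1 + q / 2) * τ.im : ℝ) : ℂ) * Complex.I)))‖ ≤
        M * Real.exp (2 * Real.pi * (j * (1 + q / 2)) * τ.im) := by
    intro u _
    have him : ((u : ℂ) + (((1 + q / 2) * τ.im : ℝ) : ℂ) * Complex.I).im = (1 + q / 2) * τ.im := by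
      rw [Complex.add_im, Complex.im_ofReal_mul]
      simp
    rw [norm_mul, norm_ee]
    have h2 : (-((j : ℂ) * ((u : ℂ) + (((1 + q / 2) * τ.im : ℝ) : ℂ) * Complex.I))).im =
        -(j * ((1 + q / 2) * τ.im)) := by
      rw [Complex.neg_im, Complex.mul_im, him]
      simp
    rw [h2]
    have h3 : -(2 * Real.pi * -(j * ((1 + q / 2) * τ.im))) =
        2 * Real.pi * (j * (1 + q / 2)) * τ.im := by ring
    rw [h3]
    exact mul_le_mul_of_nonneg_right (hM y τ _ hτ (by rw [him])) (Real.exp_pos _).le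
  have := intervalIntegral.norm_integral_le_of_norm_le_const h1
  simpa using this

/-- periodicity on the slice -/
theorem phi_per (hF : TubeForm G k F) (hφ : FJD G F φ)
    (X : Fin 20 → ℤ) {N : ℕ} (hN : 0 < N) (y : Fin 20 → ℝ) (j : ℕ) :
    HP 0 fun t : ℂ => φ j (pt (xr X N) y (N * t)) := by
  have hNR : (0 : ℝ) < N := by exact_mod_cast hN
  have hNC : (N : ℂ) ≠ 0 := by exact_mod_cast hN.ne'
  have him : ∀ t : ℂ, ((N : ℂ) * t).im = N * t.im := by
    intro t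
    rw [Complex.mul_im]
    simp
  refine ⟨?_, ?_⟩
  · refine (hφ.holo j).comp (t := UP) ?_ ?_
    · unfold pt
      fun_prop
    · intro t ht
      have ht' : 0 < t.im := ht
      show 0 < ((N : ℂ) * t).im
      rw [him]
      positivity
  · intro t ht
    have hNt : 0 < ((N : ℂ) * t).im := by
      rw [him]
      positivity
    -- translate tau by N
    have h1 : ∀ (M : ℕ) (τ : ℂ) (z : Fin 20 → ℂ), 0 < τ.im → φ j (τ + M, z) = φ j (τ, z) := by
      intro M
      induction M with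
      | zero => intro τ z _; simp
      | succ M ih =>
        intro τ z hτ
        have := law_T hF hφ j (τ := τ + M) z (by simpa using hτ)
        rw [show τ + ((M + 1 : ℕ) : ℂ) = τ + M + 1 by push_cast; ring, this, ih τ z hτ]
    have h2 : pt (xr X N) y (N * (t + 1)) =
        ((N : ℂ) * t + N, fun i => (fun i => (N : ℂ) * t * (xr X N i : ℂ) + (y i : ℂ)) i +
          (X i : ℂ)) := by
      unfold pt
      refine Prod.ext ?_ ?_
      · simp only
        ring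
      · funext i
        simp only [xr]
        push_cast
        field_simp
        ring
    rw [h2, law_z hF hφ j (τ := (N : ℂ) * t + N) _ X (by simpa using hNt), h1 _ _ _ hNt]
    rfl

/-- lower bound for the leading coefficient on the slice -/
theorem phi_lower (hKD : JobKD) (h : PosSymm G) (H : CM G k F φ C m) (X : Fin 20 → ℤ) {N : ℕ}
    (hN : 0 < N) (hx : Off G (xr X N)) (y : Fin 20 → ℝ) :
    ∃ c a T : ℝ, 0 < c ∧ ∀ τ : ℂ, T ≤ τ.im → c * Real.exp (-(a * τ.im)) ≤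
      ‖φ C (pt (xr X N) y τ)‖ := by
  have hNR : (0 : ℝ) < N := by exact_mod_cast hN
  have hNC : (N : ℂ) ≠ 0 := by exact_mod_cast hN.ne'
  have hN1 : (1 : ℝ) ≤ N := by exact_mod_cast hN
  have him : ∀ t : ℂ, ((N : ℂ) * t).im = N * t.im := by
    intro t
    rw [Complex.mul_im]
    simp
  obtain ⟨M, a, hM⟩ := phi_slice hKD h H.tf H.fd X hN C
  obtain ⟨c, a', T, hc, hlow⟩ := per_lower (phi_per H.tf H.fd X hN y C)
    ⟨Complex.I, by simp, by
      refine leading_ne_zero h H.tf H.fd H.hC H.hne (pt_mem ?_) (pt_off hx ?_)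
      · rw [him]; simpa using hNR
      · rw [him]; simpa using hNR⟩ (M := M) (a := a * N) (by
      intro t ht
      have := hM y (N * t) (by
        rw [him]
        nlinarith)
      rw [him] at this
      rw [mul_assoc a]
      exact this)
  refine ⟨c, a' / N, T * N, hc, fun τ hτ => ?_⟩
  have h1 := hlow (τ / N) (by
    have : (τ / (N : ℂ)).im = τ.im / N := by
      rw [← Complex.ofReal_natCast, Complex.div_ofReal_im]
    rw [this, le_div_iff₀ hNR]
    exact hτ)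
  have h2 : (N : ℂ) * (τ / N) = τ := by field_simp
  have h3 : (τ / (N : ℂ)).im = τ.im / N := by
    rw [← Complex.ofReal_natCast, Complex.div_ofReal_im]
  rw [h2, h3] at h1
  have h4 : a' * (τ.im / N) = a' / N * τ.im := by ring
  rw [h4] at h1
  exact h1

/-- bound for the normalised function -/
theorem gp_slice (hKD : JobKD) (h : PosSymm G) (H : CM G k F φ C m) (X : Fin 20 → ℤ) {N : ℕ}
    (hN : 0 < N) (hx : Off G (xr X N)) (y : Fin 20 → ℝ) {δ : ℝ} (hδ : 0 < δ) :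
    ∃ A B T : ℝ, 0 < A ∧ 0 ≤ B ∧ 1 ≤ T ∧ ∀ τ : ℂ, T ≤ τ.im → ∀ s : ℂ,
      ‖s‖ ≤ Real.exp (-(2 * Real.pi * ((δ + bf G (xr X N) (xr X N) / 2) * τ.im))) →
      ‖gp φ C m (pt (xr X N) y τ) s‖ ≤ Real.exp (A + B * τ.im) := by
  obtain ⟨M, hM0, hM⟩ := F_slice hKD h H.tf X hN hδ
  obtain ⟨c, a, T, hc, hlow⟩ := phi_lower hKD h H X hN hx y
  set q := bf G (xr X N) (xr X N) with hq
  have hq0 : 0 ≤ q := h.nonneg _
  have hpi := Real.pi_pos
  refine ⟨|Real.log (M / c)| + 1, 2 * Real.pi * ((δ + q / 2) * C) + |a|, max T 1,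
    by positivity, by positivity, le_max_right _ _, fun τ hτ s hs => ?_⟩
  have hτT : T ≤ τ.im := (le_max_left _ _).trans hτ
  have hτ1 : 1 ≤ τ.im := (le_max_right _ _).trans hτ
  have hτ0 : 0 < τ.im := by linarith
  have h0 : φ C (pt (xr X N) y τ) ≠ 0 :=
    leading_ne_zero h H.tf H.fd H.hC H.hne (pt_mem hτ0) (pt_off hx hτ0)
  have hv : bh G (pt (xr X N) y τ) < (δ + q / 2) * τ.im := by
    rw [bh_pt hτ0, ← hq]
    nlinarith
  have h1 := H.gp_bound (pt_mem hτ0) h0 hv (M := M) (fun ω hω => hM y τ ω hτ1 hω.ge) hs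
  refine h1.trans ?_
  rw [div_le_iff₀ (norm_pos_iff.2 h0)]
  have h2 := hlow τ hτT
  have h3 : M * Real.exp (2 * Real.pi * ((δ + q / 2) * τ.im) * C) ≤
      Real.exp (|Real.log (M / c)| + 1 + (2 * Real.pi * ((δ + q / 2) * C) + |a|) * τ.im) *
        (c * Real.exp (-(a * τ.im))) := by
    have h4 : M / c ≤ Real.exp (|Real.log (M / c)| + 1) := by
      calc M / c = Real.exp (Real.log (M / c)) := (Real.exp_log (by positivity)).symm
        _ ≤ _ := Real.exp_le_exp.2 (by linarith [le_abs_self (Real.log (M / c))])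
    have h5 : M = M / c * c := by field_simp
    rw [h5]
    have h6 : Real.exp (|Real.log (M / c)| + 1 + (2 * Real.pi * ((δ + q / 2) * C) + |a|) * τ.im) *
        (c * Real.exp (-(a * τ.im))) = Real.exp (|Real.log (M / c)| + 1) * c *
          Real.exp ((2 * Real.pi * ((δ + q / 2) * C) + |a|) * τ.im + -(a * τ.im)) := by
      rw [Real.exp_add (|Real.log (M / c)| + 1), Real.exp_add _ (-(a * τ.im))]
      ring
    rw [← h5, h6]
    have h7 : 2 * Real.pi * ((δ + q / 2) * τ.im) * C ≤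
        (2 * Real.pi * ((δ + q / 2) * C) + |a|) * τ.im + -(a * τ.im) := by
      have : a * τ.im ≤ |a| * τ.im := mul_le_mul_of_nonneg_right (le_abs_self _) hτ0.le
      nlinarith
    calc M * Real.exp (2 * Real.pi * ((δ + q / 2) * τ.im) * C) =
        M / c * c * Real.exp (2 * Real.pi * ((δ + q / 2) * τ.im) * C) := by rw [← h5]
      _ ≤ Real.exp (|Real.log (M / c)| + 1) * c *
          Real.exp ((2 * Real.pi * ((δ + q / 2) * C) + |a|) * τ.im + -(a * τ.im)) := by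
        gcongr
  refine h3.trans ?_
  gcongr

/-- **growth of the Jacobi form on a slice without zeros** -/
theorem c_slice (hKD : JobKD) (hBC : JobBC) (h : PosSymm G) (H : CM G k F φ C m)
    {c : ℂ → (Fin 20 → ℂ) → ℂ}
    (hc : ∀ τ z, 0 < τ.im → φ (C + m) (τ, z) = φ C (τ, z) * c τ z) (X : Fin 20 → ℤ) {N : ℕ}
    (hN : 0 < N) (hx : Off G (xr X N)) (y : Fin 20 → ℝ) {δ : ℝ} (hδ : 0 < δ) {T₀ : ℝ}
    (hz : ∀ τ : ℂ, T₀ ≤ τ.im → ∀ ω : ℂ, (δ + bf G (xr X N) (xr X N) / 2) * τ.im < ω.im →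
      F (ω, pt (xr X N) y τ) ≠ 0) :
    ∃ A B T : ℝ, 0 < A ∧ 0 ≤ B ∧ 1 ≤ T ∧ ∀ τ : ℂ, T ≤ τ.im →
      ‖c τ (fun i => τ * (xr X N i : ℂ) + (y i : ℂ))‖ ≤ (A + B * τ.im) *
        Real.exp (2 * Real.pi * (m * (δ + bf G (xr X N) (xr X N) / 2)) * τ.im) := by
  obtain ⟨A, B, T, hA, hB, hT, hg⟩ := gp_slice hKD h H X hN hx y hδ
  set q := bf G (xr X N) (xr X N) with hq
  have hq0 : 0 ≤ q := h.nonneg _
  have hpi := Real.pi_pos
  refine ⟨2 * 2 ^ m * A, 2 * 2 ^ m * B, max T T₀, by positivity, by positivity,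
    hT.trans (le_max_left _ _), fun τ hτ => ?_⟩
  have hτT : T ≤ τ.im := (le_max_left _ _).trans hτ
  have hτ0 : 0 < τ.im := by linarith
  set p := pt (xr X N) y τ with hp
  have hpU : p ∈ UP := pt_mem hτ0
  have h0 : φ C p ≠ 0 := leading_ne_zero h H.tf H.fd H.hC H.hne hpU (pt_off hx hτ0)
  set v := (δ + q / 2) * τ.im with hv
  have hb : bh G p < v := by
    rw [hp, bh_pt hτ0, ← hq, hv]
    nlinarith
  set R := Real.exp (-(2 * Real.pi * v)) with hR
  have hR0 : 0 < R := Real.exp_pos _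
  have hRR : R < Real.exp (-(2 * Real.pi * bh G p)) := by
    rw [hR, Real.exp_lt_exp]
    nlinarith
  have hM'0 : 0 < A + B * τ.im := by positivity
  have hgne : ∀ s ∈ Metric.ball (0 : ℂ) R, gp φ C m p s ≠ 0 := by
    intro s hs
    rw [Metric.mem_ball, dist_zero_right] at hs
    by_cases hs0 : s = 0
    · rw [hs0]
      simp [gp, H.hm.ne']
    · obtain ⟨ω, hω, him⟩ := exists_ee hs0
      have hvω : v < ω.im := by
        rw [him, lt_div_iff₀ (by positivity)]
        have := Real.log_lt_log (norm_pos_iff.2 hs0) hs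
        rw [hR, Real.log_exp] at this
        linarith
      rw [← hω, H.gp_eq hpU h0 (hb.trans hvω)]
      exact div_ne_zero (mul_ne_zero (hz τ ((le_max_right _ _).trans hτ) ω hvω) (ee_ne_zero _)) h0
  have hHd := H.Hs_diff hpU
  have hcont : ContinuousAt (fun s => Hs φ C m p s / φ C p) 0 := by
    have : DifferentiableAt ℂ (Hs φ C m p) 0 :=
      hHd.differentiableAt (Metric.isOpen_ball.mem_nhds (Metric.mem_ball_self (Real.exp_pos _)))
    exact (this.div_const _).continuousAt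
  have key := hBC m R (A + B * τ.im) (gp φ C m p) (fun s => Hs φ C m p s / φ C p) H.hm hR0 hM'0
    ((H.gp_diff hpU).mono (Metric.ball_subset_ball hRR.le)) hcont (fun s _ => rfl) hgne (by
      intro s hs
      rw [Metric.mem_ball, dist_zero_right] at hs
      exact hg τ hτT s hs.le)
  simp only [Hs_zero, norm_div] at key
  have hcp : φ (C + m) p = φ C p * c τ (fun i => τ * (xr X N i : ℂ) + (y i : ℂ)) :=
    hc τ _ hτ0
  rw [hcp, norm_mul, mul_div_cancel_left₀ _ (norm_ne_zero_iff.2 h0)] at key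
  refine key.trans (le_of_eq ?_)
  have e1 : (2 / R) ^ m = 2 ^ m * Real.exp (2 * Real.pi * (m * (δ + q / 2)) * τ.im) := by
    rw [div_pow, hR, ← Real.exp_nat_mul, div_eq_mul_inv, ← Real.exp_neg, hv]
    congr 2
    ring
  rw [e1]
  ring

end

end

end Pool.Agent.W2helper33.RL
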