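import Pool.Agent.W2helper33.RL.Eich

set_option autoImplicit false

/-!
# A zero on a unique wall forces vanishing on the whole wall
-/

namespace Pool.Agent.W2helper33.RL

open Set Topology Pool.Agent.Y813.RL Filter

noncomputable section

/-- a weak form of the theorem of Hurwitz -/
theorem hurwitz {E : Type*} [NormedAddCommGroup E] {F : ℂ × E → ℂ}
    {ω₀ : ℂ} {p₀ : E} {U : Set (ℂ × E)} (hU : U ∈ 𝓝 (ω₀, p₀)) (hUo : IsOpen U)
    (hc : ContinuousOn F U) (hd : ∀ p, DifferentiableOn ℂ (fun ω => F (ω, p)) {ω | (ω, p) ∈ U})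
    (h0 : F (ω₀, p₀) = 0) (hz : ∀ ω, (ω, p₀) ∈ U → F (ω, p₀) = 0 → ω = ω₀) :
    ∀ᶠ p in 𝓝 p₀, ∃ ω, (ω, p) ∈ U ∧ F (ω, p) = 0 := by
  obtain ⟨r, hr, hball⟩ := Metric.isOpen_iff.1 hUo (ω₀, p₀) (mem_of_mem_nhds hU)
  set ρ := r / 2 with hρ
  have hρ0 : 0 < ρ := by positivity
  have hin : ∀ ω ∈ Metric.closedBall ω₀ ρ, ∀ p ∈ Metric.ball p₀ r, (ω, p) ∈ U := by
    intro ω hω p hp
    apply hball
    rw [Metric.mem_ball, Prod.dist_eq, max_lt_iff]
    rw [Metric.mem_closedBall] at hω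
    rw [Metric.mem_ball] at hp
    exact ⟨by simp only; linarith, hp⟩
  have hp₀ : p₀ ∈ Metric.ball p₀ r := Metric.mem_ball_self hr
  -- minimum on the circle
  have hcont : ContinuousOn (fun ω => ‖F (ω, p₀)‖) (Metric.sphere ω₀ ρ) := by
    refine ContinuousOn.norm (hc.comp (by fun_prop) ?_)
    intro ω hω
    exact hin ω (Metric.sphere_subset_closedBall hω) p₀ hp₀
  obtain ⟨t₀, ht₀, hmin⟩ := (isCompact_sphere ω₀ ρ).exists_isMinOn
    (NormedSpace.sphere_nonempty.2 hρ0.le) hcont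
  set d := ‖F (t₀, p₀)‖ with hddef
  have hd0 : 0 < d := by
    rw [hddef, norm_pos_iff]
    intro h1
    have := hz t₀ (hin t₀ (Metric.sphere_subset_closedBall ht₀) p₀ hp₀) h1
    rw [this, Metric.mem_sphere, dist_self] at ht₀
    linarith
  have hclose : ∀ᶠ p in 𝓝 p₀, ∀ ω ∈ Metric.closedBall ω₀ ρ, ‖F (ω, p) - F (ω, p₀)‖ < d / 3 := by
    apply (isCompact_closedBall ω₀ ρ).eventually_forall_of_forall_eventually
    intro ω hω
    have h1 : ContinuousAt (fun z : E × ℂ => F (z.2, z.1)) (p₀, ω) := by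
      refine ContinuousAt.comp (g := F) (f := fun z : E × ℂ => (z.2, z.1)) ?_ (by fun_prop)
      exact hc.continuousAt (hUo.mem_nhds (hin ω hω p₀ hp₀))
    have h2 : ContinuousAt (fun z : E × ℂ => F (z.2, p₀)) (p₀, ω) := by
      refine ContinuousAt.comp (g := F) (f := fun z : E × ℂ => (z.2, p₀)) ?_ (by fun_prop)
      exact hc.continuousAt (hUo.mem_nhds (hin ω hω p₀ hp₀))
    have h3 := (h1.sub h2).norm
    have h4 : ‖F (ω, p₀) - F (ω, p₀)‖ < d / 3 := by
      rw [sub_self, norm_zero]; positivity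
    exact h3.eventually_lt continuousAt_const h4
  filter_upwards [hclose, Metric.ball_mem_nhds p₀ hr] with p hp hpr
  by_contra hcon
  push Not at hcon
  have hne : ∀ ω ∈ Metric.closedBall ω₀ ρ, F (ω, p) ≠ 0 := fun ω hω => hcon ω (hin ω hω p hpr)
  have hgd : DifferentiableOn ℂ (fun ω => F (ω, p)) (Metric.closedBall ω₀ ρ) :=
    (hd p).mono fun ω hω => hin ω hω p hpr
  have hinv : ∀ t ∈ Metric.sphere ω₀ ρ, ‖(F (t, p))⁻¹‖ ≤ (2 * d / 3)⁻¹ := by
    intro t ht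
    rw [norm_inv]
    apply inv_anti₀ (by positivity)
    have h1 := hp t (Metric.sphere_subset_closedBall ht)
    have h2 : d ≤ ‖F (t, p₀)‖ := hmin ht
    have h3 : ‖F (t, p₀)‖ ≤ ‖F (t, p)‖ + ‖F (t, p) - F (t, p₀)‖ := by
      calc ‖F (t, p₀)‖ = ‖F (t, p) - (F (t, p) - F (t, p₀))‖ := by rw [sub_sub_cancel]
        _ ≤ _ := norm_sub_le _ _
    linarith
  have hmax : ‖(F (ω₀, p))⁻¹‖ ≤ (2 * d / 3)⁻¹ := by
    have hdc : DiffContOnCl ℂ (fun t => (F (t, p))⁻¹) (Metric.ball ω₀ ρ) := by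
      refine DifferentiableOn.diffContOnCl ?_
      rw [closure_ball _ hρ0.ne']
      exact hgd.inv hne
    refine Complex.norm_le_of_forall_mem_frontier_norm_le Metric.isBounded_ball hdc ?_ ?_
    · intro t ht
      rw [frontier_ball _ hρ0.ne'] at ht
      exact hinv t ht
    · rw [closure_ball _ hρ0.ne']
      exact Metric.mem_closedBall_self hρ0.le
  have h00 : ω₀ ∈ Metric.closedBall ω₀ ρ := Metric.mem_closedBall_self hρ0.le
  rw [norm_inv] at hmax
  have hg0 : 2 * d / 3 ≤ ‖F (ω₀, p)‖ :=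
    (inv_le_inv₀ (norm_pos_iff.2 (hne ω₀ h00)) (by positivity)).1 hmax
  have h4 := hp ω₀ h00
  rw [h0, sub_zero] at h4
  linarith

variable {G : Matrix (Fin 20) (Fin 20) ℤ}

theorem isClosed_WEq (a b l n : ℤ) (μ : Fin 20 → ℤ) : IsClosed {W : TP | WEq G a b l n μ W} := by
  unfold WEq
  have h1 : Continuous fun W : TP => bf G W.2.2 W.2.2 := bf_contC G (by fun_prop) (by fun_prop)
  have h2 : Continuous fun W : TP => dt μ W.2.2 := by
    unfold dt
    fun_prop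
  exact isClosed_eq (by fun_prop) continuous_const

theorem continuous_imW : Continuous imW := by
  unfold imW imv
  fun_prop

theorem continuous_kf_im : Continuous fun W : TP => kf G (imW W) (imW W) := by
  have h1 : Continuous fun W : TP => bf G (imW W).2.2 (imW W).2.2 := by
    have : Continuous fun W : TP => (imW W).2.2 :=
      continuous_snd.comp (continuous_snd.comp continuous_imW)
    exact bf_contR G this this
  have h2 := continuous_imW
  unfold kf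
  fun_prop

/-- **local finiteness of the walls** -/
theorem loc_fin (h : PosSymm G) {k : ℤ} {F : TP → ℂ} (hF : TubeForm G k F) {W₀ : TP}
    (hW₀ : W₀ ∈ Hd G) (hY : 2 < kf G (imW W₀) (imW W₀)) :
    ∀ᶠ W in 𝓝 W₀, F W = 0 → ∃ (b l n : ℤ) (μ : Fin 20 → ℤ), WallData G 0 b l n μ ∧
      WEq G 0 b l n μ W ∧ WEq G 0 b l n μ W₀ := by
  set R := ‖W₀‖ + 1 with hR
  have hR0 : 1 ≤ R := by have := norm_nonneg W₀; linarith
  set T₀ := W₀.2.1.im with hT₀
  have hT₀0 : 0 < T₀ := hW₀.1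
  set Y₀ := bf G (imv W₀.2.2) (imv W₀.2.2) with hY₀
  have hY₀0 : 0 ≤ Y₀ := h.nonneg _
  obtain ⟨Q, hQ⟩ := short_bound h (4 + 2 * (Y₀ + 1))
  set B₁ : ℝ := (R * R + 20 * Q * R) / (T₀ / 2) with hB₁
  have hB₁0 : 0 ≤ B₁ := by positivity
  set B₂ : ℝ := R * R + B₁ * R + 20 * Q * R with hB₂
  obtain ⟨M, hM⟩ := exists_nat_ge (max (max R Q) (max B₁ B₂))
  have hMR : R ≤ M := ((le_max_left _ _).trans (le_max_left _ _)).trans hM
  have hMQ : (Q : ℝ) ≤ M := ((le_max_right _ _).trans (le_max_left _ _)).trans hM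
  have hM1 : B₁ ≤ M := ((le_max_left _ _).trans (le_max_right _ _)).trans hM
  have hM2 : B₂ ≤ M := ((le_max_right _ _).trans (le_max_right _ _)).trans hM
  let box : Set (ℤ × (ℤ × (ℤ × (Fin 20 → ℤ)))) :=
    Set.Icc (-(M : ℤ)) (M : ℤ) ×ˢ (Set.Icc (-(M : ℤ)) (M : ℤ) ×ˢ (Set.Icc (-(M : ℤ)) (M : ℤ) ×ˢ
      Set.Icc (fun _ => -(M : ℤ)) (fun _ => (M : ℤ))))
  have hfin : box.Finite := (Set.finite_Icc _ _).prod ((Set.finite_Icc _ _).prod
    ((Set.finite_Icc _ _).prod (Set.finite_Icc _ _)))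
  have hev : ∀ᶠ W in 𝓝 W₀, ∀ t ∈ box, WEq G 0 t.1 t.2.1 t.2.2.1 t.2.2.2 W →
      WEq G 0 t.1 t.2.1 t.2.2.1 t.2.2.2 W₀ := by
    rw [Filter.eventually_all_finite hfin]
    intro t _
    by_cases h1 : WEq G 0 t.1 t.2.1 t.2.2.1 t.2.2.2 W₀
    · exact Eventually.of_forall fun _ _ => h1
    · have := (isClosed_WEq (G := G) 0 t.1 t.2.1 t.2.2.1 t.2.2.2).isOpen_compl.mem_nhds h1
      filter_upwards [this] with W hW h2
      exact absurd h2 hW
  have e1 : ∀ᶠ W in 𝓝 W₀, W ∈ Hd G := isOpen_Hd.mem_nhds hW₀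
  have e2 : ∀ᶠ W in 𝓝 W₀, 2 < kf G (imW W) (imW W) :=
    continuous_kf_im.continuousAt.eventually_const_lt hY
  have e3 : ∀ᶠ W in 𝓝 W₀, ‖W‖ < R :=
    continuous_norm.continuousAt.eventually_lt_const (by rw [hR]; linarith)
  have e4 : ∀ᶠ W : TP in 𝓝 W₀, T₀ / 2 < W.2.1.im := by
    have : Continuous fun W : TP => W.2.1.im := by fun_prop
    exact this.continuousAt.eventually_const_lt (by show T₀ / 2 < T₀; linarith)
  have e5 : ∀ᶠ W : TP in 𝓝 W₀, bf G (imv W.2.2) (imv W.2.2) < Y₀ + 1 := by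
    have h1 : Continuous fun W : TP => imv W.2.2 := continuous_imv.comp (by fun_prop)
    have : Continuous fun W : TP => bf G (imv W.2.2) (imv W.2.2) := bf_contR G h1 h1
    exact this.continuousAt.eventually_lt_const (by show Y₀ < Y₀ + 1; linarith)
  filter_upwards [hev, e1, e2, e3, e4, e5] with W f0 f1 f2 f3 f4 f5 hFW
  have hT : 0 < W.2.1.im := f1.1
  have hkf := kf_im_eq (G := G) hT
  have hTh : 1 < W.2.1.im ^ 2 * ht G W := by rw [hkf] at f2; linarith
  obtain ⟨b, l, n, μ, hw, he⟩ := zero_wall h hF f1 hFW hTh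
  refine ⟨b, l, n, μ, hw, he, ?_⟩
  -- bounds
  have n1 : ‖W.1‖ ≤ R := (norm_fst_le W).trans f3.le
  have n2 : ‖W.2.1‖ ≤ R := ((norm_fst_le W.2).trans (norm_snd_le W)).trans f3.le
  have n3 : ∀ i, ‖W.2.2 i‖ ≤ R := fun i =>
    ((norm_le_pi_norm W.2.2 i).trans ((norm_snd_le W.2).trans (norm_snd_le W))).trans f3.le
  have hid := height_id h hT he
  have hν := nu_le_one hw
  have hq := h.nonneg (lam G μ + (l : ℝ) • xp W.2)
  have hht : 0 < ht G W := ht_pos f1
  have hl1 : (l : ℝ) ^ 2 * ht G W ≤ 1 := by linarith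
  have hTR : W.2.1.im ≤ R := (Complex.abs_im_le_norm _).trans n2 |> (le_abs_self _).trans
  have hl2 : (l : ℝ) ^ 2 ≤ W.2.1.im ^ 2 := by
    have : (l : ℝ) ^ 2 * 1 ≤ W.2.1.im ^ 2 * 1 := by
      calc (l : ℝ) ^ 2 * 1 ≤ (l : ℝ) ^ 2 * (W.2.1.im ^ 2 * ht G W) :=
            mul_le_mul_of_nonneg_left hTh.le (sq_nonneg _)
        _ = W.2.1.im ^ 2 * ((l : ℝ) ^ 2 * ht G W) := by ring
        _ ≤ W.2.1.im ^ 2 * 1 := mul_le_mul_of_nonneg_left hl1 (sq_nonneg _)
    linarith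
  have hlR : |(l : ℝ)| ≤ R := by
    have := abs_le_of_sq_le_sq hl2 hT.le
    exact this.trans hTR
  have hμbd : bd G μ μ ≤ 4 + 2 * (Y₀ + 1) := by
    have g1 : bf G (lam G μ) (lam G μ) ≤ 2 * bf G (lam G μ + (l : ℝ) • xp W.2)
        (lam G μ + (l : ℝ) • xp W.2) + 2 * (l : ℝ) ^ 2 * bf G (xp W.2) (xp W.2) := by
      have g2 := h.nonneg (lam G μ + (2 * (l : ℝ)) • xp W.2)
      simp only [bf_add_left, bf_add_right, bf_smul_left, bf_smul_right] at g2 ⊢
      nlinarith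
    have g3 : (l : ℝ) ^ 2 * bf G (xp W.2) (xp W.2) ≤ bf G (imv W.2.2) (imv W.2.2) := by
      have g4 : W.2.1.im ^ 2 * bf G (xp W.2) (xp W.2) = bf G (imv W.2.2) (imv W.2.2) := by
        unfold xp
        rw [bf_smul_left, bf_smul_right]
        field_simp
      rw [← g4]
      exact mul_le_mul_of_nonneg_right hl2 (h.nonneg _)
    rw [← bf_lam_lam h]
    nlinarith [mul_nonneg (sq_nonneg (l : ℝ)) hht.le]
  have hμQ := hQ μ hμbd
  have hμR : ∀ i, |(μ i : ℝ)| ≤ Q := by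
    intro i
    have := hμQ i
    have h2 : ((|μ i| : ℤ) : ℝ) ≤ ((Q : ℤ) : ℝ) := by exact_mod_cast this
    simpa using h2
  have hdtC : ‖dt μ W.2.2‖ ≤ 20 * Q * R := by
    unfold dt
    calc ‖∑ i, (μ i : ℂ) * W.2.2 i‖ ≤ ∑ i : Fin 20, ‖(μ i : ℂ) * W.2.2 i‖ := norm_sum_le _ _
      _ ≤ ∑ _i : Fin 20, Q * R := by
        refine Finset.sum_le_sum fun i _ => ?_
        rw [norm_mul, Complex.norm_intCast]
        exact mul_le_mul (hμR i) (n3 i) (norm_nonneg _) (by positivity)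
      _ = 20 * Q * R := by simp; ring
  have hnT : |(n : ℝ)| ≤ B₁ := by
    have g1 := WEq_im h he
    rw [kf_Pw h] at g1
    simp only [Int.cast_zero, zero_mul, imW] at g1
    have g2 : (n : ℝ) * W.2.1.im = -(l * W.1.im) - dt μ (imv W.2.2) := by linarith
    have g3 : |(n : ℝ)| * W.2.1.im ≤ R * R + 20 * Q * R := by
      have g4 : |(n : ℝ)| * W.2.1.im = |(n : ℝ) * W.2.1.im| := by
        rw [abs_mul, abs_of_pos hT]
      rw [g4, g2]
      have g5 : |dt μ (imv W.2.2)| ≤ 20 * Q * R := by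
        rw [← dt_im]
        exact (Complex.abs_im_le_norm _).trans hdtC
      have g6 : |-(l * W.1.im : ℝ)| ≤ R * R := by
        rw [abs_neg, abs_mul]
        exact mul_le_mul hlR ((Complex.abs_im_le_norm _).trans n1) (abs_nonneg _) (by linarith)
      calc |-(l * W.1.im : ℝ) - dt μ (imv W.2.2)| ≤ |-(l * W.1.im : ℝ)| + |dt μ (imv W.2.2)| :=
            abs_sub _ _
        _ ≤ _ := add_le_add g6 g5
    rw [hB₁, le_div_iff₀ (by positivity)]
    exact (mul_le_mul_of_nonneg_left f4.le (abs_nonneg _)).trans g3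
  have hbB : |(b : ℝ)| ≤ B₂ := by
    unfold WEq at he
    have g1 : (b : ℂ) = -(l * W.1) - n * W.2.1 - dt μ W.2.2 := by
      push_cast at he
      linear_combination he
    have g2 : |(b : ℝ)| = ‖(b : ℂ)‖ := by rw [Complex.norm_intCast]
    rw [g2, g1, hB₂]
    have g3 : ‖-((l : ℂ) * W.1)‖ ≤ R * R := by
      rw [norm_neg, norm_mul, Complex.norm_intCast]
      exact mul_le_mul hlR n1 (norm_nonneg _) (by linarith)
    have g4 : ‖(n : ℂ) * W.2.1‖ ≤ B₁ * R := by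
      rw [norm_mul, Complex.norm_intCast]
      exact mul_le_mul hnT n2 (norm_nonneg _) hB₁0
    calc ‖-((l : ℂ) * W.1) - n * W.2.1 - dt μ W.2.2‖ ≤
        ‖-((l : ℂ) * W.1) - n * W.2.1‖ + ‖dt μ W.2.2‖ := norm_sub_le _ _
      _ ≤ ‖-((l : ℂ) * W.1)‖ + ‖(n : ℂ) * W.2.1‖ + ‖dt μ W.2.2‖ := by
        gcongr
        exact norm_sub_le _ _
      _ ≤ _ := add_le_add (add_le_add g3 g4) hdtC
  have key : ∀ x : ℤ, |(x : ℝ)| ≤ M → -(M : ℤ) ≤ x ∧ x ≤ M := by
    intro x hx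
    have h1 : |x| ≤ (M : ℤ) := by
      have : ((|x| : ℤ) : ℝ) ≤ ((M : ℤ) : ℝ) := by push_cast; exact hx
      exact_mod_cast this
    exact abs_le.1 h1
  have kb := key b (hbB.trans hM2)
  have kl := key l (hlR.trans hMR)
  have kn := key n (hnT.trans hM1)
  have kμ := fun i => key (μ i) ((hμR i).trans hMQ)
  exact f0 (b, (l, (n, μ))) ⟨kb, kl, kn, ⟨fun i => (kμ i).1, fun i => (kμ i).2⟩⟩ he

/-- **vanishing on the whole wall** -/
theorem van_of_zero (h : PosSymm G) {k : ℤ} {F : TP → ℂ} (hF : TubeForm G k F) {W₀ : TP}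
    (hW₀ : W₀ ∈ Hd G) (hY : 2 < kf G (imW W₀) (imW W₀)) (hF0 : F W₀ = 0)
    {b l n : ℤ} {μ : Fin 20 → ℤ} (he : WEq G 0 b l n μ W₀) (hl : l ≠ 0)
    (hu : ∀ (b' l' n' : ℤ) (μ' : Fin 20 → ℤ), WallData G 0 b' l' n' μ' →
      WEq G 0 b' l' n' μ' W₀ → l' ≠ 0 ∧ l * b' = l' * b ∧ l * n' = l' * n ∧ l • μ' = l' • μ) :
    Van G F 0 b l n μ := by
  have hlC : (l : ℂ) ≠ 0 := by exact_mod_cast hl
  -- locally all zeros are on the wall
  have hloc : ∀ᶠ W in 𝓝 W₀, F W = 0 → WEq G 0 b l n μ W := by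
    filter_upwards [loc_fin h hF hW₀ hY] with W hW hFW
    obtain ⟨b', l', n', μ', hw, h1, h2⟩ := hW hFW
    obtain ⟨u0, u1, u2, u3⟩ := hu b' l' n' μ' hw h2
    have hl' : (l' : ℂ) ≠ 0 := by exact_mod_cast u0
    unfold WEq at h1 ⊢
    have c1 : (l : ℂ) * b' = l' * b := by exact_mod_cast u1
    have c2 : (l : ℂ) * n' = l' * n := by exact_mod_cast u2
    have c3 : (l : ℂ) * dt μ' W.2.2 = l' * dt μ W.2.2 := by
      rw [← dt_smul_left, ← dt_smul_left, u3]
    apply mul_left_cancel₀ hl'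
    push_cast at h1 ⊢
    linear_combination (l : ℂ) * h1 - c1 - W.2.1 * c2 - c3
  have hHd : ∀ᶠ W in 𝓝 W₀, W ∈ Hd G := isOpen_Hd.mem_nhds hW₀
  obtain ⟨U, hUsub, hUo, hW₀U⟩ := mem_nhds_iff.1 (hloc.and hHd)
  have hz : ∀ ω, (ω, W₀.2) ∈ U → F (ω, W₀.2) = 0 → ω = W₀.1 := by
    intro ω hω hFω
    have h1 := (hUsub hω).1 hFω
    unfold WEq at h1 he
    simp only at h1
    push_cast at h1 he
    apply mul_left_cancel₀ hlC
    linear_combination h1 - he
  have hH := hurwitz (F := F) (ω₀ := W₀.1) (p₀ := W₀.2) (hUo.mem_nhds hW₀U) hUo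
    (hF.holo.continuousOn.mono fun W hW => (hUsub hW).2) (fun p => by
      refine hF.holo.comp (by fun_prop) ?_
      intro ω hω
      exact (hUsub hω).2) hF0 hz
  -- zeros near W₀ on the wall
  have hwall : ∀ᶠ W in 𝓝 W₀, WEq G 0 b l n μ W → F W = 0 := by
    have hc : Continuous fun W : TP => W.2 := continuous_snd
    filter_upwards [(hc.continuousAt (x := W₀)).eventually hH] with W hW hWe
    obtain ⟨ω, hω, hFω⟩ := hW
    have h1 := (hUsub hω).1 hFω
    have : ω = W.1 := by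
      unfold WEq at h1 hWe
      simp only at h1
      push_cast at h1 hWe
      apply mul_left_cancel₀ hlC
      linear_combination h1 - hWe
    rw [this] at hFω
    exact hFω
  -- identity theorem
  intro W hW hWe
  obtain ⟨D, hD⟩ : ∃ D, D = W - W₀ := ⟨_, rfl⟩
  let L : ℂ → TP := fun t => W₀ + t • D
  have hLc : Continuous L := by
    simp only [L]
    fun_prop
  set S : Set ℂ := L ⁻¹' Hd G with hS
  have hSo : IsOpen S := isOpen_Hd.preimage hLc
  have hSc : Convex ℝ S := by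
    intro s hs t ht a c ha hc hac
    have h1 := convex_Hd h hs ht ha hc hac
    have h2 : a • L s + c • L t = L (a • s + c • t) := by
      simp only [L]
      have : W₀ = a • W₀ + c • W₀ := by rw [← add_smul, hac, one_smul]
      conv_rhs => rw [this]
      rw [smul_add, smul_add, add_smul, smul_assoc, smul_assoc]
      abel
    rwa [h2] at h1
  have hd : DifferentiableOn ℂ (fun t => F (L t)) S := by
    refine hF.holo.comp (t := Hd G) ?_ fun t ht => ht
    simp only [L]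
    fun_prop
  have h0 : (0 : ℂ) ∈ S := by
    show L 0 ∈ Hd G
    simpa [L] using hW₀
  have h1 : (1 : ℂ) ∈ S := by
    show L 1 ∈ Hd G
    simpa [L, hD] using hW
  have han : AnalyticOnNhd ℂ (fun t => F (L t)) S := hd.analyticOnNhd hSo
  have hev : (fun t => F (L t)) =ᶠ[𝓝 0] 0 := by
    have hL0 : L 0 = W₀ := by simp [L]
    have := hLc.continuousAt (x := 0)
    rw [ContinuousAt, hL0] at this
    filter_upwards [this.eventually hwall] with t ht
    apply ht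
    unfold WEq at he hWe ⊢
    have e1 : (L t).1 = W₀.1 + t * (W.1 - W₀.1) := by simp [L, hD]
    have e2 : (L t).2.1 = W₀.2.1 + t * (W.2.1 - W₀.2.1) := by simp [L, hD]
    have e3 : dt μ (L t).2.2 = dt μ W₀.2.2 + t * (dt μ W.2.2 - dt μ W₀.2.2) := by
      have : (L t).2.2 = W₀.2.2 + t • (W.2.2 + (-1 : ℂ) • W₀.2.2) := by
        simp [L, hD, sub_eq_add_neg]
      rw [this, dt_add, dt_smul, dt_add, dt_smul]
      ring
    rw [e1, e2, e3]
    push_cast at he hWe ⊢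
    linear_combination (1 - t) * he + t * hWe
  have := han.eqOn_zero_of_preconnected_of_eventuallyEq_zero hSc.isPreconnected h0 hev h1
  simpa [L, hD] using this

end

end Pool.Agent.W2helper33.RL
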