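import Pool.Agent.W2helper33.RL.VV
import Pool.Agent.Y813.RL.Exp

set_option autoImplicit false

/-!
# RL: expansions at the cusp and the Serre derivative
-/

open MeasureTheory Complex Set Topology Filter Metric

namespace Pool.Agent.W2helper33.RL

open Pool.Agent.Y813.RL

noncomputable section

open scoped Real

/-- the upper half plane -/
def HH : Set ℂ := {τ : ℂ | 0 < τ.im}

theorem isOpen_HH : IsOpen HH := isOpen_lt continuous_const Complex.continuous_im

theorem norm_ee_lt {τ : ℂ} (hτ : 0 < τ.im) : ‖ee τ‖ < 1 := by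
  rw [norm_ee, Real.exp_lt_one_iff]
  have := Real.pi_pos
  nlinarith [mul_pos this hτ]

theorem ee_hasDeriv (ν τ : ℂ) : HasDerivAt (fun t : ℂ => ee (ν * t)) (2 * π * I * ν * ee (ν * τ)) τ := by
  unfold ee
  have h1 : HasDerivAt (fun t : ℂ => 2 * (π : ℂ) * I * (ν * t)) (2 * (π : ℂ) * I * (ν * 1)) τ :=
    ((hasDerivAt_id τ).const_mul ν).const_mul _
  exact h1.cexp.congr_deriv (by ring)

/-- every nonzero point of the unit disc is `ee τ` -/
theorem exists_ee_eq {q : ℂ} (hq : q ≠ 0) (h1 : ‖q‖ < 1) : ∃ τ : ℂ, 0 < τ.im ∧ ee τ = q := by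
  refine ⟨Complex.log q / (2 * π * I), ?_, ?_⟩
  · have hpi := Real.pi_pos
    have h2 : Complex.log q / (2 * π * I) = (((2 * π)⁻¹ : ℝ) : ℂ) * (-(I * Complex.log q)) := by
      have : (π : ℂ) ≠ 0 := by exact_mod_cast hpi.ne'
      push_cast
      field_simp
      rw [I_sq]
      ring
    rw [h2, im_ofReal_mul]
    have h3 : (-(I * Complex.log q)).im = -Real.log ‖q‖ := by
      simp [Complex.log_re]
    rw [h3]
    have h4 : Real.log ‖q‖ < 0 := Real.log_neg (norm_pos_iff.mpr hq) h1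
    have : 0 < (2 * π)⁻¹ := by positivity
    nlinarith
  · unfold ee
    rw [mul_div_cancel₀ _ two_pi_I_ne_zero, Complex.exp_log hq]

/-- `D = (2 pi i)⁻¹ d/dτ` -/
def DD (F : ℂ → ℂ) (τ : ℂ) : ℂ := (2 * π * I)⁻¹ * deriv F τ

/-- expansions at the cusp, valid for `|q| < r` -/
structure Rep (r : ℝ) (F : ℂ → ℂ) (ν : ℝ) (Ψ : ℂ → ℂ) : Prop where
  diff : DifferentiableOn ℂ Ψ (ball 0 r)
  eq : ∀ τ : ℂ, 0 < τ.im → ‖ee τ‖ < r → F τ = ee (ν * τ) * Ψ (ee τ)

/-- `D` on expansions -/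
def Dop (ν : ℝ) (Ψ : ℂ → ℂ) (q : ℂ) : ℂ := ν * Ψ q + q * deriv Ψ q

theorem Rep.dd {r : ℝ} {F : ℂ → ℂ} {ν : ℝ} {Ψ : ℂ → ℂ} (h : Rep r F ν Ψ) :
    Rep r (DD F) ν (Dop ν Ψ) := by
  constructor
  · unfold Dop
    exact (h.diff.const_mul _).add (differentiableOn_id.mul (h.diff.deriv isOpen_ball))
  · intro τ hτ hr
    have hcont : Continuous fun τ : ℂ => ‖ee τ‖ := by
      unfold ee
      fun_prop
    have hev : F =ᶠ[𝓝 τ] fun t => ee (ν * t) * Ψ (ee t) := by
      have h1 : ∀ᶠ t : ℂ in 𝓝 τ, 0 < t.im := isOpen_HH.mem_nhds hτ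
      have h2 : ∀ᶠ t : ℂ in 𝓝 τ, ‖ee t‖ < r := hcont.continuousAt.eventually_lt continuousAt_const hr
      filter_upwards [h1, h2] with t ht1 ht2
      exact h.eq t ht1 ht2
    have hd : HasDerivAt (fun t => ee (ν * t) * Ψ (ee t))
        (2 * π * I * ν * ee (ν * τ) * Ψ (ee τ) +
          ee (ν * τ) * (deriv Ψ (ee τ) * (2 * π * I * ee τ))) τ := by
      have h1 := ee_hasDeriv ν τ
      have h2 : HasDerivAt ee (2 * π * I * ee τ) τ := by
        have := ee_hasDeriv 1 τ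
        simpa using this
      have h3 : HasDerivAt Ψ (deriv Ψ (ee τ)) (ee τ) :=
        (h.diff.differentiableAt (isOpen_ball.mem_nhds (by simpa using hr))).hasDerivAt
      exact h1.mul (h3.comp τ h2)
    unfold DD Dop
    rw [hev.deriv_eq, hd.deriv]
    have := two_pi_I_ne_zero
    field_simp

theorem Rep.add {r : ℝ} {F G : ℂ → ℂ} {ν : ℝ} {Ψ Φ : ℂ → ℂ} (h : Rep r F ν Ψ) (h' : Rep r G ν Φ) :
    Rep r (fun τ => F τ + G τ) ν (fun q => Ψ q + Φ q) :=
  ⟨h.diff.add h'.diff, fun τ hτ hr => by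
    rw [h.eq τ hτ hr, h'.eq τ hτ hr]
    ring⟩

theorem Rep.cmul {r : ℝ} {F : ℂ → ℂ} {ν : ℝ} {Ψ : ℂ → ℂ} (h : Rep r F ν Ψ) (c : ℂ) :
    Rep r (fun τ => c * F τ) ν (fun q => c * Ψ q) :=
  ⟨h.diff.const_mul _, fun τ hτ hr => by
    rw [h.eq τ hτ hr]
    ring⟩

theorem Rep.amul {r : ℝ} (hr1 : r ≤ 1) {F a : ℂ → ℂ} {ν : ℝ} {Ψ A : ℂ → ℂ} (h : Rep r F ν Ψ)
    (hA : DifferentiableOn ℂ A (ball 0 1)) (ha : ∀ τ : ℂ, 0 < τ.im → a τ = A (ee τ)) :
    Rep r (fun τ => a τ * F τ) ν (fun q => A q * Ψ q) :=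
  ⟨(hA.mono (ball_subset_ball hr1)).mul h.diff, fun τ hτ hr => by
    rw [h.eq τ hτ hr, ha τ hτ]
    ring⟩

theorem Rep.diffAt {r : ℝ} {F : ℂ → ℂ} {ν : ℝ} {Ψ : ℂ → ℂ} (h : Rep r F ν Ψ) {τ : ℂ}
    (hτ : 0 < τ.im) (hr : ‖ee τ‖ < r) : DifferentiableAt ℂ F τ := by
  have hcont : Continuous fun τ : ℂ => ‖ee τ‖ := by
    unfold ee
    fun_prop
  have hev : F =ᶠ[𝓝 τ] fun t => ee (ν * t) * Ψ (ee t) := by
    have h1 : ∀ᶠ t : ℂ in 𝓝 τ, 0 < t.im := isOpen_HH.mem_nhds hτ
    have h2 : ∀ᶠ t : ℂ in 𝓝 τ, ‖ee t‖ < r := hcont.continuousAt.eventually_lt continuousAt_const hr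
    filter_upwards [h1, h2] with t ht1 ht2
    exact h.eq t ht1 ht2
  refine DifferentiableAt.congr_of_eventuallyEq ?_ hev
  have h1 := (ee_hasDeriv ν τ).differentiableAt
  have h2 : DifferentiableAt ℂ ee τ := by unfold ee; fun_prop
  have h3 : DifferentiableAt ℂ Ψ (ee τ) :=
    h.diff.differentiableAt (isOpen_ball.mem_nhds (by simpa using hr))
  exact h1.mul (h3.comp τ h2)

/-- growth from an expansion -/
theorem Rep.growth {F : ℂ → ℂ} {ν : ℝ} {Ψ : ℂ → ℂ} (h : Rep 1 F ν Ψ) :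
    ∃ C : ℝ, ∀ τ : ℂ, 1 / 2 ≤ τ.im → ‖F τ‖ ≤ C * Real.exp (-(2 * π * ν * τ.im)) := by
  have hr : Real.exp (-π) < 1 := by
    rw [Real.exp_lt_one_iff]
    linarith [Real.pi_pos]
  obtain ⟨C, hC⟩ := (isCompact_closedBall (0 : ℂ) (Real.exp (-π))).exists_bound_of_continuousOn
    (h.diff.continuousOn.mono (closedBall_subset_ball hr))
  refine ⟨C, fun τ hτ => ?_⟩
  have hpos : 0 < τ.im := by linarith
  rw [h.eq τ hpos (norm_ee_lt hpos), norm_mul, norm_ee, mul_comm]
  have h2 : ‖ee τ‖ ≤ Real.exp (-π) := by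
    rw [norm_ee]
    apply Real.exp_le_exp.mpr
    have := Real.pi_pos
    nlinarith
  have h3 := hC (ee τ) (by simpa using h2)
  have h4 : ((ν : ℂ) * τ).im = ν * τ.im := by simp
  rw [h4]
  have h5 : -(2 * π * (ν * τ.im)) = -(2 * π * ν * τ.im) := by ring
  rw [h5]
  exact mul_le_mul_of_nonneg_right h3 (Real.exp_pos _).le

/-- raising the exponent when the constant term vanishes -/
theorem Rep.raise {r : ℝ} (hr0 : 0 < r) {F : ℂ → ℂ} {ν : ℝ} {Ψ : ℂ → ℂ} (h : Rep r F ν Ψ)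
    (h0 : Ψ 0 = 0) : Rep r F (ν + 1) (dslope Ψ 0) := by
  constructor
  · rw [Complex.differentiableOn_dslope (ball_mem_nhds 0 hr0)]
    exact h.diff
  · intro τ hτ hr
    rw [h.eq τ hτ hr]
    have h1 : dslope Ψ 0 (ee τ) = (ee τ)⁻¹ * Ψ (ee τ) := by
      rw [dslope_of_ne _ (ee_ne_zero τ), slope_def_field, h0]
      simp only [sub_zero]
      rw [div_eq_mul_inv, mul_comm]
    rw [h1]
    have h2 : ee (((ν + 1 : ℝ) : ℂ) * τ) = ee (ν * τ) * ee τ := by
      rw [← ee_add]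
      congr 1
      push_cast
      ring
    rw [h2]
    field_simp [ee_ne_zero τ]

/-- existence of expansions -/
theorem exists_rep {F : ℂ → ℂ} (hF : DifferentiableOn ℂ F HH) {θ : ℝ}
    (hT : ∀ τ : ℂ, 0 < τ.im → F (τ + 1) = ee θ * F τ) {C B : ℝ}
    (hB : ∀ τ : ℂ, 1 / 2 ≤ τ.im → ‖F τ‖ ≤ C * Real.exp (2 * π * B * τ.im)) {ν : ℝ}
    (hν : ∃ n : ℤ, ν = θ + n) (hνB : ν < -B + 1) : ∃ Ψ, Rep 1 F ν Ψ := by
  classical
  have hpi := Real.pi_pos
  obtain ⟨n, hn⟩ := hν
  set ν' : ℝ := ν - 1 with hν'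
  set f : ℂ → ℂ := fun z => if 0 < z.im then F z * ee (-(ν' * z)) else 0 with hf
  have hper : Function.Periodic f ((1 : ℝ) : ℂ) := by
    intro z
    simp only [hf]
    have him : (z + ((1 : ℝ) : ℂ)).im = z.im := by simp
    rw [him]
    split_ifs with hz
    · rw [ofReal_one, hT z hz]
      have e1 : ee (-(ν' * (z + 1))) = ee (-(ν' * z)) * ee (-θ) := by
        have : -((ν' : ℂ) * (z + 1)) = -(ν' * z) + -θ + ((1 - n : ℤ) : ℂ) := by
          rw [hν', hn]
          push_cast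
          ring
        rw [this, ee_add, ee_add, ee_int, mul_one]
      rw [e1]
      have e2 : ee (θ : ℂ) * ee (-(θ : ℂ)) = 1 := by rw [← ee_add, add_neg_cancel, ee_zero]
      calc ee (θ : ℂ) * F z * (ee (-(ν' * z)) * ee (-(θ : ℂ))) =
          (ee (θ : ℂ) * ee (-(θ : ℂ))) * (F z * ee (-(ν' * z))) := by ring
        _ = _ := by rw [e2, one_mul]
    · rfl
  have hdiff : ∀ z : ℂ, 0 < z.im → DifferentiableAt ℂ f z := by
    intro z hz
    have hev : f =ᶠ[𝓝 z] fun z => F z * ee (-(ν' * z)) := by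
      filter_upwards [isOpen_HH.mem_nhds hz] with w hw
      simp only [hf]
      rw [if_pos (show 0 < w.im from hw)]
    refine DifferentiableAt.congr_of_eventuallyEq ?_ hev
    have h1 : DifferentiableAt ℂ F z := hF.differentiableAt (isOpen_HH.mem_nhds hz)
    have h2 : DifferentiableAt ℂ (fun z => ee (-(ν' * z))) z := by
      unfold ee
      fun_prop
    exact h1.mul h2
  -- decay
  have hzero : ZeroAtFilter (comap im atTop) f := by
    unfold ZeroAtFilter
    rw [tendsto_zero_iff_norm_tendsto_zero]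
    have hlim : Tendsto (fun v : ℝ => |C| * Real.exp (2 * π * (B + ν') * v)) atTop (𝓝 0) := by
      have h1 : Tendsto (fun v : ℝ => Real.exp (2 * π * (B + ν') * v)) atTop (𝓝 0) := by
        apply Real.tendsto_exp_atBot.comp
        refine tendsto_id.const_mul_atTop_of_neg ?_
        have : B + ν' < 0 := by rw [hν']; linarith
        nlinarith
      simpa using h1.const_mul |C|
    refine squeeze_zero' (Eventually.of_forall fun z => norm_nonneg _) ?_
      (hlim.comp tendsto_comap)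
    have h1 : ∀ᶠ z : ℂ in comap im atTop, 1 / 2 ≤ z.im :=
      (eventually_ge_atTop (1 / 2 : ℝ)).comap im
    filter_upwards [h1] with z hz
    have hz0 : 0 < z.im := by linarith
    simp only [hf, Function.comp_apply]
    rw [if_pos hz0, norm_mul, norm_ee]
    have e1 : (-((ν' : ℂ) * z)).im = -(ν' * z.im) := by simp
    rw [e1]
    calc ‖F z‖ * Real.exp (-(2 * π * -(ν' * z.im))) ≤
        (|C| * Real.exp (2 * π * B * z.im)) * Real.exp (-(2 * π * -(ν' * z.im))) := by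
          gcongr
          refine (hB z hz).trans ?_
          gcongr
          exact le_abs_self _
      _ = |C| * Real.exp (2 * π * (B + ν') * z.im) := by
          rw [mul_assoc, ← Real.exp_add]
          congr 2
          ring
  have hhol : ∀ᶠ z in comap im atTop, DifferentiableAt ℂ f z := by
    have h1 : ∀ᶠ z : ℂ in comap im atTop, 0 < z.im := (eventually_gt_atTop (0 : ℝ)).comap im
    filter_upwards [h1] with z hz using hdiff z hz
  set Φ := Function.Periodic.cuspFunction 1 f with hΦ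
  have hΦ0 : Φ 0 = 0 := Function.Periodic.cuspFunction_zero_of_zero_at_inf one_pos hzero
  have hq : ∀ z : ℂ, Function.Periodic.qParam 1 z = ee z := by
    intro z
    unfold Function.Periodic.qParam ee
    congr 1
    push_cast
    ring
  have hrep : Rep 1 F ν' Φ := by
    constructor
    · intro q hqb
      by_cases hq0 : q = 0
      · rw [hq0]
        exact (Function.Periodic.differentiableAt_cuspFunction_zero one_pos hper hhol
          hzero.boundedAtFilter).differentiableWithinAt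
      · obtain ⟨τ, hτ, rfl⟩ := exists_ee_eq hq0 (by simpa using hqb)
        have := Function.Periodic.differentiableAt_cuspFunction one_ne_zero hper (hdiff τ hτ)
        rw [hq] at this
        exact this.differentiableWithinAt
    · intro τ hτ _
      have h1 := Function.Periodic.eq_cuspFunction one_ne_zero hper τ
      rw [hq] at h1
      rw [hΦ, h1]
      simp only [hf]
      rw [if_pos hτ]
      have e2 : ee ((ν' : ℂ) * τ) * ee (-((ν' : ℂ) * τ)) = 1 := by
        rw [← ee_add, add_neg_cancel, ee_zero]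
      calc F τ = (ee ((ν' : ℂ) * τ) * ee (-((ν' : ℂ) * τ))) * F τ := by rw [e2, one_mul]
        _ = _ := by ring
  have := hrep.raise one_pos hΦ0
  have e : ν' + 1 = ν := by rw [hν']; ring
  rw [e] at this
  exact ⟨_, this⟩

end

end Pool.Agent.W2helper33.RL
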