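import Pool.Agent.W2helper33.RL.Ode1
import Pool.Agent.W2helper33.RL.Eich

set_option autoImplicit false

/-!
# RL: the functions of weight 2 and 4, and the Serre derivative
-/

open MeasureTheory Complex Set Topology Filter Metric

namespace Pool.Agent.W2helper33.RL

open Pool.Agent.Y813.RL

noncomputable section

open scoped Real

/-- the Euler product -/
def PP (q : ℂ) : ℂ := ∏' n : ℕ, (1 - q ^ (n + 1))

theorem PP_diff : DifferentiableOn ℂ PP (ball 0 1) := ModularForm.differentiableOn_tprod_one_sub_pow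

theorem eta_eq (τ : ℂ) : ModularForm.eta τ = Function.Periodic.qParam 24 τ * PP (ee τ) := by
  unfold ModularForm.eta PP
  congr 1
  apply tprod_congr
  intro n
  have : ModularForm.eta_q n τ = ee τ ^ (n + 1) := by
    rw [ModularForm.eta_q_eq_pow]
    rfl
  rw [this]

theorem PP_zero : PP 0 = 1 := by
  unfold PP
  simp

theorem PP_ne {q : ℂ} (hq : q ∈ ball (0 : ℂ) 1) : PP q ≠ 0 := by
  by_cases hq0 : q = 0
  · rw [hq0, PP_zero]
    exact one_ne_zero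
  · obtain ⟨τ, hτ, rfl⟩ := exists_ee_eq hq0 (by simpa using hq)
    have h := ModularForm.eta_ne_zero (show τ ∈ UpperHalfPlane.upperHalfPlaneSet from hτ)
    rw [eta_eq] at h
    exact right_ne_zero_of_mul h

/-- weight 2 -/
def AA (q : ℂ) : ℂ := 1 + 24 * (q * deriv PP q) / PP q

theorem AA_diff : DifferentiableOn ℂ AA (ball 0 1) := by
  unfold AA
  have h1 := PP_diff.deriv isOpen_ball
  exact (((differentiableOn_id.mul h1).const_mul _).div PP_diff (fun q hq => PP_ne hq)).const_add _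

theorem AA_zero : AA 0 = 1 := by
  unfold AA
  simp

/-- weight 4 -/
def BB (q : ℂ) : ℂ := AA q ^ 2 - 12 * Dop 0 AA q

theorem BB_diff : DifferentiableOn ℂ BB (ball 0 1) := by
  unfold BB Dop
  have h1 := AA_diff.deriv isOpen_ball
  exact (AA_diff.pow 2).sub (((AA_diff.const_mul _).add (differentiableOn_id.mul h1)).const_mul _)

theorem BB_zero : BB 0 = 1 := by
  unfold BB Dop
  rw [AA_zero]
  simp

def e2 (τ : ℂ) : ℂ := AA (ee τ)

def e4 (τ : ℂ) : ℂ := BB (ee τ)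

theorem e2_rep : Rep 1 e2 0 AA := ⟨AA_diff, fun τ _ _ => by
  unfold e2
  simp [ee_zero]⟩

theorem e4_eq {τ : ℂ} (hτ : 0 < τ.im) : e4 τ = e2 τ ^ 2 - 12 * DD e2 τ := by
  have h := e2_rep.dd.eq τ hτ (norm_ee_lt hτ)
  rw [h]
  unfold e4 e2 BB
  simp [ee_zero]

/-- the discriminant -/
def Dl (τ : ℂ) : ℂ := ModularForm.eta τ ^ 24

theorem qParam24 (τ : ℂ) : Function.Periodic.qParam 24 τ ^ 24 = ee τ := by
  unfold Function.Periodic.qParam ee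
  rw [← Complex.exp_nat_mul]
  congr 1
  push_cast
  ring

theorem Dl_ne {τ : ℂ} (hτ : 0 < τ.im) : Dl τ ≠ 0 :=
  pow_ne_zero _ (ModularForm.eta_ne_zero (show τ ∈ UpperHalfPlane.upperHalfPlaneSet from hτ))

theorem Dl_diffAt {τ : ℂ} (hτ : 0 < τ.im) : DifferentiableAt ℂ Dl τ :=
  (ModularForm.differentiableAt_eta_of_mem_upperHalfPlaneSet
    (show τ ∈ UpperHalfPlane.upperHalfPlaneSet from hτ)).pow 24

theorem Dl_rep : Rep 1 Dl 1 (fun q => PP q ^ 24) := ⟨PP_diff.pow 24, fun τ _ _ => by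
  unfold Dl
  rw [eta_eq, mul_pow, qParam24]
  simp⟩

theorem DD_Dl {τ : ℂ} (hτ : 0 < τ.im) : DD Dl τ = e2 τ * Dl τ := by
  have hr := norm_ee_lt hτ
  have hb : ee τ ∈ ball (0 : ℂ) 1 := by simpa using hr
  rw [Dl_rep.dd.eq τ hτ hr, Dl_rep.eq τ hτ hr]
  have h1 : deriv (fun q => PP q ^ 24) (ee τ) = 24 * PP (ee τ) ^ 23 * deriv PP (ee τ) := by
    have := (PP_diff.differentiableAt (isOpen_ball.mem_nhds hb)).hasDerivAt.fun_pow 24
    rw [this.deriv]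
    norm_num
  unfold Dop e2 AA
  rw [h1]
  have h2 := PP_ne hb
  field_simp
  push_cast
  ring

theorem tau_ne' {τ : ℂ} (hτ : 0 < τ.im) : τ ≠ 0 := by
  rintro rfl
  simp at hτ

theorem Dl_S {τ : ℂ} (hτ : 0 < τ.im) : Dl (-1 / τ) = τ ^ 12 * Dl τ := by
  have h := ModularForm.eta_comp_eq_csqrt_I_inv (show τ ∈ UpperHalfPlane.upperHalfPlaneSet from hτ)
  simp only [Function.comp_apply, Pi.smul_apply, Pi.mul_apply, smul_eq_mul] at h
  have hs : ∀ z : ℂ, z ≠ 0 → Complex.sqrt z ^ 24 = z ^ 12 := by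
    intro z hz
    unfold Complex.sqrt
    rw [← Complex.cpow_nat_mul]
    norm_num
  unfold Dl
  rw [h, mul_pow, mul_pow, inv_pow, hs _ I_ne_zero, hs _ (tau_ne' hτ)]
  have : I ^ 12 = 1 := by
    rw [show 12 = 4 * 3 from rfl, pow_mul, I_pow_four, one_pow]
  rw [this, inv_one, one_mul]

theorem hasDeriv_inv {τ : ℂ} (hτ : 0 < τ.im) : HasDerivAt (fun t : ℂ => -1 / t) (1 / τ ^ 2) τ := by
  have h0 := tau_ne' hτ
  have h1 := (hasDerivAt_inv h0).neg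
  have h2 : (fun t : ℂ => -1 / t) = fun t => -t⁻¹ := by
    funext t
    rw [neg_div, one_div]
  rw [h2]
  exact h1.congr_deriv (by rw [neg_neg, one_div])

theorem hasDeriv_comp {G : ℂ → ℂ} {τ : ℂ} (hτ : 0 < τ.im) (hG : DifferentiableAt ℂ G (-1 / τ)) :
    HasDerivAt (fun t : ℂ => G (-1 / t)) (deriv G (-1 / τ) * (1 / τ ^ 2)) τ :=
  hG.hasDerivAt.comp τ (hasDeriv_inv hτ)

theorem deriv_eq_DD (G : ℂ → ℂ) (τ : ℂ) : deriv G τ = 2 * π * I * DD G τ := by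
  unfold DD
  have := two_pi_I_ne_zero
  field_simp

theorem e2_S {τ : ℂ} (hτ : 0 < τ.im) : e2 (-1 / τ) = τ ^ 2 * e2 τ + 12 * τ / (2 * π * I) := by
  have h0 := tau_ne' hτ
  have hτ' : 0 < (-1 / τ).im := im_neg_inv hτ
  have hev : (fun t : ℂ => Dl (-1 / t)) =ᶠ[𝓝 τ] fun t => t ^ 12 * Dl t := by
    filter_upwards [isOpen_HH.mem_nhds hτ] with t ht using Dl_S ht
  have h1 := (hasDeriv_comp hτ (Dl_diffAt hτ')).deriv
  have h2 : HasDerivAt (fun t => t ^ 12 * Dl t) (12 * τ ^ 11 * Dl τ + τ ^ 12 * deriv Dl τ) τ := by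
    have := (hasDerivAt_pow 12 τ).mul (Dl_diffAt hτ).hasDerivAt
    exact this.congr_deriv (by norm_num)
  rw [hev.deriv_eq, h2.deriv, deriv_eq_DD, deriv_eq_DD, DD_Dl hτ', DD_Dl hτ, Dl_S hτ] at h1
  have h3 := Dl_ne hτ
  have h4 := two_pi_I_ne_zero
  have h5 : 12 * τ ^ 11 + τ ^ 12 * (2 * π * I * e2 τ) =
      2 * π * I * (e2 (-1 / τ) * τ ^ 12) * (1 / τ ^ 2) := by
    have : Dl τ * (12 * τ ^ 11 + τ ^ 12 * (2 * π * I * e2 τ)) =
        Dl τ * (2 * π * I * (e2 (-1 / τ) * τ ^ 12) * (1 / τ ^ 2)) := by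
      linear_combination h1
    exact mul_left_cancel₀ h3 this
  have h6 : 2 * π * I * (e2 (-1 / τ) * τ ^ 12) * (1 / τ ^ 2) =
      2 * π * I * e2 (-1 / τ) * τ ^ 10 := by
    field_simp
  rw [h6] at h5
  have h7 : (2 * π * I * τ ^ 10) * e2 (-1 / τ) =
      (2 * π * I * τ ^ 10) * (τ ^ 2 * e2 τ + 12 * τ / (2 * π * I)) := by
    have e : (2 * π * I * τ ^ 10) * (τ ^ 2 * e2 τ + 12 * τ / (2 * π * I)) =
        12 * τ ^ 11 + τ ^ 12 * (2 * π * I * e2 τ) := by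
      field_simp
      ring
    rw [e, h5]
    ring
  exact mul_left_cancel₀ (mul_ne_zero h4 (pow_ne_zero _ h0)) h7

theorem e2_diffAt {τ : ℂ} (hτ : 0 < τ.im) : DifferentiableAt ℂ e2 τ :=
  e2_rep.diffAt hτ (norm_ee_lt hτ)

theorem e4_S {τ : ℂ} (hτ : 0 < τ.im) : e4 (-1 / τ) = τ ^ 4 * e4 τ := by
  have h0 := tau_ne' hτ
  have hτ' : 0 < (-1 / τ).im := im_neg_inv hτ
  have hev : (fun t : ℂ => e2 (-1 / t)) =ᶠ[𝓝 τ] fun t => t ^ 2 * e2 t + 12 * t / (2 * π * I) := by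
    filter_upwards [isOpen_HH.mem_nhds hτ] with t ht using e2_S ht
  have h1 := (hasDeriv_comp hτ (e2_diffAt hτ')).deriv
  have h2 : HasDerivAt (fun t => t ^ 2 * e2 t + 12 * t / (2 * π * I))
      ((2 * τ * e2 τ + τ ^ 2 * deriv e2 τ) + 12 / (2 * π * I)) τ := by
    have h3 := (hasDerivAt_pow 2 τ).mul (e2_diffAt hτ).hasDerivAt
    have h4 : HasDerivAt (fun t : ℂ => 12 * t / (2 * π * I)) (12 / (2 * π * I)) τ := by
      have := ((hasDerivAt_id τ).const_mul (12 : ℂ)).div_const (2 * π * I)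
      exact this.congr_deriv (by ring)
    exact (h3.add h4).congr_deriv (by norm_num)
  rw [hev.deriv_eq, h2.deriv, deriv_eq_DD, deriv_eq_DD] at h1
  have h4 := two_pi_I_ne_zero
  rw [e4_eq hτ', e4_eq hτ, e2_S hτ]
  set P : ℂ := 2 * π * I with hP
  have h5 : DD e2 (-1 / τ) = τ ^ 2 * (2 * τ * e2 τ / P + τ ^ 2 * DD e2 τ + 12 / P ^ 2) := by
    have h6 : P * DD e2 (-1 / τ) * (1 / τ ^ 2) * (τ ^ 2 / P) = DD e2 (-1 / τ) := by
      field_simp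
    rw [← h6, ← h1]
    field_simp
  rw [h5]
  field_simp
  ring

/-- the Serre derivative of weight `-w` -/
def Sd (w : ℕ) (F : ℂ → ℂ) (τ : ℂ) : ℂ := DD F τ + (w / 12 : ℂ) * (e2 τ * F τ)

theorem serre {ι : Type*} (R : Finset ι) (M : ι → ℂ) (u : ℕ) (F : ι → ℂ → ℂ) (G : ℂ → ℂ)
    (hF : ∀ ρ, DifferentiableOn ℂ (F ρ) HH) (hG : DifferentiableOn ℂ G HH)
    (h : ∀ τ : ℂ, 0 < τ.im → τ ^ (u + 2) * G (-1 / τ) = ∑ ρ ∈ R, M ρ * F ρ τ) :
    ∀ τ : ℂ, 0 < τ.im → τ ^ u * Sd (u + 2) G (-1 / τ) = ∑ ρ ∈ R, M ρ * Sd (u + 2) (F ρ) τ := by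
  intro τ hτ
  have h0 := tau_ne' hτ
  have hτ' : 0 < (-1 / τ).im := im_neg_inv hτ
  have hev : (fun t : ℂ => t ^ (u + 2) * G (-1 / t)) =ᶠ[𝓝 τ] fun t => ∑ ρ ∈ R, M ρ * F ρ t := by
    filter_upwards [isOpen_HH.mem_nhds hτ] with t ht using h t ht
  have hGd : DifferentiableAt ℂ G (-1 / τ) := hG.differentiableAt (isOpen_HH.mem_nhds hτ')
  have h1 : HasDerivAt (fun t : ℂ => t ^ (u + 2) * G (-1 / t))
      (((u + 2 : ℕ) : ℂ) * τ ^ (u + 1) * G (-1 / τ) + τ ^ (u + 2) * (deriv G (-1 / τ) * (1 / τ ^ 2)))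
      τ := by
    have := (hasDerivAt_pow (u + 2) τ).mul (hasDeriv_comp hτ hGd)
    exact this.congr_deriv (by simp)
  have h2 : HasDerivAt (fun t => ∑ ρ ∈ R, M ρ * F ρ t) (∑ ρ ∈ R, M ρ * deriv (F ρ) τ) τ := by
    refine HasDerivAt.fun_sum fun ρ _ => ?_
    exact (((hF ρ).differentiableAt (isOpen_HH.mem_nhds hτ)).hasDerivAt).const_mul _
  have h3 := h1.deriv
  rw [hev.deriv_eq, h2.deriv] at h3
  simp only [deriv_eq_DD] at h3
  have h4 := two_pi_I_ne_zero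
  have hs := h τ hτ
  unfold Sd
  rw [e2_S hτ]
  set P : ℂ := 2 * π * I with hP
  have h5 : ∑ ρ ∈ R, M ρ * (DD (F ρ) τ + ((u + 2 : ℕ) / 12 : ℂ) * (e2 τ * F ρ τ)) =
      P⁻¹ * (∑ ρ ∈ R, M ρ * (P * DD (F ρ) τ)) +
        ((u + 2 : ℕ) / 12 : ℂ) * e2 τ * ∑ ρ ∈ R, M ρ * F ρ τ := by
    rw [Finset.mul_sum, Finset.mul_sum, ← Finset.sum_add_distrib]
    refine Finset.sum_congr rfl fun ρ _ => ?_
    field_simp
  rw [h5, h3, ← hs]
  have h6 : P⁻¹ * (((u + 2 : ℕ) : ℂ) * τ ^ (u + 1) * G (-1 / τ) +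
      τ ^ (u + 2) * (P * DD G (-1 / τ) * (1 / τ ^ 2))) =
      P⁻¹ * (((u + 2 : ℕ) : ℂ) * τ ^ (u + 1) * G (-1 / τ)) + τ ^ u * DD G (-1 / τ) := by
    field_simp
    ring
  rw [h6]
  field_simp
  ring

end

end Pool.Agent.W2helper33.RL
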