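import Pool.Agent.W2helper33.RL.Ode2
import Pool.Agent.W2helper33.RL.Top

set_option autoImplicit false

/-!
# RL: the second order equation
-/

open MeasureTheory Complex Set Topology Filter Metric

namespace Pool.Agent.W2helper33.RL

open Pool.Agent.Y813.RL

noncomputable section

open scoped Real

/-- the Serre derivative on expansions -/
def SdO (w : ℕ) (ν : ℝ) (Ψ : ℂ → ℂ) (q : ℂ) : ℂ := Dop ν Ψ q + (w / 12 : ℂ) * (AA q * Ψ q)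

theorem Rep.sd {r : ℝ} (hr1 : r ≤ 1) {F : ℂ → ℂ} {ν : ℝ} {Ψ : ℂ → ℂ} (h : Rep r F ν Ψ) (w : ℕ) :
    Rep r (Sd w F) ν (SdO w ν Ψ) :=
  h.dd.add ((h.amul hr1 AA_diff (fun _ _ => rfl)).cmul _)

/-- the operator of second order -/
def Gop (F : ℂ → ℂ) (τ : ℂ) : ℂ := Sd 8 (Sd 10 F) τ + (-(1 / 18) : ℂ) * (e4 τ * F τ)

def GO (ν : ℝ) (Ψ : ℂ → ℂ) (q : ℂ) : ℂ := SdO 8 ν (SdO 10 ν Ψ) q + (-(1 / 18) : ℂ) * (BB q * Ψ q)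

theorem Rep.gop {r : ℝ} (hr1 : r ≤ 1) {F : ℂ → ℂ} {ν : ℝ} {Ψ : ℂ → ℂ} (h : Rep r F ν Ψ) :
    Rep r (Gop F) ν (GO ν Ψ) :=
  ((h.sd hr1 10).sd hr1 8).add ((h.amul hr1 BB_diff (fun _ _ => rfl)).cmul _)

theorem GO_zero (ν : ℝ) (Ψ : ℂ → ℂ) : GO ν Ψ 0 = (ν + 1) * (ν + 1 / 2) * Ψ 0 := by
  unfold GO SdO Dop
  simp only [AA_zero, BB_zero, zero_mul, add_zero, one_mul]
  push_cast
  ring

/-- the indicial equation -/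
theorem Rep.indicial {r : ℝ} (hr0 : 0 < r) (hr1 : r ≤ 1) {F : ℂ → ℂ} {ν : ℝ} {Ψ : ℂ → ℂ}
    (h : Rep r F ν Ψ) (hG : ∀ τ : ℂ, 0 < τ.im → Gop F τ = 0) (h0 : Ψ 0 ≠ 0) :
    ν = -1 ∨ ν = -(1 / 2) := by
  have hg := h.gop hr1
  have hc : ContinuousAt (GO ν Ψ) 0 := (hg.diff.differentiableAt (ball_mem_nhds 0 hr0)).continuousAt
  have hz : ∀ᶠ q in 𝓝[≠] (0 : ℂ), GO ν Ψ q = 0 := by
    have h1 : ∀ᶠ q in 𝓝[≠] (0 : ℂ), q ∈ ball (0 : ℂ) r := mem_nhdsWithin_of_mem_nhds (ball_mem_nhds 0 hr0)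
    have h2 : ∀ᶠ q in 𝓝[≠] (0 : ℂ), q ≠ 0 := self_mem_nhdsWithin
    filter_upwards [h1, h2] with q hq hq0
    have hqr : ‖q‖ < r := by simpa using hq
    obtain ⟨τ, hτ, rfl⟩ := exists_ee_eq hq0 (hqr.trans_le hr1)
    have h3 := hg.eq τ hτ hqr
    rw [hG τ hτ] at h3
    rcases mul_eq_zero.mp h3.symm with h4 | h4
    · exact absurd h4 (ee_ne_zero _)
    · exact h4
  have h3 : GO ν Ψ 0 = 0 := by
    have h4 : Tendsto (GO ν Ψ) (𝓝[≠] 0) (𝓝 (GO ν Ψ 0)) := hc.tendsto.mono_left nhdsWithin_le_nhds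
    have h5 : Tendsto (GO ν Ψ) (𝓝[≠] 0) (𝓝 0) :=
      (tendsto_const_nhds (x := (0 : ℂ))).congr' (by
        filter_upwards [hz] with q hq using hq.symm)
    exact tendsto_nhds_unique h4 h5
  rw [GO_zero] at h3
  rcases mul_eq_zero.mp h3 with h4 | h4
  · rcases mul_eq_zero.mp h4 with h5 | h5
    · left
      have : ((ν + 1 : ℝ) : ℂ) = 0 := by push_cast; exact h5
      have : ν + 1 = 0 := by exact_mod_cast this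
      linarith
    · right
      have : ((ν + 1 / 2 : ℝ) : ℂ) = 0 := by push_cast; exact h5
      have : ν + 1 / 2 = 0 := by exact_mod_cast this
      linarith
  · exact absurd h4 h0

/-- the order of vanishing -/
theorem Rep.order {F : ℂ → ℂ} {ν : ℝ} {Ψ : ℂ → ℂ} (h : Rep 1 F ν Ψ)
    (hne : ∃ τ : ℂ, 0 < τ.im ∧ F τ ≠ 0) :
    ∃ (m : ℕ) (r : ℝ) (Φ : ℂ → ℂ), 0 < r ∧ r ≤ 1 ∧ Rep r F (ν + m) Φ ∧ Φ 0 ≠ 0 ∧
      (m = 0 → Ψ 0 ≠ 0) := by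
  have han : AnalyticOnNhd ℂ Ψ (ball 0 1) := h.diff.analyticOnNhd isOpen_ball
  have h0 : (0 : ℂ) ∈ ball (0 : ℂ) 1 := mem_ball_self one_pos
  have hnz : ¬ ∀ᶠ q in 𝓝 (0 : ℂ), Ψ q = 0 := by
    intro hz
    obtain ⟨τ, hτ, hF⟩ := hne
    apply hF
    have hE := han.eqOn_zero_of_preconnected_of_eventuallyEq_zero
      (convex_ball (0 : ℂ) 1).isPreconnected h0 hz
    rw [h.eq τ hτ (norm_ee_lt hτ), hE (show ee τ ∈ ball (0 : ℂ) 1 by simpa using norm_ee_lt hτ)]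
    simp
  obtain ⟨m, Φ, hΦa, hΦ0, hΦ⟩ := (han 0 h0).exists_eventuallyEq_pow_smul_nonzero_iff.mpr hnz
  have hev := hΦ.and hΦa.eventually_analyticAt
  obtain ⟨ε, hε, hb⟩ := Metric.eventually_nhds_iff_ball.mp hev
  refine ⟨m, min ε 1, Φ, lt_min hε one_pos, min_le_right _ _, ⟨?_, ?_⟩, hΦ0, ?_⟩
  · intro q hq
    have : q ∈ ball (0 : ℂ) ε := ball_subset_ball (min_le_left _ _) hq
    exact (hb q this).2.differentiableAt.differentiableWithinAt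
  · intro τ hτ hr
    have hq : ee τ ∈ ball (0 : ℂ) ε := by
      rw [mem_ball_zero_iff]
      exact hr.trans_le (min_le_left _ _)
    rw [h.eq τ hτ (norm_ee_lt hτ), (hb _ hq).1]
    simp only [sub_zero, smul_eq_mul]
    have e1 : ee (((ν + m : ℝ) : ℂ) * τ) = ee (ν * τ) * ee τ ^ m := by
      rw [← ee_pow, ← ee_add]
      congr 1
      push_cast
      ring
    rw [e1]
    ring
  · intro hm
    have := hΦ.self_of_nhds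
    rw [hm] at this
    simp only [sub_zero, pow_zero, one_smul] at this
    rw [this]
    exact hΦ0

section vvsec

variable {G : Matrix (Fin 20) (Fin 20) ℤ} {R : Finset (Fin 20 → ℤ)}

/-- the matrix of `S` -/
def MS (G : Matrix (Fin 20) (Fin 20) ℤ) (μ ρ : Fin 20 → ℤ) : ℂ :=
  -(1 / (Real.sqrt (G.det : ℝ) : ℂ)) * ee (-(bd G μ ρ : ℂ))

theorem MS_unitary (hdet : 0 < G.det)
    (hU : ∀ a : (Fin 20 → ℤ) → ℂ,
      ∑ μ ∈ R, ‖∑ ρ ∈ R, ee (-(bd G μ ρ : ℂ)) * a ρ‖ ^ 2 = (G.det : ℝ) * ∑ ρ ∈ R, ‖a ρ‖ ^ 2)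
    (a : (Fin 20 → ℤ) → ℂ) :
    ∑ μ ∈ R, ‖∑ ρ ∈ R, MS G μ ρ * a ρ‖ ^ 2 = ∑ ρ ∈ R, ‖a ρ‖ ^ 2 := by
  have hd : (0 : ℝ) < (G.det : ℝ) := by exact_mod_cast hdet
  have h1 : ∀ μ, ‖∑ ρ ∈ R, MS G μ ρ * a ρ‖ ^ 2 =
      (1 / (G.det : ℝ)) * ‖∑ ρ ∈ R, ee (-(bd G μ ρ : ℂ)) * a ρ‖ ^ 2 := by
    intro μ
    have e1 : ∑ ρ ∈ R, MS G μ ρ * a ρ =
        -(1 / (Real.sqrt (G.det : ℝ) : ℂ)) * ∑ ρ ∈ R, ee (-(bd G μ ρ : ℂ)) * a ρ := by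
      rw [Finset.mul_sum]
      refine Finset.sum_congr rfl fun ρ _ => ?_
      unfold MS
      ring
    rw [e1, norm_mul, norm_neg, norm_div, norm_one, mul_pow, Complex.norm_real, div_pow, one_pow,
      Real.norm_of_nonneg (Real.sqrt_nonneg _), Real.sq_sqrt hd.le]
  simp only [h1]
  rw [← Finset.mul_sum, hU a]
  field_simp

/-- the vanishing lemma in the present situation -/
theorem vv_apply (hdet : 0 < G.det)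
    (hU : ∀ a : (Fin 20 → ℤ) → ℂ,
      ∑ μ ∈ R, ‖∑ ρ ∈ R, ee (-(bd G μ ρ : ℂ)) * a ρ‖ ^ 2 = (G.det : ℝ) * ∑ ρ ∈ R, ‖a ρ‖ ^ 2)
    (w : ℕ) (κ : ℝ) (hκ : -(w : ℝ) / 12 < κ) (F : (Fin 20 → ℤ) → ℂ → ℂ)
    (hF : ∀ μ, DifferentiableOn ℂ (F μ) HH)
    (hT : ∀ μ ∈ R, ∀ τ : ℂ, 0 < τ.im → ‖F μ (τ + 1)‖ = ‖F μ τ‖)
    (hS : ∀ μ ∈ R, ∀ τ : ℂ, 0 < τ.im → τ ^ w * F μ (-1 / τ) = ∑ ρ ∈ R, MS G μ ρ * F ρ τ)
    (hg : ∀ μ ∈ R, ∃ C : ℝ, ∀ τ : ℂ, 1 / 2 ≤ τ.im → ‖F μ τ‖ ≤ C * Real.exp (-(2 * π * κ * τ.im))) :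
    ∀ μ ∈ R, ∀ τ : ℂ, 0 < τ.im → F μ τ = 0 := by
  have key := vv R w κ (fun τ (μ : R) => F μ τ) hκ ?_ ?_ ?_ ?_
  · intro μ hμ τ hτ
    exact key τ hτ ⟨μ, hμ⟩
  · rw [differentiableOn_pi]
    intro μ
    exact hF μ
  · intro τ hτ
    refine Finset.sum_congr rfl fun μ _ => ?_
    rw [hT μ μ.2 τ hτ]
  · intro τ hτ
    rw [Finset.sum_coe_sort R (fun μ => ‖F μ (-1 / τ)‖ ^ 2),
      Finset.sum_coe_sort R (fun μ => ‖F μ τ‖ ^ 2), ← MS_unitary hdet hU (fun ρ => F ρ τ),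
      Finset.mul_sum]
    refine Finset.sum_congr rfl fun μ hμ => ?_
    rw [← hS μ hμ τ hτ, norm_mul, norm_pow, mul_pow]
    ring
  · choose! C hC using hg
    refine ⟨∑ μ ∈ R, |C μ|, fun τ hτ μ => ?_⟩
    refine (hC μ μ.2 τ hτ).trans ?_
    refine mul_le_mul_of_nonneg_right ?_ (Real.exp_pos _).le
    refine (le_abs_self _).trans ?_
    exact Finset.single_le_sum (f := fun μ => |C μ|) (fun _ _ => abs_nonneg _) μ.2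

end vvsec

end

end Pool.Agent.W2helper33.RL
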