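import Pool.Agent.W2helper33.RL.Ode3

set_option autoImplicit false

/-!
# RL: the conclusion on the discriminant form (JobODE, given unitarity)
-/

open MeasureTheory Complex Set Topology Filter Metric

namespace Pool.Agent.W2helper33.RL

open Pool.Agent.Y813.RL

noncomputable section

open scoped Real

variable {G : Matrix (Fin 20) (Fin 20) ℤ} {R : Finset (Fin 20 → ℤ)} {f : (Fin 20 → ℤ) → ℂ → ℂ}

/-- the trivial classes -/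
def Tr (G : Matrix (Fin 20) (Fin 20) ℤ) (μ : Fin 20 → ℤ) : Prop := ∃ v : Fin 20 → ℤ, μ = G.mulVec v

theorem neg_inv_inv (τ : ℂ) : -1 / (-1 / τ) = τ := by
  rw [div_div_eq_mul_div]
  simp

theorem S_flip (hV : VV10 G R f) (μ : Fin 20 → ℤ) {τ : ℂ} (hτ : 0 < τ.im) :
    τ ^ 10 * f μ (-1 / τ) = ∑ ρ ∈ R, MS G μ ρ * f ρ τ := by
  have h0 := tau_ne' hτ
  have h1 := hV.S μ (-1 / τ) (im_neg_inv hτ)
  rw [neg_inv_inv] at h1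
  rw [h1]
  have e1 : ∑ ρ ∈ R, MS G μ ρ * f ρ τ =
      -(1 / (Real.sqrt (G.det : ℝ) : ℂ)) * ∑ ρ ∈ R, ee (-(bd G μ ρ : ℂ)) * f ρ τ := by
    rw [Finset.mul_sum]
    refine Finset.sum_congr rfl fun ρ _ => ?_
    unfold MS
    ring
  rw [e1]
  have e2 : (-1 / τ) ^ 10 = (τ ^ 10)⁻¹ := by
    rw [div_pow, div_eq_mul_inv]
    norm_num
  rw [e2]
  have e3 := pow_ne_zero 10 h0
  field_simp

theorem f_tr (hV : VV10 G R f) {μ : Fin 20 → ℤ} (hμ : Tr G μ) {τ : ℂ} (hτ : 0 < τ.im) :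
    f μ τ = f 0 τ := by
  obtain ⟨v, rfl⟩ := hμ
  have := hV.inv 0 v τ hτ
  rwa [zero_add] at this

theorem f0_per (hV : VV10 G R f) {τ : ℂ} (hτ : 0 < τ.im) : f 0 (τ + 1) = f 0 τ := by
  have := hV.T 0 τ hτ
  have e : bd G 0 0 = 0 := by simp [bd]
  rw [e] at this
  simpa [ee_zero] using this

/-- expansions of the components -/
theorem rep_tr (hV : VV10 G R f)
    (hg1 : ∀ μ, ∃ C : ℝ, ∀ τ : ℂ, 1 / 2 ≤ τ.im → ‖f μ τ‖ ≤ C * Real.exp (2 * Real.pi * τ.im))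
    {μ : Fin 20 → ℤ} (hμ : Tr G μ) : ∃ Ψ, Rep 1 (f μ) (-1) Ψ := by
  obtain ⟨C, hC⟩ := hg1 μ
  refine exists_rep (hV.holo μ) (θ := 0) (C := C) (B := 1) ?_ ?_ ⟨-1, by norm_num⟩ (by norm_num)
  · intro τ hτ
    have hτ1 : 0 < (τ + 1).im := by simpa using hτ
    rw [f_tr hV hμ hτ1, f0_per hV hτ, f_tr hV hμ hτ]
    simp [ee_zero]
  · intro τ hτ
    refine (hC τ hτ).trans (le_of_eq ?_)
    ring_nf

theorem rep_ntr (hV : VV10 G R f)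
    (hg2 : ∀ μ, (¬ ∃ v : Fin 20 → ℤ, μ = G.mulVec v) →
      ∃ C : ℝ, ∀ τ : ℂ, 1 / 2 ≤ τ.im → ‖f μ τ‖ ≤ C * Real.exp (Real.pi * τ.im))
    {μ : Fin 20 → ℤ} (hμ : ¬ Tr G μ) :
    ∃ (ν : ℝ) (Ψ : ℂ → ℂ), Rep 1 (f μ) ν Ψ ∧ -(1 / 2) ≤ ν ∧ ∃ n : ℤ, ν = -(bd G μ μ / 2) + n := by
  obtain ⟨C, hC⟩ := hg2 μ hμ
  set θ : ℝ := -(bd G μ μ / 2) with hθ
  set n : ℤ := ⌈-(1 / 2) - θ⌉ with hn
  have h1 : -(1 / 2) - θ ≤ n := Int.le_ceil _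
  have h2 : (n : ℝ) < -(1 / 2) - θ + 1 := Int.ceil_lt_add_one _
  obtain ⟨Ψ, hΨ⟩ := exists_rep (hV.holo μ) (θ := θ) (C := C) (B := 1 / 2) (ν := θ + n) (by
    intro τ hτ
    rw [hV.T μ τ hτ, hθ]
    push_cast
    rfl) (by
    intro τ hτ
    refine (hC τ hτ).trans (le_of_eq ?_)
    ring_nf) ⟨n, rfl⟩ (by linarith)
  exact ⟨_, Ψ, hΨ, by linarith, n, rfl⟩

theorem Rep.norm_T {F : ℂ → ℂ} {ν : ℝ} {Ψ : ℂ → ℂ} (h : Rep 1 F ν Ψ) {τ : ℂ} (hτ : 0 < τ.im) :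
    ‖F (τ + 1)‖ = ‖F τ‖ := by
  have hτ1 : 0 < (τ + 1).im := by simpa using hτ
  have e1 : ee (τ + 1) = ee τ := by
    rw [ee_add]
    have := ee_int 1
    push_cast at this
    rw [this, mul_one]
  rw [h.eq _ hτ1 (norm_ee_lt hτ1), h.eq _ hτ (norm_ee_lt hτ), e1, norm_mul, norm_mul, norm_ee,
    norm_ee]
  simp

/-- the growth of the second order expression -/
theorem gop_growth {F : ℂ → ℂ} {ν : ℝ} {Ψ : ℂ → ℂ} (h : Rep 1 F ν Ψ)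
    (hν : ν = -1 ∨ -(1 / 2) ≤ ν) :
    ∃ κ : ℝ, -(1 / 2) < κ ∧ ∃ C : ℝ, ∀ τ : ℂ, 1 / 2 ≤ τ.im →
      ‖Gop F τ‖ ≤ C * Real.exp (-(2 * π * κ * τ.im)) := by
  have hg := h.gop le_rfl
  by_cases hc : ν = -1 ∨ ν = -(1 / 2)
  · have h0 : GO ν Ψ 0 = 0 := by
      rw [GO_zero]
      rcases hc with rfl | rfl <;> push_cast <;> ring
    refine ⟨ν + 1, ?_, (hg.raise one_pos h0).growth⟩
    rcases hc with rfl | rfl <;> norm_num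
  · refine ⟨ν, ?_, hg.growth⟩
    push Not at hc
    rcases hν with h1 | h1
    · exact absurd h1 hc.1
    · exact lt_of_le_of_ne h1 (Ne.symm hc.2)

theorem Sd_diff {F : ℂ → ℂ} (hF : DifferentiableOn ℂ F HH) (w : ℕ) :
    DifferentiableOn ℂ (Sd w F) HH := by
  unfold Sd DD
  have h2 : DifferentiableOn ℂ e2 HH := fun τ hτ => (e2_diffAt hτ).differentiableWithinAt
  exact ((hF.deriv isOpen_HH).const_mul _).add ((h2.mul hF).const_mul _)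

theorem e4_diff : DifferentiableOn ℂ e4 HH := by
  intro τ hτ
  have h1 : DifferentiableAt ℂ BB (ee τ) :=
    BB_diff.differentiableAt (isOpen_ball.mem_nhds (by simpa using norm_ee_lt hτ))
  have h2 : DifferentiableAt ℂ ee τ := by unfold ee; fun_prop
  exact (h1.comp τ h2).differentiableWithinAt

theorem Gop_diff {F : ℂ → ℂ} (hF : DifferentiableOn ℂ F HH) : DifferentiableOn ℂ (Gop F) HH := by
  unfold Gop
  exact (Sd_diff (Sd_diff hF 10) 8).add ((e4_diff.mul hF).const_mul _)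

theorem Gop_S (hV : VV10 G R f) (μ : Fin 20 → ℤ) {τ : ℂ} (hτ : 0 < τ.im) :
    τ ^ 6 * Gop (f μ) (-1 / τ) = ∑ ρ ∈ R, MS G μ ρ * Gop (f ρ) τ := by
  have h1 := serre R (MS G μ) 8 f (f μ) hV.holo (hV.holo μ) (fun τ hτ => S_flip hV μ hτ)
  have h2 := serre R (MS G μ) 6 (fun ρ => Sd 10 (f ρ)) (Sd 10 (f μ))
    (fun ρ => Sd_diff (hV.holo ρ) 10) (Sd_diff (hV.holo μ) 10) h1 τ hτ
  have h3 := S_flip hV μ hτ
  unfold Gop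
  simp only [mul_add, Finset.sum_add_distrib]
  have e1 : τ ^ 6 * Sd 8 (Sd 10 (f μ)) (-1 / τ) = ∑ ρ ∈ R, MS G μ ρ * Sd 8 (Sd 10 (f ρ)) τ := h2
  rw [e1]
  congr 1
  rw [e4_S hτ]
  calc τ ^ 6 * (-(1 / 18) * (τ ^ 4 * e4 τ * f μ (-1 / τ))) =
      -(1 / 18) * e4 τ * (τ ^ 10 * f μ (-1 / τ)) := by ring
    _ = _ := by
      rw [h3, Finset.mul_sum]
      exact Finset.sum_congr rfl fun ρ _ => by ring

/-- the main point: the second order equation -/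
theorem gop_zero (hV : VV10 G R f) (hdet : 0 < G.det)
    (hU : ∀ a : (Fin 20 → ℤ) → ℂ,
      ∑ μ ∈ R, ‖∑ ρ ∈ R, ee (-(bd G μ ρ : ℂ)) * a ρ‖ ^ 2 = (G.det : ℝ) * ∑ ρ ∈ R, ‖a ρ‖ ^ 2)
    (hg1 : ∀ μ, ∃ C : ℝ, ∀ τ : ℂ, 1 / 2 ≤ τ.im → ‖f μ τ‖ ≤ C * Real.exp (2 * Real.pi * τ.im))
    (hg2 : ∀ μ, (¬ ∃ v : Fin 20 → ℤ, μ = G.mulVec v) →
      ∃ C : ℝ, ∀ τ : ℂ, 1 / 2 ≤ τ.im → ‖f μ τ‖ ≤ C * Real.exp (Real.pi * τ.im)) :
    ∀ μ ∈ R, ∀ τ : ℂ, 0 < τ.im → Gop (f μ) τ = 0 := by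
  have hrep : ∀ μ, ∃ (ν : ℝ) (Ψ : ℂ → ℂ), Rep 1 (f μ) ν Ψ ∧ (ν = -1 ∨ -(1 / 2) ≤ ν) := by
    intro μ
    by_cases hμ : Tr G μ
    · obtain ⟨Ψ, hΨ⟩ := rep_tr hV hg1 hμ
      exact ⟨_, Ψ, hΨ, Or.inl rfl⟩
    · obtain ⟨ν, Ψ, hΨ, h1, _⟩ := rep_ntr hV hg2 hμ
      exact ⟨_, Ψ, hΨ, Or.inr h1⟩
  choose ν Ψ hΨ hν using hrep
  have hgr := fun μ => gop_growth (hΨ μ) (hν μ)
  choose κ hκ C hC using hgr
  obtain ⟨κ0, hκ0, hκ1⟩ : ∃ κ0 : ℝ, -(1 / 2) < κ0 ∧ ∀ μ ∈ R, κ0 ≤ κ μ := by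
    rcases R.eq_empty_or_nonempty with hE | hE
    · exact ⟨0, by norm_num, fun μ hμ => by rw [hE] at hμ; exact absurd hμ (Finset.notMem_empty _)⟩
    · obtain ⟨μ0, hμ0, hmin⟩ := R.exists_min_image κ hE
      exact ⟨κ μ0, hκ μ0, hmin⟩
  refine vv_apply hdet hU 6 κ0 (by norm_num; linarith) (fun μ => Gop (f μ))
    (fun μ => Gop_diff (hV.holo μ)) ?_ (fun μ _ τ hτ => Gop_S hV μ hτ) ?_
  · intro μ _ τ hτ
    exact ((hΨ μ).gop le_rfl).norm_T hτ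
  · intro μ hμ
    refine ⟨|C μ|, fun τ hτ => (hC μ τ hτ).trans ?_⟩
    have hpi := Real.pi_pos
    refine mul_le_mul (le_abs_self _) (Real.exp_le_exp.mpr ?_) (Real.exp_pos _).le (abs_nonneg _)
    have h1 : 0 ≤ (κ μ - κ0) * τ.im := mul_nonneg (by linarith [hκ1 μ hμ]) (by linarith)
    nlinarith

end

end Pool.Agent.W2helper33.RL
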