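import Pool.Agent.W2helper33.RL.Cube
import Pool.Agent.W2helper33.RL.Eich

set_option autoImplicit false

/-!
# THETA1: Fourier expansion of Jacobi forms
-/

namespace Pool.Agent.W2helper33.RL

open Set Topology MeasureTheory Filter
open Pool.Agent.Y813.RL
open Pool.Agent.H239R2.Flat (ch)

noncomputable section

variable {A : Matrix (Fin 20) (Fin 20) ℤ} {c : ℂ → (Fin 20 → ℂ) → ℂ}

theorem ch_ee (x : ℝ) : ch x = ee (x : ℂ) := rfl

theorem ee_diff' : Differentiable ℂ ee := by unfold ee; fun_prop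

theorem dt_diff (μ : Fin 20 → ℤ) : Differentiable ℂ fun z : Fin 20 → ℂ => dt μ z := by
  unfold dt
  fun_prop

theorem vol_Icc : (volume : Measure (Fin 20 → ℝ)) (Set.Icc 0 1) = 1 := by
  have := Real.volume_Icc_pi (a := (0 : Fin 20 → ℝ)) (b := 1)
  rw [this]
  simp

/-- the integrand is periodic -/
theorem integrand_per (hJ : JacobiZero A c) (μ : Fin 20 → ℤ) {τ : ℂ} (hτ : 0 < τ.im)
    (w : Fin 20 → ℂ) (x : Fin 20 → ℝ) (v : Fin 20 → ℤ) :
    c τ (fun i => w i + (((fun i => x i + (v i : ℝ)) i : ℝ) : ℂ)) *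
      ee (-(dt μ fun i => w i + (((fun i => x i + (v i : ℝ)) i : ℝ) : ℂ))) =
    c τ (fun i => w i + (x i : ℂ)) * ee (-(dt μ fun i => w i + (x i : ℂ))) := by
  have e1 : (fun i => w i + (((fun i => x i + (v i : ℝ)) i : ℝ) : ℂ)) =
      fun i => (fun i => w i + (x i : ℂ)) i + (v i : ℂ) := by
    funext i
    push_cast
    ring
  rw [e1, hJ.perz τ _ v hτ]
  congr 1
  have e2 : (fun i => (fun i => w i + (x i : ℂ)) i + (v i : ℂ)) =
      (fun i => w i + (x i : ℂ)) + fun i => (v i : ℂ) := rfl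
  rw [e2, dt_add, dt_intCast, neg_add, ee_add]
  have e3 : ee (-((dt μ v : ℤ) : ℂ)) = 1 := by
    have := ee_int (-(dt μ v))
    push_cast at this
    exact this
  rw [e3, mul_one]

theorem c_slice_diff (hJ : JacobiZero A c) {τ : ℂ} (hτ : 0 < τ.im) :
    Differentiable ℂ fun z : Fin 20 → ℂ => c τ z := by
  intro z
  have h1 : DifferentiableAt ℂ (fun p : ℂ × (Fin 20 → ℂ) => c p.1 p.2) (τ, z) :=
    (hJ.holo (τ, z) hτ).differentiableAt
      ((isOpen_lt continuous_const (by fun_prop : Continuous fun p : ℂ × (Fin 20 → ℂ) => p.1.im)).mem_nhds hτ)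
  exact DifferentiableAt.comp (g := fun p : ℂ × (Fin 20 → ℂ) => c p.1 p.2) (f := fun z => (τ, z)) z
    h1 (by fun_prop)

/-- **shift of the contour** -/
theorem fc_shift (hJ : JacobiZero A c) (μ : Fin 20 → ℤ) {τ : ℂ} (hτ : 0 < τ.im)
    (w : Fin 20 → ℂ) :
    fc c μ τ = ∫ y in Set.Icc (0 : Fin 20 → ℝ) 1, c τ (fun i => w i + (y i : ℂ)) *
      ee (-(dt μ (fun i => w i + (y i : ℂ)))) := by
  set I : (Fin 20 → ℂ) → ℂ := fun w => ∫ y in Set.Icc (0 : Fin 20 → ℝ) 1,
    c τ (fun i => w i + (y i : ℂ)) * ee (-(dt μ (fun i => w i + (y i : ℂ)))) with hI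
  have hf : Differentiable ℂ fun z : Fin 20 → ℂ => c τ z * ee (-(dt μ z)) :=
    (c_slice_diff hJ hτ).mul (ee_diff'.comp (dt_diff μ).neg)
  have hd : Differentiable ℂ I := by
    rw [← differentiableOn_univ]
    refine differentiableOn_setIntegral volume (K := Set.Icc (0 : Fin 20 → ℝ) 1) isCompact_Icc
      measurableSet_Icc (by rw [vol_Icc]; exact ENNReal.one_lt_top) isOpen_univ
      (f := fun (w : Fin 20 → ℂ) (y : Fin 20 → ℝ) => c τ (fun i => w i + (y i : ℂ)) *
        ee (-(dt μ (fun i => w i + (y i : ℂ))))) ?_ ?_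
    · have h1 : Continuous fun q : (Fin 20 → ℂ) × (Fin 20 → ℝ) =>
          (fun z : Fin 20 → ℂ => c τ z * ee (-(dt μ z))) (fun i => q.1 i + (q.2 i : ℂ)) :=
        hf.continuous.comp (by fun_prop)
      exact h1.continuousOn
    · intro y _
      have h1 : Differentiable ℂ fun w : Fin 20 → ℂ =>
          (fun z : Fin 20 → ℂ => c τ z * ee (-(dt μ z))) (fun i => w i + (y i : ℂ)) :=
        hf.comp (f := fun w : Fin 20 → ℂ => fun i => w i + (y i : ℂ)) (by fun_prop)
      exact h1.differentiableOn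
  have hr : ∀ (w : Fin 20 → ℂ) (r : Fin 20 → ℝ), I (fun i => w i + (r i : ℂ)) = I w := by
    intro w r
    have h1 := cube_translate (f := fun x : Fin 20 → ℝ => c τ (fun i => w i + (x i : ℂ)) *
      ee (-(dt μ fun i => w i + (x i : ℂ)))) (fun x v => integrand_per hJ μ hτ w x v) r
    rw [hI]
    simp only
    rw [← h1]
    congr 1
    funext x
    have e1 : (fun i => w i + (r i : ℂ) + (x i : ℂ)) = fun i => w i + ((x i + r i : ℝ) : ℂ) := by
      funext i
      push_cast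
      ring
    rw [e1]
  have h2 := const_of_real hd hr 0 w
  have h3 : I 0 = fc c μ τ := by
    rw [hI]
    unfold fc
    simp
  rw [← h3, h2]

/-- holomorphy of the Fourier coefficients -/
theorem fc_diff (hJ : JacobiZero A c) (μ : Fin 20 → ℤ) :
    DifferentiableOn ℂ (fc c μ) {τ | 0 < τ.im} := by
  have hU : IsOpen {τ : ℂ | 0 < τ.im} := isOpen_lt continuous_const Complex.continuous_im
  refine differentiableOn_setIntegral volume (K := Set.Icc (0 : Fin 20 → ℝ) 1) isCompact_Icc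
      measurableSet_Icc (by rw [vol_Icc]; exact ENNReal.one_lt_top) hU
      (f := fun τ y => c τ (fun i => (y i : ℂ)) * ee (-(dt μ (fun i => (y i : ℂ))))) ?_ ?_
  · have h1 : ContinuousOn (fun q : ℂ × (Fin 20 → ℝ) => c q.1 (fun i => (q.2 i : ℂ)))
        ({τ : ℂ | 0 < τ.im} ×ˢ Set.Icc (0 : Fin 20 → ℝ) 1) := by
      refine hJ.holo.continuousOn.comp (f := fun q : ℂ × (Fin 20 → ℝ) =>
        (q.1, fun i => (q.2 i : ℂ))) (by fun_prop) ?_
      rintro ⟨τ, y⟩ ⟨h2, _⟩
      exact h2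
    have h2 : Continuous fun q : ℂ × (Fin 20 → ℝ) => ee (-(dt μ (fun i => (q.2 i : ℂ)))) := by
      refine ee_diff'.continuous.comp ?_
      unfold dt
      fun_prop
    exact h1.mul h2.continuousOn
  · intro y _
    refine DifferentiableOn.mul_const ?_ _
    exact hJ.holo.comp (f := fun τ : ℂ => (τ, fun i => (y i : ℂ))) (by fun_prop) fun τ hτ => hτ

/-- decay of the Fourier coefficients -/
theorem fc_decay (hJ : JacobiZero A c) {τ : ℂ} (hτ : 0 < τ.im) {T : ℝ} (hT : 0 ≤ T) :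
    ∃ B : ℝ, 0 ≤ B ∧ ∀ μ : Fin 20 → ℤ,
      ‖fc c μ τ‖ ≤ B * Real.exp (-(2 * Real.pi * (T * ∑ i, |(μ i : ℝ)|))) := by
  have hcc : Continuous fun q : (Fin 20 → ℂ) × (Fin 20 → ℝ) => c τ (fun i => q.1 i + (q.2 i : ℂ)) :=
    (c_slice_diff hJ hτ).continuous.comp (by fun_prop)
  have hK : IsCompact (Metric.closedBall (0 : Fin 20 → ℂ) T ×ˢ Set.Icc (0 : Fin 20 → ℝ) 1) :=
    (isCompact_closedBall _ _).prod isCompact_Icc
  obtain ⟨B, hB⟩ := hK.exists_bound_of_continuousOn hcc.continuousOn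
  refine ⟨|B|, abs_nonneg _, fun μ => ?_⟩
  set w : Fin 20 → ℂ := fun i => ((-(T * (SignType.sign (μ i : ℝ) : ℝ)) : ℝ) : ℂ) * Complex.I with hw
  have hwb : w ∈ Metric.closedBall (0 : Fin 20 → ℂ) T := by
    rw [mem_closedBall_zero_iff, pi_norm_le_iff_of_nonneg hT]
    intro i
    rw [hw]
    simp only
    rw [norm_mul, Complex.norm_real, Complex.norm_I, mul_one, norm_neg, norm_mul,
      Real.norm_eq_abs T, abs_of_nonneg hT]
    have : ‖((SignType.sign (μ i : ℝ) : SignType) : ℝ)‖ ≤ 1 := by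
      rcases SignType.trichotomy (SignType.sign (μ i : ℝ)) with h | h | h <;> rw [h] <;> simp
    calc T * ‖((SignType.sign (μ i : ℝ) : SignType) : ℝ)‖ ≤ T * 1 :=
          mul_le_mul_of_nonneg_left this hT
      _ = T := mul_one T
  rw [fc_shift hJ μ hτ w]
  have h1 : ∀ y ∈ Set.Icc (0 : Fin 20 → ℝ) 1, ‖c τ (fun i => w i + (y i : ℂ)) *
      ee (-(dt μ (fun i => w i + (y i : ℂ))))‖ ≤
        |B| * Real.exp (-(2 * Real.pi * (T * ∑ i, |(μ i : ℝ)|))) := by
    intro y hy
    rw [norm_mul, norm_ee]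
    have e1 : (-(dt μ (fun i => w i + (y i : ℂ)))).im = T * ∑ i, |(μ i : ℝ)| := by
      rw [Complex.neg_im, dt_im]
      unfold dt imv
      rw [← Finset.sum_neg_distrib, Finset.mul_sum]
      refine Finset.sum_congr rfl fun i _ => ?_
      rw [hw]
      simp only [Complex.add_im, Complex.ofReal_im, add_zero, Complex.im_ofReal_mul,
        Complex.I_im, mul_one]
      rw [← self_mul_sign (μ i : ℝ)]
      ring
    rw [e1]
    exact mul_le_mul_of_nonneg_right ((hB (w, y) ⟨hwb, hy⟩).trans (le_abs_self _))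
      (Real.exp_pos _).le
  have h2 := norm_setIntegral_le_of_norm_le_const (μ := volume) (s := Set.Icc (0 : Fin 20 → ℝ) 1)
    (by rw [vol_Icc]; exact ENNReal.one_lt_top) h1
  have h3 : (volume : Measure (Fin 20 → ℝ)).real (Set.Icc 0 1) = 1 := by
    rw [Measure.real, vol_Icc]; simp
  rw [h3, mul_one] at h2
  exact h2

theorem summable_exp_abs : Summable fun n : ℤ => Real.exp (-(2 * Real.pi * |(n : ℝ)|)) := by
  have hr : Real.exp (-(2 * Real.pi)) < 1 := Real.exp_lt_one_iff.2 (by linarith [Real.pi_pos])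
  have hg : Summable fun n : ℕ => Real.exp (-(2 * Real.pi)) ^ n :=
    summable_geometric_of_lt_one (Real.exp_pos _).le hr
  refine Summable.of_nat_of_neg ?_ ?_
  · refine hg.congr fun n => ?_
    rw [← Real.exp_nat_mul]
    congr 1
    have : |(((n : ℕ) : ℤ) : ℝ)| = n := by simp
    rw [this]
    ring
  · refine hg.congr fun n => ?_
    rw [← Real.exp_nat_mul]
    congr 1
    have : |((-((n : ℕ) : ℤ) : ℤ) : ℝ)| = n := by simp
    rw [this]
    ring

/-- **Fourier expansion** -/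
theorem fc_hasSum (hJ : JacobiZero A c) {τ : ℂ} (hτ : 0 < τ.im) (z : Fin 20 → ℂ) :
    (Summable fun μ : Fin 20 → ℤ => ‖fc c μ τ * ee (dt μ z)‖) ∧
    HasSum (fun μ : Fin 20 → ℤ => fc c μ τ * ee (dt μ z)) (c τ z) := by
  have hpi := Real.pi_pos
  set T : ℝ := ‖z‖ + 1 with hT
  obtain ⟨B, hB0, hB⟩ := fc_decay hJ hτ (T := T) (by positivity)
  have hsum : Summable fun μ : Fin 20 → ℤ => ‖fc c μ τ * ee (dt μ z)‖ := by
    have h1 := (pi_summable_int (n := 20) (fun n => (Real.exp_pos _).le) summable_exp_abs).mul_left B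
    refine Summable.of_nonneg_of_le (fun _ => norm_nonneg _) (fun μ => ?_) h1
    rw [norm_mul, norm_ee, ← Real.exp_sum]
    have h2 : -(2 * Real.pi * (dt μ z).im) ≤ 2 * Real.pi * (‖z‖ * ∑ i, |(μ i : ℝ)|) := by
      rw [dt_im]
      have h3 : -(dt μ (imv z)) ≤ ‖z‖ * ∑ i, |(μ i : ℝ)| := by
        unfold dt
        rw [← Finset.sum_neg_distrib, Finset.mul_sum]
        refine Finset.sum_le_sum fun i _ => ?_
        have h4 : |imv z i| ≤ ‖z‖ := (Complex.abs_im_le_norm _).trans (norm_le_pi_norm z i)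
        calc -((μ i : ℝ) * imv z i) ≤ |(μ i : ℝ) * imv z i| := neg_le_abs _
          _ = |imv z i| * |(μ i : ℝ)| := by rw [abs_mul, mul_comm]
          _ ≤ ‖z‖ * |(μ i : ℝ)| := mul_le_mul_of_nonneg_right h4 (abs_nonneg _)
      nlinarith
    calc ‖fc c μ τ‖ * Real.exp (-(2 * Real.pi * (dt μ z).im)) ≤
        (B * Real.exp (-(2 * Real.pi * (T * ∑ i, |(μ i : ℝ)|)))) *
          Real.exp (2 * Real.pi * (‖z‖ * ∑ i, |(μ i : ℝ)|)) := by
          gcongr
          exact hB μ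
      _ = B * Real.exp (∑ i, -(2 * Real.pi * |(μ i : ℝ)|)) := by
          rw [mul_assoc, ← Real.exp_add, Finset.sum_neg_distrib, ← Finset.mul_sum]
          congr 2
          rw [hT]
          ring
  refine ⟨hsum, ?_⟩
  set u : Fin 20 → ℂ := fun i => ((z i).im : ℂ) * Complex.I with hu
  have hcoef : ∀ μ : Fin 20 → ℤ, ∫ x in Set.Icc (0 : Fin 20 → ℝ) 1,
      c τ (fun i => u i + (x i : ℂ)) * ch (-(∑ i, (μ i : ℝ) * x i)) = ee (dt μ u) * fc c μ τ := by
    intro μ
    rw [fc_shift hJ μ hτ u, ← integral_const_mul]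
    congr 1
    funext x
    have e1 : (fun i => u i + (x i : ℂ)) = u + fun i => (x i : ℂ) := rfl
    have e2 : dt μ (fun i => u i + (x i : ℂ)) = dt μ u + dt μ (fun i => (x i : ℂ)) := by
      rw [e1, dt_add]
    have e3 : ch (-(∑ i, (μ i : ℝ) * x i)) = ee (-(dt μ fun i => (x i : ℂ))) := by
      rw [ch_ee]
      unfold dt
      push_cast
      rfl
    rw [e2, e3, neg_add, ee_add]
    have e4 : ee (dt μ u) * ee (-(dt μ u)) = 1 := by
      rw [← ee_add, add_neg_cancel, ee_zero]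
    calc c τ (fun i => u i + (x i : ℂ)) * ee (-(dt μ fun i => (x i : ℂ))) =
        (ee (dt μ u) * ee (-(dt μ u))) *
          (c τ (fun i => u i + (x i : ℂ)) * ee (-(dt μ fun i => (x i : ℂ)))) := by
          rw [e4, one_mul]
      _ = _ := by ring
  have hz : z = fun i => u i + ((rev z i : ℝ) : ℂ) := by
    funext i
    rw [hu]
    simp only [rev]
    rw [add_comm]
    exact (Complex.re_add_im (z i)).symm
  have hch : ∀ μ : Fin 20 → ℤ, ee (dt μ u) * ch (∑ i, (μ i : ℝ) * rev z i) = ee (dt μ z) := by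
    intro μ
    have e3 : ch (∑ i, (μ i : ℝ) * rev z i) = ee (dt μ fun i => ((rev z i : ℝ) : ℂ)) := by
      rw [ch_ee]
      unfold dt
      push_cast
      rfl
    rw [e3, ← ee_add, ← dt_add]
    congr 2
    exact hz.symm
  have key := fourier_pi (n := 20) (f := fun x : Fin 20 → ℝ => c τ (fun i => u i + (x i : ℂ)))
    ((c_slice_diff hJ hτ).continuous.comp (by fun_prop)) (fun x v => by
      have e1 : (fun i => u i + (((fun i => x i + (v i : ℝ)) i : ℝ) : ℂ)) =
          fun i => (fun i => u i + (x i : ℂ)) i + (v i : ℂ) := by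
        funext i
        push_cast
        ring
      simp only
      have := hJ.perz τ (fun i => u i + (x i : ℂ)) v hτ
      rw [← this]
      congr 1) (by
      simp only [hcoef]
      refine Summable.of_norm ?_
      refine hsum.congr fun μ => ?_
      rw [norm_mul, norm_mul, norm_ee, norm_ee, mul_comm]
      congr 3
      rw [dt_im, dt_im]
      have : imv z = imv u := by
        funext i
        rw [hu]
        simp [imv]
      rw [this]) (rev z)
  simp only [hcoef] at key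
  rw [← hz] at key
  refine key.congr_fun ?_ |> id
  intro μ
  rw [← hch μ]
  ring

/-- the law under translations -/
theorem fc_translate (hA : PosSymm A) (hJ : JacobiZero A c) (μ v : Fin 20 → ℤ) {τ : ℂ}
    (hτ : 0 < τ.im) :
    vf A c (μ + A.mulVec v) τ = vf A c μ τ := by
  have h1 := fc_shift hJ μ hτ (fun i => τ * (v i : ℂ))
  have h2 : ∀ y : Fin 20 → ℝ, c τ (fun i => τ * (v i : ℂ) + (y i : ℂ)) *
      ee (-(dt μ (fun i => τ * (v i : ℂ) + (y i : ℂ)))) =
      ee (-(τ * (((bf A v v : ℤ) : ℂ) / 2 + ((dt μ v : ℤ) : ℂ)))) *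
        (c τ (fun i => (y i : ℂ)) * ee (-(dt (μ + A.mulVec v) (fun i => (y i : ℂ))))) := by
    intro y
    have e1 : (fun i => τ * (v i : ℂ) + (y i : ℂ)) = fun i => (y i : ℂ) + τ * (v i : ℂ) := by
      funext i; ring
    have e2 := hJ.quasi τ (fun i => (y i : ℂ)) v hτ
    have e3 : dt μ (fun i => (y i : ℂ) + τ * (v i : ℂ)) =
        dt μ (fun i => (y i : ℂ)) + τ * ((dt μ v : ℤ) : ℂ) := by
      have : (fun i => (y i : ℂ) + τ * (v i : ℂ)) =
          (fun i => (y i : ℂ)) + τ • fun i => (v i : ℂ) := by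
        funext i; simp
      rw [this, dt_add, dt_smul, dt_intCast]
    have e4 : dt (μ + A.mulVec v) (fun i => (y i : ℂ)) =
        dt μ (fun i => (y i : ℂ)) + bf A (fun i => (v i : ℂ)) (fun i => (y i : ℂ)) := by
      rw [dt_add_left, dt_mulVec hA.symm]
    rw [e1, e2, e3, e4]
    have e5 : bf A (fun i => (v i : ℂ)) (fun i => (v i : ℂ)) = ((bf A v v : ℤ) : ℂ) := by
      rw [bf_intCast]
    rw [e5]
    set P := dt μ (fun i => (y i : ℂ))
    set Q := bf A (fun i => (v i : ℂ)) (fun i => (y i : ℂ))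
    have e6 : ee (-(Q + τ * ((bf A v v : ℤ) : ℂ) / 2)) * ee (-(P + τ * ((dt μ v : ℤ) : ℂ))) =
        ee (-(τ * (((bf A v v : ℤ) : ℂ) / 2 + ((dt μ v : ℤ) : ℂ)))) * ee (-(P + Q)) := by
      rw [← ee_add, ← ee_add]
      congr 1
      ring
    calc ee (-(Q + τ * ((bf A v v : ℤ) : ℂ) / 2)) * c τ (fun i => (y i : ℂ)) *
        ee (-(P + τ * ((dt μ v : ℤ) : ℂ))) =
        (ee (-(Q + τ * ((bf A v v : ℤ) : ℂ) / 2)) * ee (-(P + τ * ((dt μ v : ℤ) : ℂ)))) *
          c τ (fun i => (y i : ℂ)) := by ring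
      _ = _ := by rw [e6]; ring
  simp only [h2] at h1
  rw [integral_const_mul] at h1
  have h3 : fc c μ τ = ee (-(τ * (((bf A v v : ℤ) : ℂ) / 2 + ((dt μ v : ℤ) : ℂ)))) *
      fc c (μ + A.mulVec v) τ := h1
  unfold vf
  rw [h3, ← mul_assoc, ← ee_add]
  congr 2
  have h4 := bd_add_mulVec hA μ v 1
  rw [one_smul] at h4
  rw [h4, dt_intCast]
  push_cast
  ring

theorem theta1 : JobTheta1 := by
  intro A c hA hJ
  refine ⟨fc_diff hJ, ?_, fun μ τ w hτ => fc_shift hJ μ hτ w,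
    fun μ v τ hτ => fc_translate hA hJ μ v hτ, fun τ z hτ => (fc_hasSum hJ hτ z).2⟩
  intro μ τ hτ
  unfold fc
  congr 1
  funext y
  rw [hJ.perτ τ _ hτ]

end

end Pool.Agent.W2helper33.RL
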