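import Mathlib
import Pool.Agent.Y813.RL.Stm

set_option autoImplicit false

/-!
# RL: the vanishing lemma for vector valued forms of negative weight (JobVV)
-/

open MeasureTheory Complex Set Topology Filter

namespace Pool.Agent.W2helper33.RL

open Pool.Agent.Y813.RL

noncomputable section

open scoped Real MatrixGroups

/-- invariance of a function on the upper half plane under `SL(2,Z)` from the generators -/
theorem inv_of_gen (h : UpperHalfPlane → ℝ)
    (hT : ∀ z : UpperHalfPlane, h (ModularGroup.T • z) = h z)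
    (hS : ∀ z : UpperHalfPlane, h (ModularGroup.S • z) = h z) (g : SL(2, ℤ))
    (z : UpperHalfPlane) : h (g • z) = h z := by
  have hg : g ∈ Subgroup.closure {ModularGroup.S, ModularGroup.T} := by
    simp [SpecialLinearGroup.SL2Z_generators]
  induction hg using Subgroup.closure_induction generalizing z with
  | mem x hx =>
    rcases hx with rfl | rfl
    · exact hS z
    · exact hT z
  | one => simp
  | mul x y _ _ hx hy => rw [mul_smul, hx, hy]
  | inv x _ hx =>
    have := hx (x⁻¹ • z)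
    rw [smul_inv_smul] at this
    exact this.symm

theorem eta_norm_T (z : ℂ) : ‖ModularForm.eta (z + 1)‖ = ‖ModularForm.eta z‖ := by
  unfold ModularForm.eta
  rw [norm_mul, norm_mul]
  have h1 : ‖Function.Periodic.qParam 24 (z + 1)‖ = ‖Function.Periodic.qParam 24 z‖ := by
    simp [Function.Periodic.norm_qParam]
  have h2 : ∀ n : ℕ, ModularForm.eta_q n (z + 1) = ModularForm.eta_q n z := by
    intro n
    have : Function.Periodic.qParam 1 (z + 1) = Function.Periodic.qParam 1 z := by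
      unfold Function.Periodic.qParam
      rw [show 2 * (π : ℂ) * I * (z + 1) / ((1 : ℝ) : ℂ) =
        2 * (π : ℂ) * I * z / ((1 : ℝ) : ℂ) + 2 * π * I by push_cast; ring, Complex.exp_periodic]
    simp only [ModularForm.eta_q, this]
  rw [h1]
  simp only [h2]

theorem norm_sqrt_sq (z : ℂ) : ‖Complex.sqrt z‖ ^ 2 = ‖z‖ := by
  have h : ‖Complex.sqrt z‖ ^ 2 = ‖Complex.sqrt z ^ 2‖ := by rw [norm_pow]
  rw [h]
  congr 1
  unfold Complex.sqrt
  rw [← Complex.cpow_nat_mul]
  norm_num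

theorem eta_norm_S (z : ℂ) (hz : 0 < z.im) :
    ‖ModularForm.eta (-1 / z)‖ ^ 2 = ‖z‖ * ‖ModularForm.eta z‖ ^ 2 := by
  have h := ModularForm.eta_comp_eq_csqrt_I_inv (show z ∈ UpperHalfPlane.upperHalfPlaneSet from hz)
  simp only [Function.comp_apply, Pi.smul_apply, Pi.mul_apply, smul_eq_mul] at h
  rw [h, norm_mul, norm_mul, mul_pow, mul_pow, norm_inv, inv_pow, norm_sqrt_sq, norm_sqrt_sq]
  simp

theorem eta_bound : ∃ C : ℝ, 0 < C ∧ ∀ z : ℂ, 1 / 2 ≤ z.im →
    ‖ModularForm.eta z‖ ≤ C * Real.exp (-(2 * π * z.im / 24)) := by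
  have hr : Real.exp (-π) < 1 := by
    rw [Real.exp_lt_one_iff]
    linarith [Real.pi_pos]
  have hcont : ContinuousOn (fun q : ℂ => ∏' n : ℕ, (1 - q ^ (n + 1)))
      (Metric.closedBall (0 : ℂ) (Real.exp (-π))) :=
    ModularForm.differentiableOn_tprod_one_sub_pow.continuousOn.mono
      (Metric.closedBall_subset_ball hr)
  obtain ⟨C, hC⟩ := (isCompact_closedBall (0 : ℂ) (Real.exp (-π))).exists_bound_of_continuousOn
    hcont
  refine ⟨max C 1, lt_of_lt_of_le one_pos (le_max_right _ _), fun z hz => ?_⟩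
  unfold ModularForm.eta
  rw [norm_mul, mul_comm]
  have h1 : ‖Function.Periodic.qParam 24 z‖ = Real.exp (-(2 * π * z.im / 24)) := by
    rw [Function.Periodic.norm_qParam]
    congr 1
    ring
  have h2 : ‖Function.Periodic.qParam 1 z‖ ≤ Real.exp (-π) := by
    rw [Function.Periodic.norm_qParam]
    apply Real.exp_le_exp.mpr
    have := Real.pi_pos
    nlinarith
  have h3 := hC (Function.Periodic.qParam 1 z) (by simpa using h2)
  rw [h1]
  refine mul_le_mul_of_nonneg_right ?_ (Real.exp_pos _).le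
  exact h3.trans (le_max_left _ _)

/-- **VV**: the vanishing lemma. -/
theorem vv : JobVV := by
  intro ι _ w κ Ψ hκ hol hT hS hgr
  -- the function
  set U : Set ℂ := {τ : ℂ | 0 < τ.im} with hU
  have hUo : IsOpen U := isOpen_lt continuous_const Complex.continuous_im
  have hUc : IsPreconnected U := (convex_halfSpace_im_gt 0).isPreconnected
  set Φ : ℂ → EuclideanSpace ℂ ι := fun τ => WithLp.toLp 2
    (fun i => ModularForm.eta τ ^ (2 * w) * Ψ τ i) with hΦ
  have hΦd : DifferentiableOn ℂ Φ U := by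
    intro τ hτ
    have h1 : DifferentiableAt ℂ ModularForm.eta τ :=
      ModularForm.differentiableAt_eta_of_mem_upperHalfPlaneSet hτ
    have h2 : DifferentiableAt ℂ Ψ τ := (hol τ hτ).differentiableAt (hUo.mem_nhds hτ)
    have h3 : DifferentiableAt ℂ (fun τ i => ModularForm.eta τ ^ (2 * w) * Ψ τ i) τ := by
      rw [differentiableAt_pi]
      intro i
      exact (h1.pow _).mul (differentiableAt_pi.mp h2 i)
    have h4 : DifferentiableAt ℂ Φ τ :=
      ((PiLp.continuousLinearEquiv 2 ℂ (fun _ : ι => ℂ)).symm.differentiableAt).comp τ h3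
    exact h4.differentiableWithinAt
  set h : ℂ → ℝ := fun τ => ‖ModularForm.eta τ‖ ^ (4 * w) * ∑ i, ‖Ψ τ i‖ ^ 2 with hh
  have hnorm : ∀ τ, ‖Φ τ‖ ^ 2 = h τ := by
    intro τ
    rw [EuclideanSpace.norm_sq_eq]
    simp only [hΦ, hh, norm_mul, norm_pow, mul_pow, Finset.mul_sum]
    refine Finset.sum_congr rfl fun i _ => ?_
    rw [← pow_mul]
    congr 2
    ring
  have hT' : ∀ τ, 0 < τ.im → h (τ + 1) = h τ := by
    intro τ hτ
    simp only [hh, eta_norm_T, hT τ hτ]
  have hS' : ∀ τ, 0 < τ.im → h (-1 / τ) = h τ := by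
    intro τ hτ
    simp only [hh]
    have e1 : ‖ModularForm.eta (-1 / τ)‖ ^ (4 * w) =
        ‖τ‖ ^ (2 * w) * ‖ModularForm.eta τ‖ ^ (4 * w) := by
      have : 4 * w = 2 * (2 * w) := by ring
      rw [this, pow_mul, eta_norm_S τ hτ, mul_pow, ← pow_mul]
    rw [e1, ← hS τ hτ]
    ring
  have hinv : ∀ (g : SL(2, ℤ)) (z : UpperHalfPlane), h ((g • z : UpperHalfPlane) : ℂ) = h z := by
    intro g z
    refine inv_of_gen (fun z => h z) ?_ ?_ g z
    · intro z
      simp only [UpperHalfPlane.modular_T_smul]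
      rw [UpperHalfPlane.coe_vadd]
      rw [add_comm]
      exact_mod_cast hT' z z.2
    · intro z
      simp only [UpperHalfPlane.modular_S_smul]
      have : (-(z : ℂ))⁻¹ = -1 / (z : ℂ) := by
        rw [inv_neg]
        ring
      rw [this]
      exact hS' z z.2
  -- decay
  obtain ⟨C, hC⟩ := hgr
  obtain ⟨D, hD0, hD⟩ := eta_bound
  have hdec : ∀ τ : ℂ, 1 / 2 ≤ τ.im → h τ ≤ (D ^ (4 * w) * (Fintype.card ι * C ^ 2)) *
      Real.exp (-(4 * π * (w / 12 + κ)) * τ.im) := by
    intro τ hτ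
    simp only [hh]
    have e1 : ‖ModularForm.eta τ‖ ^ (4 * w) ≤
        (D * Real.exp (-(2 * π * τ.im / 24))) ^ (4 * w) :=
      pow_le_pow_left₀ (norm_nonneg _) (hD τ hτ) _
    have e2 : ∑ i, ‖Ψ τ i‖ ^ 2 ≤ Fintype.card ι * (C * Real.exp (-(2 * π * κ * τ.im))) ^ 2 := by
      have : ∑ i, ‖Ψ τ i‖ ^ 2 ≤ ∑ _i : ι, (C * Real.exp (-(2 * π * κ * τ.im))) ^ 2 :=
        Finset.sum_le_sum fun i _ => pow_le_pow_left₀ (norm_nonneg _) (hC τ hτ i) _
      simpa using this
    have e3 : 0 ≤ ∑ i, ‖Ψ τ i‖ ^ 2 := Finset.sum_nonneg fun i _ => by positivity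
    calc ‖ModularForm.eta τ‖ ^ (4 * w) * ∑ i, ‖Ψ τ i‖ ^ 2
        ≤ (D * Real.exp (-(2 * π * τ.im / 24))) ^ (4 * w) *
          (Fintype.card ι * (C * Real.exp (-(2 * π * κ * τ.im))) ^ 2) :=
          mul_le_mul e1 e2 e3 (by positivity)
      _ = (D ^ (4 * w) * (Fintype.card ι * C ^ 2)) *
          (Real.exp (-(2 * π * τ.im / 24)) ^ (4 * w) *
            Real.exp (-(2 * π * κ * τ.im)) ^ 2) := by ring
      _ = _ := by
        congr 1
        rw [← Real.exp_nat_mul, ← Real.exp_nat_mul, ← Real.exp_add]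
        congr 1
        push_cast
        ring
  have hrate : 0 < 4 * π * ((w : ℝ) / 12 + κ) := by
    have := Real.pi_pos
    have : 0 < (w : ℝ) / 12 + κ := by linarith
    positivity
  have htend : Tendsto (fun t : ℝ => (D ^ (4 * w) * (Fintype.card ι * C ^ 2)) *
      Real.exp (-(4 * π * (w / 12 + κ)) * t)) atTop (𝓝 0) := by
    have h1 : Tendsto (fun t : ℝ => Real.exp (-(4 * π * (w / 12 + κ)) * t)) atTop (𝓝 0) := by
      apply Real.tendsto_exp_atBot.comp
      exact tendsto_id.const_mul_atTop_of_neg (by linarith)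
    simpa using h1.const_mul (D ^ (4 * w) * (Fintype.card ι * C ^ 2))
  have hsmall : ∀ ε : ℝ, 0 < ε → ∃ V : ℝ, 1 ≤ V ∧ ∀ τ : ℂ, V ≤ τ.im → h τ < ε := by
    intro ε hε
    have := htend.eventually (gt_mem_nhds hε)
    obtain ⟨V, hV⟩ := eventually_atTop.mp this
    refine ⟨max V 1, le_max_right _ _, fun τ hτ => ?_⟩
    exact lt_of_le_of_lt (hdec τ (by linarith [le_max_right V 1])) (hV _ ((le_max_left _ _).trans hτ))
  -- suppose not zero
  have hmain : ∀ τ, 0 < τ.im → h τ = 0 := by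
    by_contra hcon
    push Not at hcon
    obtain ⟨τ0, hτ0, hne⟩ := hcon
    have hpos : 0 < h τ0 := by
      have : 0 ≤ h τ0 := by rw [← hnorm]; positivity
      exact lt_of_le_of_ne this (Ne.symm hne)
    obtain ⟨V, hV1, hV⟩ := hsmall _ hpos
    set K : Set ℂ := Icc (-(1 / 2) : ℝ) (1 / 2) ×ℂ Icc (1 / 2 : ℝ) V with hK
    have hKc : IsCompact K := isCompact_Icc.reProdIm isCompact_Icc
    have hKU : K ⊆ U := by
      intro τ hτ
      have : 1 / 2 ≤ τ.im := hτ.2.1
      show 0 < τ.im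
      linarith
    have hcont : ContinuousOn h K := by
      have : ContinuousOn (fun τ => ‖Φ τ‖ ^ 2) K :=
        ((hΦd.continuousOn.mono hKU).norm).pow 2
      exact this.congr fun τ _ => (hnorm τ).symm
    -- moving to the fundamental domain
    have hmove : ∀ τ : ℂ, 0 < τ.im → ∃ τ' : ℂ, |τ'.re| ≤ 1 / 2 ∧ 1 / 2 ≤ τ'.im ∧ h τ' = h τ := by
      intro τ hτ
      obtain ⟨g, hg⟩ := ModularGroup.exists_smul_mem_fd (UpperHalfPlane.mk τ hτ)
      refine ⟨((g • (UpperHalfPlane.mk τ hτ) : UpperHalfPlane) : ℂ), hg.2, ?_, ?_⟩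
      · have h1 := ModularGroup.three_le_four_mul_im_sq_of_mem_fd hg
        have h2 : 0 < (g • (UpperHalfPlane.mk τ hτ)).im := (g • (UpperHalfPlane.mk τ hτ)).2
        show 1 / 2 ≤ (g • (UpperHalfPlane.mk τ hτ)).im
        nlinarith
      · exact hinv g _
    obtain ⟨τ0', h01, h02, h03⟩ := hmove τ0 hτ0
    have hK0 : τ0' ∈ K := by
      refine ⟨⟨(abs_le.mp h01).1, (abs_le.mp h01).2⟩, h02, ?_⟩
      by_contra hc
      push Not at hc
      have := hV τ0' hc.le
      rw [h03] at this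
      exact lt_irrefl _ this
    obtain ⟨τ1, hτ1K, hmax⟩ := hKc.exists_isMaxOn ⟨τ0', hK0⟩ hcont
    have hge : ∀ τ, 0 < τ.im → h τ ≤ h τ1 := by
      intro τ hτ
      obtain ⟨τ', h1, h2, h3⟩ := hmove τ hτ
      rw [← h3]
      by_cases hc : τ'.im ≤ V
      · exact hmax ⟨⟨(abs_le.mp h1).1, (abs_le.mp h1).2⟩, h2, hc⟩
      · push Not at hc
        have e1 := hV τ' hc.le
        have e2 : h τ0' ≤ h τ1 := hmax hK0
        rw [h03] at e2
        linarith
    have hτ1U : τ1 ∈ U := hKU hτ1K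
    have hmaxn : IsMaxOn (norm ∘ Φ) U τ1 := by
      intro τ hτ
      have e := hge τ hτ
      rw [← hnorm, ← hnorm] at e
      exact (pow_le_pow_iff_left₀ (norm_nonneg _) (norm_nonneg _) two_ne_zero).mp e
    have hconst := Complex.norm_eqOn_of_isPreconnected_of_isMaxOn hUc hUo hΦd hτ1U hmaxn
    have hc1 : ∀ τ, 0 < τ.im → h τ = h τ1 := by
      intro τ hτ
      have := hconst (show τ ∈ U from hτ)
      simp only [Function.comp_apply, Function.const_apply] at this
      rw [← hnorm, ← hnorm, this]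
    have hp1 : 0 < h τ1 := by
      have := hge τ0 hτ0
      linarith
    obtain ⟨W, hW1, hW⟩ := hsmall _ hp1
    have e1 := hW ((W : ℂ) * I) (by simp)
    have e2 := hc1 ((W : ℂ) * I) (by simp; linarith)
    rw [e2] at e1
    exact lt_irrefl _ e1
  intro τ hτ i
  have h0 := hmain τ hτ
  have he : ModularForm.eta τ ≠ 0 := ModularForm.eta_ne_zero (show τ ∈ UpperHalfPlane.upperHalfPlaneSet from hτ)
  rw [← hnorm] at h0
  have h1 : ‖Φ τ‖ = 0 := by
    rcases pow_eq_zero_iff (two_ne_zero) |>.mp h0 with h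
    exact h
  rw [norm_eq_zero] at h1
  have h2 : ModularForm.eta τ ^ (2 * w) * Ψ τ i = 0 := by
    have := congrArg (fun f : EuclideanSpace ℂ ι => f i) h1
    simpa [hΦ] using this
  rcases mul_eq_zero.mp h2 with h | h
  · exact absurd h (pow_ne_zero _ he)
  · exact h

end

end Pool.Agent.W2helper33.RL
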